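import Pool.Agent.Helper62.FM.Defs

/-!
Basic lemmas on displacements and flows of words.
-/

namespace Pool.Agent.Helper62.FM

open Finset

variable {r : ℕ}

@[simp] lemma bar_bar (a : Lt r) : bar (bar a) = a := by
  obtain ⟨i, b⟩ := a; simp [bar]

@[simp] lemma bar_fst (a : Lt r) : (bar a).1 = a.1 := rfl

lemma bar_inj {a b : Lt r} : bar a = bar b ↔ a = b := by
  constructor
  · intro h
    rw [← bar_bar a, h, bar_bar]
  · intro h; rw [h]

lemma bar_ne (a : Lt r) : bar a ≠ a := by
  obtain ⟨i, b⟩ := a; cases b <;> simp [bar]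

lemma eq_or_eq_bar {a b : Lt r} (h : a.1 = b.1) : a = b ∨ a = bar b := by
  obtain ⟨i, x⟩ := a
  obtain ⟨j, y⟩ := b
  simp only at h
  subst h
  cases x <;> cases y <;> simp [bar]

@[simp] lemma sgn_bar (a : Lt r) : sgn (bar a) = - sgn a := by
  obtain ⟨i, b⟩ := a; cases b <;> simp [bar, sgn]

lemma sgn_eq (a : Lt r) : sgn a = 1 ∨ sgn a = -1 := by
  obtain ⟨i, b⟩ := a; cases b <;> simp [sgn]

lemma sgn_ne (a : Lt r) : sgn a ≠ 0 := by
  rcases sgn_eq a with h | h <;> rw [h] <;> decide

@[simp] lemma step_bar (a : Lt r) : step (bar a) = - step a := by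
  unfold step
  rw [sgn_bar, bar_fst, Pi.single_neg]

lemma step_apply (a : Lt r) (k : Fin r) : step a k = if k = a.1 then sgn a else 0 := by
  unfold step
  by_cases h : k = a.1
  · subst h; simp
  · simp [h]

@[simp] lemma step_self (a : Lt r) : step a a.1 = sgn a := by simp [step_apply]

lemma step_of_ne {a : Lt r} {k : Fin r} (h : k ≠ a.1) : step a k = 0 := by simp [step_apply, h]

lemma step_ne_zero (a : Lt r) : step a ≠ 0 := by
  intro h
  have := congrFun h a.1
  rw [step_self] at this
  exact sgn_ne a this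

lemma step_inj {a b : Lt r} (h : step a = step b) : a = b := by
  have h1 := congrFun h a.1
  rw [step_self, step_apply] at h1
  by_cases hab : a.1 = b.1
  · rw [if_pos hab] at h1
    rcases eq_or_eq_bar hab with h2 | h2
    · exact h2
    · rw [h2, sgn_bar] at h1
      have := sgn_ne b
      omega
  · rw [if_neg hab] at h1
    exact absurd h1 (sgn_ne a)

@[simp] lemma disp_nil : disp ([] : Wd r) = 0 := rfl
@[simp] lemma disp_cons (a : Lt r) (w : Wd r) : disp (a :: w) = step a + disp w := rfl

lemma disp_append (u v : Wd r) : disp (u ++ v) = disp u + disp v := by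
  induction u with
  | nil => simp
  | cons a u ih => simp [ih, add_assoc]

@[simp] lemma fl_nil (p : Pt r) (a : Lt r) : fl ([] : Wd r) p a = 0 := rfl

lemma fl_cons (b : Lt r) (w : Wd r) (p : Pt r) (a : Lt r) :
    fl (b :: w) p a = (if p = 0 ∧ a = b then 1 else 0) - (if p = step b ∧ a = bar b then 1 else 0)
        + fl w (p - step b) a := rfl

lemma fl_append (u v : Wd r) (p : Pt r) (a : Lt r) :
    fl (u ++ v) p a = fl u p a + fl v (p - disp u) a := by
  induction u generalizing p with
  | nil => simp
  | cons b u ih =>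
    rw [List.cons_append, fl_cons, fl_cons, ih, disp_cons, sub_sub]
    ring

lemma fl_anti (w : Wd r) (p : Pt r) (a : Lt r) : fl w (p + step a) (bar a) = - fl w p a := by
  induction w generalizing p with
  | nil => simp
  | cons b w ih =>
    rw [fl_cons, fl_cons]
    have h1 : p + step a - step b = (p - step b) + step a := by abel
    rw [h1, ih]
    have e1 : (p + step a = 0 ∧ bar a = b) ↔ (p = step b ∧ a = bar b) := by
      constructor
      · rintro ⟨h, rfl⟩
        refine ⟨?_, by simp⟩
        rw [step_bar]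
        exact eq_neg_of_add_eq_zero_left h
      · rintro ⟨h, rfl⟩
        refine ⟨?_, by simp⟩
        rw [h, step_bar]; simp
    have e2 : (p + step a = step b ∧ bar a = bar b) ↔ (p = 0 ∧ a = b) := by
      rw [bar_inj]
      constructor
      · rintro ⟨h, rfl⟩
        exact ⟨by simpa using h, rfl⟩
      · rintro ⟨h, rfl⟩
        exact ⟨by simp [h], rfl⟩
    simp only [e1, e2]
    ring

lemma fl_anti' (w : Wd r) (p : Pt r) (a : Lt r) : fl w p (bar a) = - fl w (p - step a) a := by
  rw [← fl_anti]; simp

@[simp] lemma rv_nil : rv ([] : Wd r) = [] := rfl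

lemma rv_cons (a : Lt r) (w : Wd r) : rv (a :: w) = rv w ++ [bar a] := by simp [rv]

lemma rv_append (u v : Wd r) : rv (u ++ v) = rv v ++ rv u := by simp [rv]

@[simp] lemma rv_rv (w : Wd r) : rv (rv w) = w := by
  induction w with
  | nil => rfl
  | cons a w ih => rw [rv_cons, rv_append, ih]; simp [rv]

@[simp] lemma length_rv (w : Wd r) : (rv w).length = w.length := by simp [rv]

lemma rv_eq_invRev (w : Wd r) : rv w = FreeGroup.invRev w := rfl

lemma disp_rv (w : Wd r) : disp (rv w) = - disp w := by
  induction w with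
  | nil => simp
  | cons a w ih => rw [rv_cons, disp_append, ih]; simp

lemma fl_rv (w : Wd r) (p : Pt r) (a : Lt r) : fl (rv w) p a = - fl w (p + disp w) a := by
  induction w generalizing p with
  | nil => simp
  | cons b w ih =>
    rw [rv_cons, fl_append, ih, disp_rv, fl_cons, fl_cons]
    have e1 : (p - -disp w = 0 ∧ a = bar b) ↔ (p + disp (b :: w) = step b ∧ a = bar b) := by
      rw [disp_cons]
      constructor
      · rintro ⟨h, h2⟩
        refine ⟨?_, h2⟩
        rw [sub_neg_eq_add] at h
        rw [show p + (step b + disp w) = (p + disp w) + step b by abel, h]; simp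
      · rintro ⟨h, h2⟩
        refine ⟨?_, h2⟩
        rw [sub_neg_eq_add]
        rw [show p + (step b + disp w) = (p + disp w) + step b by abel] at h
        simpa using h
    have e2 : (p - -disp w = step (bar b) ∧ a = bar (bar b)) ↔ (p + disp (b :: w) = 0 ∧ a = b) := by
      rw [disp_cons, bar_bar, step_bar]
      constructor
      · rintro ⟨h, h2⟩
        refine ⟨?_, h2⟩
        rw [sub_neg_eq_add] at h
        rw [show p + (step b + disp w) = (p + disp w) + step b by abel, h]; simp
      · rintro ⟨h, h2⟩
        refine ⟨?_, h2⟩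
        rw [sub_neg_eq_add]
        rw [show p + (step b + disp w) = (p + disp w) + step b by abel] at h
        exact eq_neg_of_add_eq_zero_left h
    simp only [e1, e2, fl_nil]
    have e3 : p + disp (b :: w) - step b = p + disp w := by rw [disp_cons]; abel
    rw [e3]
    ring

/-- Divergence of a flow. -/
lemma fl_div (w : Wd r) (p : Pt r) :
    ∑ a, fl w p a = (if p = 0 then 1 else 0) - (if p = disp w then 1 else 0) := by
  induction w generalizing p with
  | nil => by_cases h : p = 0 <;> simp [h]
  | cons b w ih =>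
    simp only [fl_cons, Finset.sum_add_distrib, Finset.sum_sub_distrib, ih]
    have s1 : ∑ a : Lt r, (if p = 0 ∧ a = b then (1:ℤ) else 0) = if p = 0 then 1 else 0 := by
      by_cases h : p = 0
      · simp [h]
      · simp [h]
    have s2 : ∑ a : Lt r, (if p = step b ∧ a = bar b then (1:ℤ) else 0)
        = if p = step b then 1 else 0 := by
      by_cases h : p = step b
      · simp [h]
      · simp [h]
    rw [s1, s2]
    have e1 : (p - step b = 0) ↔ (p = step b) := sub_eq_zero
    have e2 : (p - step b = disp w) ↔ (p = disp (b :: w)) := by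
      rw [disp_cons, sub_eq_iff_eq_add, add_comm]
    simp only [e1, e2]
    ring

/-- Flows determine displacements. -/
lemma disp_eq_of_fl_eq {u w : Wd r} (h : fl u = fl w) : disp u = disp w := by
  have h1 := fl_div u (disp w)
  have h2 := fl_div w (disp w)
  rw [h] at h1
  have h3 := h1.symm.trans h2
  by_contra hne
  have h4 : ¬ (disp w = disp u) := fun e => hne e.symm
  simp [h4] at h3
  linarith

lemma fl_zero_disp {w : Wd r} (h : fl w = 0) : disp w = 0 := by
  have : fl w = fl ([] : Wd r) := by rw [h]; rfl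
  simpa using disp_eq_of_fl_eq this

/-- If the flow through an edge does not vanish, then the word runs through that edge. -/
lemma exists_of_fl_ne {w : Wd r} {p : Pt r} {a : Lt r} (h : fl w p a ≠ 0) :
    (∃ u v, w = u ++ a :: v ∧ disp u = p) ∨ (∃ u v, w = u ++ bar a :: v ∧ disp u = p + step a) := by
  induction w generalizing p with
  | nil => simp at h
  | cons b w ih =>
    by_cases h1 : p = 0 ∧ a = b
    · left; exact ⟨[], w, by simp [h1.2], by simp [h1.1]⟩
    by_cases h2 : p = step b ∧ a = bar b
    · right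
      refine ⟨[], w, by simp [h2.2], ?_⟩
      rw [h2.1, h2.2]; simp
    rw [fl_cons, if_neg h1, if_neg h2] at h
    simp only [sub_self, zero_add] at h
    rcases ih h with ⟨u, v, h3, h4⟩ | ⟨u, v, h3, h4⟩
    · left
      exact ⟨b :: u, v, by simp [h3], by rw [disp_cons, h4]; abel⟩
    · right
      exact ⟨b :: u, v, by simp [h3], by rw [disp_cons, h4]; abel⟩

@[simp] lemma mem_idx {w : Wd r} {k : Fin r} : k ∈ idx w ↔ ∃ a ∈ w, a.1 = k := by
  simp [idx]

@[simp] lemma idx_nil : idx ([] : Wd r) = ∅ := rfl

lemma idx_cons (a : Lt r) (w : Wd r) : idx (a :: w) = insert a.1 (idx w) := by simp [idx]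

lemma idx_append (u v : Wd r) : idx (u ++ v) = idx u ∪ idx v := by simp [idx]

@[simp] lemma idx_rv (w : Wd r) : idx (rv w) = idx w := by
  induction w with
  | nil => rfl
  | cons a w ih => rw [rv_cons, idx_append, ih, idx_cons, idx_cons]; ext; simp

@[simp] lemma cnt_nil (k : Fin r) : cnt k ([] : Wd r) = 0 := rfl

lemma cnt_cons (k : Fin r) (a : Lt r) (w : Wd r) :
    cnt k (a :: w) = cnt k w + if a.1 = k then 1 else 0 := by
  simp [cnt, List.count_cons]

lemma cnt_append (k : Fin r) (u v : Wd r) : cnt k (u ++ v) = cnt k u + cnt k v := by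
  simp [cnt]

@[simp] lemma cnt_rv (k : Fin r) (w : Wd r) : cnt k (rv w) = cnt k w := by
  induction w with
  | nil => rfl
  | cons a w ih =>
    rw [rv_cons, cnt_append, ih, cnt_cons, cnt_cons]
    by_cases h : a.1 = k <;> simp [h]

lemma cnt_eq_zero {k : Fin r} {w : Wd r} : cnt k w = 0 ↔ k ∉ idx w := by
  simp [cnt, idx, List.count_eq_zero]

lemma cnt_pos {k : Fin r} {w : Wd r} : 0 < cnt k w ↔ k ∈ idx w := by
  rw [Nat.pos_iff_ne_zero, Ne, cnt_eq_zero, not_not]

lemma sum_cnt (w : Wd r) : ∑ k ∈ idx w, cnt k w = w.length := by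
  have := List.sum_toFinset_count_eq_length (w.map Prod.fst)
  simpa [idx, cnt] using this

lemma card_idx_le (w : Wd r) : (idx w).card ≤ w.length := by
  have := List.toFinset_card_le (w.map Prod.fst)
  rwa [List.length_map] at this

lemma disp_of_not_mem {k : Fin r} {w : Wd r} (h : k ∉ idx w) : disp w k = 0 := by
  induction w with
  | nil => rfl
  | cons a w ih =>
    rw [idx_cons, Finset.mem_insert, not_or] at h
    rw [disp_cons, Pi.add_apply, step_of_ne h.1, ih h.2, add_zero]

/-- A word without the index `k` lives in the level `0` of the coordinate `k`. -/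
lemma fl_level {k : Fin r} {w : Wd r} (h : k ∉ idx w) {p : Pt r} {a : Lt r} (hf : fl w p a ≠ 0) :
    p k = 0 ∧ a.1 ≠ k := by
  rcases exists_of_fl_ne hf with ⟨u, v, h1, h2⟩ | ⟨u, v, h1, h2⟩
  · rw [h1, idx_append, idx_cons, Finset.mem_union, Finset.mem_insert, not_or, not_or] at h
    refine ⟨by rw [← h2]; exact disp_of_not_mem h.1, fun e => h.2.1 e.symm⟩
  · rw [h1, idx_append, idx_cons, Finset.mem_union, Finset.mem_insert, not_or, not_or] at h
    have h3 : a.1 ≠ k := fun e => h.2.1 (by simp [e])
    refine ⟨?_, h3⟩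
    have h4 := congrFun h2 k
    rw [disp_of_not_mem h.1, Pi.add_apply, step_of_ne (Ne.symm h3), add_zero] at h4
    exact h4.symm

lemma fl_eq_zero_of_level {k : Fin r} {w : Wd r} (h : k ∉ idx w) {p : Pt r} (a : Lt r)
    (hp : p k ≠ 0) : fl w p a = 0 := by
  by_contra hf
  exact hp (fl_level h hf).1

lemma fl_eq_zero_of_idx {k : Fin r} {w : Wd r} (h : k ∉ idx w) (p : Pt r) {a : Lt r}
    (ha : a.1 = k) : fl w p a = 0 := by
  by_contra hf
  exact (fl_level h hf).2 ha

/-! Norms. -/

lemma nrm_add_le (p q : Pt r) : nrm (p + q) ≤ nrm p + nrm q := by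
  unfold nrm
  rw [← Finset.sum_add_distrib]
  exact Finset.sum_le_sum fun k _ => Int.natAbs_add_le _ _

@[simp] lemma nrm_zero : nrm (0 : Pt r) = 0 := by simp [nrm]

@[simp] lemma nrm_neg (p : Pt r) : nrm (-p) = nrm p := by simp [nrm]

@[simp] lemma nrm_step (a : Lt r) : nrm (step a) = 1 := by
  unfold nrm
  rw [Finset.sum_eq_single a.1]
  · rw [step_self]; rcases sgn_eq a with h | h <;> rw [h] <;> rfl
  · intro k _ hk; rw [step_of_ne hk]; rfl
  · simp

lemma nrm_disp_le (w : Wd r) : nrm (disp w) ≤ w.length := by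
  induction w with
  | nil => simp
  | cons a w ih =>
    rw [disp_cons, List.length_cons]
    have := nrm_add_le (step a) (disp w)
    rw [nrm_step] at this
    omega

lemma eq_zero_of_nrm {p : Pt r} (h : nrm p = 0) : p = 0 := by
  funext k
  unfold nrm at h
  rw [Finset.sum_eq_zero_iff] at h
  simpa using h k (Finset.mem_univ k)

/-! Parity and counts. -/

lemma disp_natAbs_le (k : Fin r) (w : Wd r) : (disp w k).natAbs ≤ cnt k w := by
  induction w with
  | nil => simp
  | cons a w ih =>
    rw [disp_cons, Pi.add_apply, cnt_cons, step_apply]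
    by_cases h : a.1 = k
    · subst h
      simp only [if_true]
      rcases sgn_eq a with h | h <;> rw [h] <;> omega
    · rw [if_neg (Ne.symm h), if_neg h]; simpa using ih

lemma disp_parity (k : Fin r) (w : Wd r) : (disp w k) % 2 = (cnt k w : ℤ) % 2 := by
  induction w with
  | nil => simp
  | cons a w ih =>
    rw [disp_cons, Pi.add_apply, cnt_cons, step_apply]
    by_cases h : a.1 = k
    · subst h
      simp only [if_true]
      push_cast
      rcases sgn_eq a with h | h <;> rw [h] <;> omega
    · rw [if_neg (Ne.symm h), if_neg h]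
      push_cast
      omega

end Pool.Agent.Helper62.FM
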