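import Pool.Agent.Helper62.FM.Coin

/-!
Reduced words with at most four repeats that avoid the forbidden words are determined by their
flow.
-/

namespace Pool.Agent.Helper62.FM

open Finset

variable {r : ℕ}

/-- Forbidden words. -/
def Forb (f : Wd r) : Prop := ∃ f', FP f f'

/-- Words without forbidden factors. -/
def AvF (w : Wd r) : Prop := ∀ f, f <:+: w → ¬ Forb f

lemma AvF.of_factor {u w : Wd r} (h : AvF w) (hu : u <:+: w) : AvF u :=
  fun f hf => h f (hf.trans hu)

lemma rep_append_left (u v : Wd r) : rep u ≤ rep (u ++ v) := by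
  unfold rep
  rw [idx_append, List.length_append]
  have h1 := Finset.card_union_le (idx u) (idx v)
  have h2 := card_idx_le v
  have h3 := card_idx_le u
  omega

lemma rep_append_right (u v : Wd r) : rep v ≤ rep (u ++ v) := by
  unfold rep
  rw [idx_append, List.length_append]
  have h1 := Finset.card_union_le (idx u) (idx v)
  have h2 := card_idx_le v
  have h3 := card_idx_le u
  omega

lemma rep_le_of_factor {u w : Wd r} (h : u <:+: w) : rep u ≤ rep w := by
  obtain ⟨s, t, rfl⟩ := h
  exact (rep_append_right s u).trans (rep_append_left _ _)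

lemma two_card_le {w : Wd r} (hd : disp w = 0) : 2 * (idx w).card ≤ w.length := by
  rw [← sum_cnt w, mul_comm, ← smul_eq_mul]
  exact Finset.card_nsmul_le_sum _ _ _ fun k hk => two_le_cnt hd hk

/-- A reduced word with vanishing flow and at most six repeats is empty. -/
lemma zero_of_rep {w : Wd r} (hr : Rd w) (hz : fl w = 0) (h : rep w ≤ 6) : w = [] := by
  have h1 := two_card_le (fl_zero_disp hz)
  unfold rep at h
  exact zero_short hr hz (by omega)

lemma fl_cons_cancel {a : Lt r} {u w : Wd r} (h : fl (a :: u) = fl (a :: w)) : fl u = fl w := by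
  funext p x
  have := congrFun (congrFun h (p + step a)) x
  rw [fl_cons, fl_cons, add_sub_cancel_right] at this
  linarith

lemma fl_append_cancel {a : Lt r} {u w : Wd r} (h : fl (u ++ [a]) = fl (w ++ [a])) :
    fl u = fl w := by
  have hd := disp_eq_of_fl_eq h
  rw [disp_append, disp_append] at hd
  have hd' : disp u = disp w := add_right_cancel hd
  funext p x
  have := congrFun (congrFun h p) x
  rw [fl_append, fl_append, hd'] at this
  linarith

/-- The value of the flow on the only edge of index `a.1`. -/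
lemma fl_solo {P Q : Wd r} {a : Lt r} (hP : a.1 ∉ idx P) (hQ : a.1 ∉ idx Q) :
    fl (P ++ a :: Q) (disp P) a = 1 := by
  rw [fl_append, fl_eq_zero_of_idx hP _ rfl, fl_cons, fl_eq_zero_of_idx hQ _ rfl, sub_self,
    if_pos ⟨rfl, rfl⟩, if_neg]
  · rfl
  · rintro ⟨_, e⟩; exact bar_ne a e.symm

/-- Cutting two words with the same flow along a letter whose index occurs once in both. -/
lemma cut {P Q P' Q' : Wd r} {a b : Lt r} (hab : a.1 = b.1) (hP : a.1 ∉ idx P) (hQ : a.1 ∉ idx Q)
    (hP' : a.1 ∉ idx P') (hQ' : a.1 ∉ idx Q') (h : fl (P ++ a :: Q) = fl (P' ++ b :: Q')) :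
    a = b ∧ fl P = fl P' ∧ fl Q = fl Q' := by
  have h1 := fl_solo hP hQ
  have hba : b = a := by
    rcases eq_or_eq_bar hab.symm with e | e
    · exact e
    · exfalso
      subst e
      rw [h, fl_append, fl_eq_zero_of_idx hP' _ rfl, fl_cons, fl_eq_zero_of_idx hQ' _ rfl,
        if_neg (fun e => (bar_ne a) e.2.symm)] at h1
      split_ifs at h1 <;> omega
  subst hba
  have h2 : disp P = disp P' := by
    rw [h, fl_append, fl_eq_zero_of_idx hP' _ rfl, fl_cons, fl_eq_zero_of_idx hQ' _ rfl] at h1
    by_contra hne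
    rw [if_neg (fun e => hne (sub_eq_zero.1 e.1)), if_neg (fun e => (bar_ne b) e.2.symm)] at h1
    omega
  have gen : ∀ p x, x.1 ≠ b.1 → fl P p x + fl Q (p - disp P - step b) x
      = fl P' p x + fl Q' (p - disp P - step b) x := by
    intro p x hx
    have := congrFun (congrFun h p) x
    rwa [fl_append, fl_cons_ne hx, fl_append, fl_cons_ne hx, ← h2] at this
  have hs := sgn_ne b
  refine ⟨rfl, ?_, ?_⟩
  · funext p x
    by_cases hx : x.1 = b.1
    · rw [fl_eq_zero_of_idx hP _ hx, fl_eq_zero_of_idx hP' _ hx]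
    by_cases hp : p b.1 = 0
    · have := gen p x hx
      rw [fl_eq_zero_of_level hQ x (by simp [hp, disp_of_not_mem hP, hs]),
        fl_eq_zero_of_level hQ' x (by simp [hp, disp_of_not_mem hP, hs])] at this
      simpa using this
    · rw [fl_eq_zero_of_level hP _ hp, fl_eq_zero_of_level hP' _ hp]
  · funext q x
    by_cases hx : x.1 = b.1
    · rw [fl_eq_zero_of_idx hQ _ hx, fl_eq_zero_of_idx hQ' _ hx]
    by_cases hp : q b.1 = 0
    · have := gen (q + disp P + step b) x hx
      rw [fl_eq_zero_of_level hP x (by simp [hp, disp_of_not_mem hP, hs]),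
        fl_eq_zero_of_level hP' x (by simp [hp, disp_of_not_mem hP, hs])] at this
      have e : q + disp P + step b - disp P - step b = q := by abel
      rw [e] at this
      simpa using this
    · rw [fl_eq_zero_of_level hQ _ hp, fl_eq_zero_of_level hQ' _ hp]

/-- An index occurring twice in one of two words with the same flow occurs in the other one. -/
lemma no_two_zero {k : Fin r} {u w : Wd r} (hu : Rd u) (hru : rep u ≤ 6) (h2 : cnt k u = 2)
    (h0 : cnt k w = 0) (h : fl u = fl w) : False := by
  obtain ⟨P, a, X, rfl, g1, kP, m1⟩ := split_first (n := 1) h2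
  obtain ⟨V, b, Q, rfl, g2, kV, m2⟩ := split_first (n := 0) m1
  have kQ : k ∉ idx Q := cnt_eq_zero.1 m2
  have kw : k ∉ idx w := cnt_eq_zero.1 h0
  have hd := congrFun (disp_eq_of_fl_eq h) k
  have sg : ∀ c : Lt r, c.1 = k → step c k = sgn c := by
    intro c hc; rw [← hc]; exact step_self c
  simp only [disp_cons, disp_append, Pi.add_apply, disp_of_not_mem kP, disp_of_not_mem kV,
    disp_of_not_mem kQ, disp_of_not_mem kw, sg _ g1, sg _ g2] at hd
  have hba : b = bar a := by
    rcases eq_or_eq_bar (a := b) (b := a) (by rw [g1, g2]) with e | e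
    · exfalso; rw [e] at hd
      have := sgn_ne a
      omega
    · exact e
  subst hba
  have hs := sgn_ne a
  have z : fl V = 0 := by
    apply fl_zero_of_level kV
    intro q x hq hx
    have hxa : x.1 ≠ a.1 := by rw [g1]; exact hx
    have := congrFun (congrFun h (q + disp P + step a)) x
    rw [fl_append, fl_cons_ne hxa, fl_append, fl_cons_ne (by simpa using hxa),
      fl_eq_zero_of_level kP x (by simp [hq, disp_of_not_mem kP, sg _ g1, hs]),
      fl_eq_zero_of_level kQ x (by
        simp [hq, disp_of_not_mem kP, disp_of_not_mem kV, sg _ g1, hs]),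
      fl_eq_zero_of_level kw x (by simp [hq, disp_of_not_mem kP, sg _ g1, hs])] at this
    have e : q + disp P + step a - disp P - step a = q := by abel
    rw [e] at this
    simpa using this
  have hf : V <:+: (P ++ a :: (V ++ bar a :: Q)) := ⟨P ++ [a], bar a :: Q, by simp⟩
  have hV : V = [] := zero_of_rep (rd_factor hu hf) z ((rep_le_of_factor hf).trans hru)
  subst hV
  exact not_rd hu

lemma CR_pair {a b a' b' : Lt r} {u1 w1 u2 w2 : Wd r} (hu : Rd (a :: u1)) (hw : Rd (b :: w1))
    (eu : a :: u1 = u2 ++ [a']) (ew : b :: w1 = w2 ++ [b']) (hab : a ≠ b) (hab' : a' ≠ b') :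
    CR (rv (a :: u1) ++ (b :: w1)) := by
  have r1 : Rd (rv (a :: u1) ++ (b :: w1)) := by
    rw [rv_cons, rd_append_iff]
    refine ⟨?_, hw, ?_⟩
    · rw [← rv_cons]; exact rd_rv hu
    · rw [bar_bar]; exact hab.symm
  unfold CR
  have e1 : rv (a :: u1) ++ (b :: w1) ++ (rv (a :: u1) ++ (b :: w1))
      = ((rv (a :: u1) ++ w2) ++ [b']) ++ (bar a' :: (rv u2 ++ (b :: w1))) := by
    have : rv (a :: u1) = bar a' :: rv u2 := by
      rw [eu, rv_append]; rfl
    conv_lhs => rw [ew]
    rw [← ew, this]
    simp [ew]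
  rw [e1, rd_append_iff]
  refine ⟨?_, ?_, ?_⟩
  · have : (rv (a :: u1) ++ w2) ++ [b'] = rv (a :: u1) ++ (b :: w1) := by rw [ew]; simp
    rw [this]; exact r1
  · have : bar a' :: (rv u2 ++ (b :: w1)) = rv (a :: u1) ++ (b :: w1) := by
      rw [eu, rv_append]; rfl
    rw [this]; exact r1
  · intro e; exact hab' (bar_inj.1 e)

lemma rotate_of {A B R : Wd r} {n : ℕ} (hn : 0 < n) (hR : R.length = n) (h : B ++ A = R) :
    ∃ j < n, A ++ B = R.rotate j := by
  refine ⟨B.length % n, Nat.mod_lt _ hn, ?_⟩
  rw [← hR, List.rotate_mod, ← h, List.rotate_append_length_eq]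

/-- The final step: minimal coincidences. -/
lemma minimal_pair {u w : Wd r} (hc : CR (rv u ++ w)) (hz : fl (rv u ++ w) = 0)
    (hu : rep u ≤ 4) (hw : rep w ≤ 4) (hne : rv u ++ w ≠ [])
    (h4 : ∀ k ∈ idx (rv u ++ w), 4 ≤ cnt k (rv u ++ w)) : FP u w ∨ FP w u := by
  set c := rv u ++ w with hcdef
  have hlen : c.length = u.length + w.length := by rw [hcdef]; simp
  have h14 : 14 ≤ c.length := by
    by_contra hcon
    exact hne (zero_short hc.rd hz (by omega))
  have hsum := sum_cnt c
  have hcard : 4 * (idx c).card ≤ c.length := by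
    rw [← hsum, mul_comm, ← smul_eq_mul]
    exact Finset.card_nsmul_le_sum _ _ _ h4
  have hidx : idx c = idx u ∪ idx w := by rw [hcdef, idx_append, idx_rv]
  have hu' : (idx u).card ≤ (idx c).card := Finset.card_le_card (by rw [hidx]; exact subset_union_left)
  have hw' : (idx w).card ≤ (idx c).card := Finset.card_le_card (by rw [hidx]; exact subset_union_right)
  unfold rep at hu hw
  have hD : (idx c).card = 3 ∨ (idx c).card = 4 := by omega
  have heven : ∀ k, cnt k c % 2 = 0 := fun k => cnt_even (fl_zero_disp hz) k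
  rcases hD with hD | hD
  · have l1 : c.length = 14 := by omega
    have l2 : u.length = 7 := by omega
    obtain ⟨k, hk, hk4⟩ : ∃ k ∈ idx c, cnt k c = 4 := by
      by_contra hcon
      have h6 : ∀ k ∈ idx c, 6 ≤ cnt k c := by
        intro k hk
        have e1 := h4 k hk
        have e2 := heven k
        have e3 : cnt k c ≠ 4 := fun e => hcon ⟨k, hk, e⟩
        omega
      have : 6 * (idx c).card ≤ c.length := by
        rw [← hsum, mul_comm, ← smul_eq_mul]
        exact Finset.card_nsmul_le_sum _ _ _ h6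
      omega
    obtain ⟨A, B, e1, x, y, z, hxy, hxz, hyz, e2⟩ := class14 hc hz l1 hk4
    rcases e2 with e2 | e2
    · obtain ⟨j, hj, e3⟩ := rotate_of (n := 14) (by norm_num) rfl e2
      exact coin7a hxy hxz hyz l2 hj (by rw [← hcdef, e1, e3])
    · obtain ⟨j, hj, e3⟩ := rotate_of (n := 14) (by norm_num) rfl e2
      exact coin7b hxy hxz hyz l2 hj (by rw [← hcdef, e1, e3])
  · have l1 : c.length = 16 := by omega
    have l2 : u.length = 8 := by omega
    have hall : ∀ k ∈ idx c, cnt k c = 4 := by
      by_contra hcon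
      push Not at hcon
      obtain ⟨k, hk, hk4⟩ := hcon
      have hlt : ∑ k ∈ idx c, 4 < ∑ k ∈ idx c, cnt k c :=
        Finset.sum_lt_sum h4 ⟨k, hk, lt_of_le_of_ne (h4 k hk) (Ne.symm hk4)⟩
      rw [hsum, Finset.sum_const, hD, l1] at hlt
      simp at hlt
    obtain ⟨A, B, e1, x, y, z, t, hxy, hxz, hxw, hyz, hyw, hzw, e2⟩ := class16 hc hz l1 hall
    obtain ⟨j, hj, e3⟩ := rotate_of (n := 16) (by norm_num) rfl e2
    exact coin8 hxy hxz hxw hyz hyw hzw l2 hj (by rw [← hcdef, e1, e3])

/-- Reduced words with at most four repeats that avoid the forbidden words are determined by their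
flow. -/
theorem coincidence : ∀ (n : ℕ) (u w : Wd r), u.length + w.length = n → Rd u → Rd w → rep u ≤ 4 →
    rep w ≤ 4 → AvF u → AvF w → fl u = fl w → u = w := by
  intro n
  induction n using Nat.strong_induction_on with
  | _ n ih =>
    intro u w hn ru rw' pu pw au aw h
    by_cases hu0 : u = []
    · subst hu0
      have hz : fl w = 0 := by rw [← h]; rfl
      exact (zero_of_rep rw' hz (by omega)).symm
    by_cases hw0 : w = []
    · subst hw0
      have hz : fl u = 0 := by rw [h]; rfl
      exact zero_of_rep ru hz (by omega)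
    obtain ⟨a, u1, eu⟩ := List.exists_cons_of_ne_nil hu0
    obtain ⟨b, w1, ew⟩ := List.exists_cons_of_ne_nil hw0
    obtain ⟨u2, a', eu'⟩ : ∃ u2 a', u = u2 ++ [a'] := by
      rcases List.eq_nil_or_concat u with e | ⟨L, x, e⟩
      · exact absurd e hu0
      · exact ⟨L, x, by rw [e, List.concat_eq_append]⟩
    obtain ⟨w2, b', ew'⟩ : ∃ w2 b', w = w2 ++ [b'] := by
      rcases List.eq_nil_or_concat w with e | ⟨L, x, e⟩
      · exact absurd e hw0
      · exact ⟨L, x, by rw [e, List.concat_eq_append]⟩
    -- common first letter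
    by_cases hab : a = b
    · subst hab
      have f1 : u1 <:+: u := ⟨[a], [], by rw [eu]; simp⟩
      have f2 : w1 <:+: w := ⟨[a], [], by rw [ew]; simp⟩
      have : u1 = w1 := by
        apply ih (u1.length + w1.length) _ u1 w1 rfl (rd_factor ru f1) (rd_factor rw' f2)
          ((rep_le_of_factor f1).trans pu) ((rep_le_of_factor f2).trans pw) (au.of_factor f1)
          (aw.of_factor f2)
        · apply fl_cons_cancel (a := a); rw [← eu, ← ew, h]
        · rw [eu, ew] at hn; simp at hn; omega
      rw [eu, ew, this]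
    -- common last letter
    by_cases hab' : a' = b'
    · subst hab'
      have f1 : u2 <:+: u := ⟨[], [a'], by rw [eu']; simp⟩
      have f2 : w2 <:+: w := ⟨[], [a'], by rw [ew']; simp⟩
      have : u2 = w2 := by
        apply ih (u2.length + w2.length) _ u2 w2 rfl (rd_factor ru f1) (rd_factor rw' f2)
          ((rep_le_of_factor f1).trans pu) ((rep_le_of_factor f2).trans pw) (au.of_factor f1)
          (aw.of_factor f2)
        · apply fl_append_cancel (a := a'); rw [← eu', ← ew', h]
        · rw [eu', ew'] at hn; simp at hn; omega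
      rw [eu', ew', this]
    -- the closed word
    have hz : fl (rv u ++ w) = 0 := by
      funext p x
      rw [fl_append, fl_rv, disp_rv, ← h]
      simp
    have hc : CR (rv u ++ w) := by
      rw [eu, ew]
      exact CR_pair (by rw [← eu]; exact ru) (by rw [← ew]; exact rw') (by rw [← eu, eu'])
        (by rw [← ew, ew']) hab hab'
    by_cases h4 : ∀ k ∈ idx (rv u ++ w), 4 ≤ cnt k (rv u ++ w)
    · exfalso
      have hne : rv u ++ w ≠ [] := by rw [ew]; simp
      rcases minimal_pair hc hz pu pw hne h4 with e | e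
      · exact au u (List.infix_refl u) ⟨w, e⟩
      · exact aw w (List.infix_refl w) ⟨u, e⟩
    · push Not at h4
      obtain ⟨k, hk, hk4⟩ := h4
      have ev := cnt_even (fl_zero_disp hz) k
      have hpos := cnt_pos.2 hk
      have h2 : cnt k (rv u ++ w) = 2 := by omega
      rw [cnt_append, cnt_rv] at h2
      have hcases : (cnt k u = 2 ∧ cnt k w = 0) ∨ (cnt k u = 0 ∧ cnt k w = 2) ∨
          (cnt k u = 1 ∧ cnt k w = 1) := by omega
      rcases hcases with ⟨c1, c2⟩ | ⟨c1, c2⟩ | ⟨c1, c2⟩
      · exact (no_two_zero ru (by omega) c1 c2 h).elim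
      · exact (no_two_zero rw' (by omega) c2 c1 h.symm).elim
      · obtain ⟨P, x, Q, e1, g1, kP, m1⟩ := split_first (n := 0) c1
        obtain ⟨P', x', Q', e2, g2, kP', m2⟩ := split_first (n := 0) c2
        have kQ : k ∉ idx Q := cnt_eq_zero.1 m1
        have kQ' : k ∉ idx Q' := cnt_eq_zero.1 m2
        have hh : fl (P ++ x :: Q) = fl (P' ++ x' :: Q') := by rw [← e1, ← e2, h]
        obtain ⟨q1, q2, q3⟩ := cut (by rw [g1, g2]) (by rw [g1]; exact kP) (by rw [g1]; exact kQ)
          (by rw [g1]; exact kP') (by rw [g1]; exact kQ') hh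
        have l1 : u.length = P.length + (Q.length + 1) := by rw [e1]; simp
        have l2 : w.length = P'.length + (Q'.length + 1) := by rw [e2]; simp
        have f1 : P <:+: u := ⟨[], x :: Q, by rw [e1]; simp⟩
        have f2 : P' <:+: w := ⟨[], x' :: Q', by rw [e2]; simp⟩
        have f3 : Q <:+: u := ⟨P ++ [x], [], by rw [e1]; simp⟩
        have f4 : Q' <:+: w := ⟨P' ++ [x'], [], by rw [e2]; simp⟩
        have t1 : P = P' := ih (P.length + P'.length) (by omega) P P' rfl (rd_factor ru f1)
          (rd_factor rw' f2) ((rep_le_of_factor f1).trans pu) ((rep_le_of_factor f2).trans pw)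
          (au.of_factor f1) (aw.of_factor f2) q2
        have t2 : Q = Q' := ih (Q.length + Q'.length) (by omega) Q Q' rfl (rd_factor ru f3)
          (rd_factor rw' f4) ((rep_le_of_factor f3).trans pu) ((rep_le_of_factor f4).trans pw)
          (au.of_factor f3) (aw.of_factor f4) q3
        rw [e1, e2, q1, t1, t2]

end Pool.Agent.Helper62.FM
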