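import Pool.Agent.Helper62.FM.Short

/-!
Classification of the cyclically reduced words with vanishing flow of length fourteen and sixteen
with few repeats.
-/

namespace Pool.Agent.Helper62.FM

open Finset

variable {r : ℕ}

/-- Closed reduced words of length four. -/
lemma closed4 {V : Wd r} (h1 : Rd V) (h2 : disp V = 0) (h3 : V.length = 4) :
    ∃ y z : Lt r, y.1 ≠ z.1 ∧ V = [y, z, bar y, bar z] := by
  match V, h3 with
  | [a, b, c, d], _ =>
    have r1 := rd_cons_cons.1 h1
    have r2 := rd_cons_cons.1 r1.2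
    have r3 := rd_cons_cons.1 r2.2
    have nb := r1.1
    have nc := r2.1
    have nd := r3.1
    have ha := congrFun h2 a.1
    simp only [disp_cons, disp_nil, add_zero, Pi.add_apply, Pi.zero_apply, step_apply, if_true] at ha
    have sa := sgn_eq a
    have sb := sgn_eq b
    have sc := sgn_eq c
    have sd := sgn_eq d
    by_cases hab : a.1 = b.1
    · exfalso
      have e : b = a := by
        rcases eq_or_eq_bar hab.symm with e | e
        · exact e
        · exact absurd e nb
      subst e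
      have hc : c ≠ bar b := nc
      rw [if_pos rfl] at ha
      by_cases hbc : b.1 = c.1
      · have e2 : c = b := by
          rcases eq_or_eq_bar hbc.symm with e | e
          · exact e
          · exact absurd e hc
        subst e2
        rw [if_pos rfl] at ha
        split_ifs at ha <;> omega
      · rw [if_neg hbc] at ha
        split_ifs at ha <;> omega
    · rw [if_neg hab] at ha
      by_cases hac : a.1 = c.1
      · rcases eq_or_eq_bar hac.symm with e | e
        · subst e
          exfalso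
          rw [if_pos rfl] at ha
          split_ifs at ha <;> omega
        · subst e
          have h4 : step b + step d = 0 := by
            have : disp [a, b, bar a, d] = step b + step d := by
              simp only [disp_cons, disp_nil, step_bar]; abel
            rw [← this, h2]
          have h5 : d = bar b := by
            apply step_inj
            rw [step_bar]; exact eq_neg_of_add_eq_zero_right h4
          exact ⟨a, b, hab, by rw [h5]⟩
      · exfalso
        rw [if_neg hac] at ha
        by_cases had : a.1 = d.1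
        · rcases eq_or_eq_bar had.symm with e | e
          · subst e
            rw [if_pos rfl] at ha; omega
          · subst e
            have h4 : step b + step c = 0 := by
              have : disp [a, b, c, bar a] = step b + step c := by
                simp only [disp_cons, disp_nil, step_bar]; abel
              rw [← this, h2]
            have h5 : c = bar b := by
              apply step_inj
              rw [step_bar]; exact eq_neg_of_add_eq_zero_right h4
            exact nc h5
        · rw [if_neg had] at ha; omega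

/-- The flow of a unit square. -/
lemma fl_sq (y z : Lt r) (p : Pt r) (a : Lt r) :
    fl [y, z, bar y, bar z] p a =
      (if p = 0 ∧ a = y then 1 else 0) - (if p = step y ∧ a = bar y then 1 else 0)
      + (if p = step y ∧ a = z then 1 else 0) - (if p = step y + step z ∧ a = bar z then 1 else 0)
      + (if p = step y + step z ∧ a = bar y then 1 else 0) - (if p = step z ∧ a = y then 1 else 0)
      + (if p = step z ∧ a = bar z then 1 else 0) - (if p = 0 ∧ a = z then 1 else 0) := by
  rw [fl_cons, fl_cons, fl_cons, fl_cons, fl_nil]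
  simp only [step_bar, bar_bar]
  have e1 : (p - step y = 0) ↔ p = step y := sub_eq_zero
  have e2 : (p - step y = step z) ↔ p = step y + step z := by rw [sub_eq_iff_eq_add, add_comm]
  have e3 : (p - step y - step z = 0) ↔ p = step y + step z := by rw [sub_sub, sub_eq_zero]
  have e4 : (p - step y - step z = -step y) ↔ p = step z := by
    rw [show p - step y - step z = (p - step z) + -step y by abel, add_eq_right, sub_eq_zero]
  have e5 : (p - step y - step z - -step y = 0) ↔ p = step z := by
    rw [show p - step y - step z - -step y = p - step z by abel, sub_eq_zero]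
  have e6 : (p - step y - step z - -step y = -step z) ↔ p = 0 := by
    rw [show p - step y - step z - -step y = p + -step z by abel, add_eq_right]
  simp only [e1, e2, e3, e4, e5, e6]
  ring

lemma fl_sq_neg {y z : Lt r} {p : Pt r} {a : Lt r} (h : fl [y, z, bar y, bar z] p a < 0) :
    (p = step y ∧ a = bar y) ∨ (p = step y + step z ∧ a = bar z) ∨ (p = step z ∧ a = y) ∨
      (p = 0 ∧ a = z) := by
  rw [fl_sq] at h
  by_contra hc
  rw [not_or, not_or, not_or] at hc
  rw [if_neg hc.1, if_neg hc.2.1, if_neg hc.2.2.1, if_neg hc.2.2.2] at h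
  split_ifs at h <;> omega

lemma step_add_ne_zero {y z : Lt r} (h : y.1 ≠ z.1) : step y + step z ≠ 0 := by
  intro e
  have := congrFun e y.1
  rw [Pi.add_apply, step_self, step_of_ne h, add_zero] at this
  exact sgn_ne y this

lemma step_add_ne_step {y z v : Lt r} (h : y.1 ≠ z.1) : step y + step z ≠ step v := by
  intro e
  have h1 := congrFun e y.1
  have h2 := congrFun e z.1
  rw [Pi.add_apply, step_self, step_of_ne h, add_zero, step_apply] at h1
  rw [Pi.add_apply, step_self, step_of_ne h.symm, zero_add, step_apply] at h2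
  have n1 := sgn_ne y
  have n2 := sgn_ne z
  by_cases h3 : y.1 = v.1
  · by_cases h4 : z.1 = v.1
    · exact h (h3.trans h4.symm)
    · rw [if_neg h4] at h2; exact n2 h2
  · rw [if_neg h3] at h1; exact n1 h1

lemma fl_sq_first {y z : Lt r} (h : y.1 ≠ z.1) : fl [y, z, bar y, bar z] 0 y = 1 := by
  have hy : y ≠ z := fun e => h (by rw [e])
  rw [fl_sq]
  simp [(step_ne_zero y).symm, (step_ne_zero z).symm, (step_add_ne_zero h).symm, hy]

lemma fl_sq_second {y z : Lt r} (h : y.1 ≠ z.1) : fl [y, z, bar y, bar z] (step y) z = 1 := by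
  have hy : z ≠ y := fun e => h (by rw [e])
  have hy' : z ≠ bar y := fun e => h (by rw [e]; rfl)
  have h1 : ¬ step y = step z := fun e => hy (step_inj e.symm)
  have h2 : ¬ step y = step y + step z := fun e => step_ne_zero z (by simpa using e)
  rw [fl_sq]
  simp [step_ne_zero y, hy, hy', h1, h2]

/-- Two unit squares with opposite flows whose base points differ by a unit step. -/
lemma sq_adj {y z y' z' v : Lt r} (h : y.1 ≠ z.1) (h' : y'.1 ≠ z'.1)
    (hf : ∀ p a, fl [y, z, bar y, bar z] p a + fl [y', z', bar y', bar z'] (p - step v) a = 0) :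
    (v = y ∧ y' = bar y ∧ z' = z) ∨ (v = z ∧ y' = y ∧ z' = bar z) := by
  have h1 := hf (step v) y'
  rw [sub_self, fl_sq_first h'] at h1
  have h2 := hf (step v + step y') z'
  rw [add_sub_cancel_left, fl_sq_second h'] at h2
  rcases fl_sq_neg (show fl [y, z, bar y, bar z] (step v) y' < 0 by omega) with
    ⟨e1, e2⟩ | ⟨e1, e2⟩ | ⟨e1, e2⟩ | ⟨e1, e2⟩
  · left
    have ev := step_inj e1
    subst ev; subst e2
    refine ⟨rfl, rfl, ?_⟩
    rw [step_bar, add_neg_cancel] at h2
    rcases fl_sq_neg (show fl [v, z, bar v, bar z] 0 z' < 0 by omega) with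
      ⟨e1, e2⟩ | ⟨e1, e2⟩ | ⟨e1, e2⟩ | ⟨e1, e2⟩
    · exact absurd e1.symm (step_ne_zero v)
    · exact absurd e1.symm (step_add_ne_zero h)
    · exact absurd e1.symm (step_ne_zero z)
    · exact e2
  · exact absurd e1.symm (step_add_ne_step h)
  · right
    have ev := step_inj e1
    subst ev; subst e2
    refine ⟨rfl, rfl, ?_⟩
    rcases fl_sq_neg (show fl [y', v, bar y', bar v] (step v + step y') z' < 0 by omega) with
      ⟨e1, e2⟩ | ⟨e1, e2⟩ | ⟨e1, e2⟩ | ⟨e1, e2⟩
    · exact absurd e1 (by rw [add_eq_right]; exact step_ne_zero v)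
    · exact e2
    · exact absurd e1 (by rw [add_eq_left]; exact step_ne_zero y')
    · exact absurd e1 (by rw [add_comm]; exact step_add_ne_zero h)
  · exact absurd e1 (step_ne_zero v)

/-- First form of the relators of length fourteen. -/
def R7a (x y z : Lt r) : Wd r :=
  [x, y, z, bar y, bar z, bar x, y, x, bar y, z, y, bar z, bar x, bar y]

/-- Second form of the relators of length fourteen. -/
def R7b (x y z : Lt r) : Wd r :=
  [x, y, z, bar y, bar z, bar x, z, x, y, bar z, bar y, z, bar x, bar z]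

/-- The relators of length sixteen. -/
def R8 (x y z w : Lt r) : Wd r :=
  [x, y, z, bar y, bar z, bar x, w, x, bar w, z, y, bar z, bar y, w, bar x, bar w]

lemma struct_rd {g : Lt r} {V1 V2 V3 V4 : Wd r}
    (h : Rd (g :: (V1 ++ bar g :: (V2 ++ g :: (V3 ++ bar g :: V4))))) :
    Rd V1 ∧ Rd V2 ∧ Rd V3 := by
  refine ⟨rd_append_left (rd_tail h), ?_, ?_⟩
  · have e : g :: (V1 ++ bar g :: (V2 ++ g :: (V3 ++ bar g :: V4)))
      = (g :: (V1 ++ [bar g])) ++ (V2 ++ (g :: (V3 ++ bar g :: V4))) := by simp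
    rw [e] at h
    exact rd_append_left (rd_append_right h)
  · have e : g :: (V1 ++ bar g :: (V2 ++ g :: (V3 ++ bar g :: V4)))
      = (g :: (V1 ++ bar g :: (V2 ++ [g]))) ++ (V3 ++ bar g :: V4) := by simp
    rw [e] at h
    exact rd_append_left (rd_append_right h)

lemma not_mem_idx_cons {k : Fin r} {a : Lt r} {w : Wd r} (h : k ∉ idx (a :: w)) :
    k ≠ a.1 ∧ k ∉ idx w := by
  rw [idx_cons, Finset.mem_insert, not_or] at h
  exact h

theorem class14 {k : Fin r} {c : Wd r} (hc : CR c) (hz : fl c = 0) (hl : c.length = 14)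
    (hk : cnt k c = 4) :
    ∃ u v, c = u ++ v ∧ ∃ x y z : Lt r, x.1 ≠ y.1 ∧ x.1 ≠ z.1 ∧ y.1 ≠ z.1 ∧
      (v ++ u = R7a x y z ∨ v ++ u = R7b x y z) := by
  obtain ⟨u, v, h1, g, V1, V2, V3, hg, k1, k2, k3, h2, d1, d3, n1, n2, n3, hf⟩ :=
    four_struct hc hz hk (fun v hv hz' hl' => zero_short hv hz' (by omega))
  have hrot : Rd (v ++ u) := by rw [h1] at hc; exact hc.rot.rd
  rw [h2] at hrot
  obtain ⟨r1, r2, r3⟩ := struct_rd hrot
  have l1 := four_le r1 d1 n1
  have l3 := four_le r3 d3 n3
  have l2 := List.length_pos_iff.2 n2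
  have p1 := even_of_closed d1
  have p3 := even_of_closed d3
  have hlen : (v ++ u).length = 14 := by rw [← hl, h1]; simp [add_comm]
  rw [h2] at hlen
  simp at hlen
  obtain ⟨y, z, hyz, rfl⟩ := closed4 r1 d1 (by omega)
  obtain ⟨y', z', hyz', rfl⟩ := closed4 r3 d3 (by omega)
  obtain ⟨v0, rfl⟩ := List.length_eq_one_iff.1 (show V2.length = 1 by
    simp at hlen; omega)
  have hf' : ∀ p a, fl [y, z, bar y, bar z] p a + fl [y', z', bar y', bar z'] (p - step v0) a = 0 := by
    intro p a
    have := hf p a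
    simpa using this
  have hgy : g.1 ≠ y.1 := by rw [hg]; exact (not_mem_idx_cons k1).1
  have hgz : g.1 ≠ z.1 := by rw [hg]; exact (not_mem_idx_cons (not_mem_idx_cons k1).2).1
  rcases sq_adj hyz hyz' hf' with ⟨e1, e2, e3⟩ | ⟨e1, e2, e3⟩
  · subst e1; subst e2; subst e3
    exact ⟨u, v, h1, g, v0, z', hgy, hgz, hyz, Or.inl (by rw [h2]; simp [R7a, rv])⟩
  · subst e1; subst e2; subst e3
    exact ⟨u, v, h1, g, y', v0, hgy, hgz, hyz, Or.inr (by rw [h2]; simp [R7b, rv])⟩

lemma idx_of_fl_ne {w : Wd r} {p : Pt r} {a : Lt r} (h : fl w p a ≠ 0) : a.1 ∈ idx w := by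
  by_contra hc
  exact h (fl_eq_zero_of_idx hc p rfl)

lemma two_le_cnt {w : Wd r} (hd : disp w = 0) {k : Fin r} (h : k ∈ idx w) : 2 ≤ cnt k w := by
  have h1 := cnt_even hd k
  have h2 := cnt_pos.2 h
  omega

lemma cnt_sq_left {y z : Lt r} (h : y.1 ≠ z.1) : cnt y.1 [y, z, bar y, bar z] = 2 := by
  simp [cnt_cons, h.symm]

lemma cnt_sq_right {y z : Lt r} (h : y.1 ≠ z.1) : cnt z.1 [y, z, bar y, bar z] = 2 := by
  simp [cnt_cons, h]

/-- The square is followed, at a neighbouring vertex, by a closed word of length six with the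
opposite flow. -/
lemma six_closed {y z v : Lt r} {V3 : Wd r} (hyz : y.1 ≠ z.1) (hvy : v.1 ≠ y.1) (hvz : v.1 ≠ z.1)
    (h3 : Rd V3) (hl : V3.length = 6) (hc : cnt v.1 V3 = 2) (hd : disp V3 = 0)
    (hf : ∀ p a, fl [y, z, bar y, bar z] p a + fl V3 (p - step v) a = 0) :
    V3 = [bar v, z, y, bar z, bar y, v] := by
  obtain ⟨A, a1, X, rfl, g1, kA, m1⟩ := split_first (n := 1) hc
  obtain ⟨B, a2, C, rfl, g2, kB, m2⟩ := split_first (n := 0) m1
  have kC : v.1 ∉ idx C := cnt_eq_zero.1 m2
  have kS : v.1 ∉ idx [y, z, bar y, bar z] := by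
    simp [idx_cons, hvy, hvz]
  have sg : ∀ c : Lt r, c.1 = v.1 → step c v.1 = sgn c := by
    intro c hc; rw [← hc]; exact step_self c
  have hdk := congrFun hd v.1
  simp only [disp_cons, disp_append, Pi.add_apply, disp_of_not_mem kA, disp_of_not_mem kB,
    disp_of_not_mem kC, Pi.zero_apply, sg _ g1, sg _ g2] at hdk
  have h21 : a2 = bar a1 := by
    rcases eq_or_eq_bar (a := a2) (b := a1) (by rw [g1, g2]) with e | e
    · exfalso; rw [e] at hdk
      have := sgn_ne a1
      omega
    · exact e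
  subst h21
  -- the first letter with index v.1 is bar v
  have hA : ∀ q a, a.1 ≠ v.1 → fl (A ++ a1 :: (B ++ bar a1 :: C)) q a
      = fl A q a + (fl B (q - disp A - step a1) a + fl C (q - disp A - disp B) a) := by
    intro q a ha
    have ha1 : a.1 ≠ a1.1 := by rw [g1]; exact ha
    rw [fl_append, fl_cons_ne ha1, fl_append, fl_cons_ne (by simpa using ha1), step_bar]
    have e : q - disp A - step a1 - disp B - -step a1 = q - disp A - disp B := by abel
    rw [e]
  have hneg : fl (A ++ a1 :: (B ++ bar a1 :: C)) (-step v) y = -1 := by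
    have := hf 0 y
    rw [fl_sq_first hyz, zero_sub] at this
    omega
  have h1v : a1 = bar v := by
    rcases eq_or_eq_bar (a := a1) (b := v) g1 with e | e
    · exfalso
      subst e
      rw [hA _ _ hvy.symm, fl_eq_zero_of_level kA y (by simp [sgn_ne]),
        fl_eq_zero_of_level kB y (by
          simp [disp_of_not_mem kA]
          have := sgn_ne a1
          omega),
        fl_eq_zero_of_level kC y (by simp [disp_of_not_mem kA, disp_of_not_mem kB, sgn_ne])] at hneg
      omega
    · exact e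
  subst h1v
  rw [bar_bar] at *
  -- B is closed
  have hB : disp B = 0 := by
    have hz := hf (disp A) v
    rw [fl_eq_zero_of_idx kS _ rfl, zero_add, fl_append, fl_eq_zero_of_idx kA _ rfl, zero_add,
      fl_cons, fl_append, fl_eq_zero_of_idx kB _ rfl, zero_add, fl_cons,
      fl_eq_zero_of_idx kC _ rfl] at hz
    by_contra hne
    rw [step_bar, bar_bar] at hz
    have e1 : disp A - step v - disp A = -step v := by abel
    rw [e1, if_neg (fun e => (bar_ne v) e.2.symm), if_pos ⟨rfl, rfl⟩,
      if_neg (c := (_ ∧ v = bar v)) (fun e => (bar_ne v) e.2.symm)] at hz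
    have e2 : ¬ (-step v - -step v - disp B = 0 ∧ v = v) := by
      rintro ⟨e, _⟩
      apply hne
      have : -disp B = 0 := by rw [← e]; abel
      simpa using this
    rw [if_neg e2] at hz
    omega
  have hBn : B ≠ [] := by
    rintro rfl
    rw [hA _ _ hvy.symm, fl_eq_zero_of_level kA y (by simp [sgn_ne]), fl_nil,
      fl_eq_zero_of_level kC y (by simp [disp_of_not_mem kA, sgn_ne])] at hneg
    omega
  have hBr : Rd B := by
    have e : A ++ bar v :: (B ++ v :: C) = (A ++ [bar v]) ++ (B ++ v :: C) := by simp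
    rw [e] at h3
    exact rd_append_left (rd_append_right h3)
  have hBl := four_le hBr hB hBn
  simp only [List.length_append, List.length_cons] at hl
  have hA0 : A = [] := List.eq_nil_of_length_eq_zero (by omega)
  have hC0 : C = [] := List.eq_nil_of_length_eq_zero (by omega)
  subst hA0; subst hC0
  obtain ⟨y', z', hyz', rfl⟩ := closed4 hBr hB (by omega)
  have rel : ∀ q a, a.1 ≠ v.1 → q v.1 = 0 →
      fl [y, z, bar y, bar z] q a + fl [y', z', bar y', bar z'] q a = 0 := by
    intro q a ha hq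
    have := hf q a
    rw [hA _ _ ha] at this
    simp only [fl_nil, disp_nil, step_bar, sub_zero, zero_add, add_zero] at this
    rwa [sub_neg_eq_add, sub_add_cancel] at this
  have ny' : y'.1 ≠ v.1 := fun e => (not_mem_idx_cons kB).1 e.symm
  have nz' : z'.1 ≠ v.1 := fun e => (not_mem_idx_cons (not_mem_idx_cons kB).2).1 e.symm
  have q1 := rel 0 y' ny' rfl
  rw [fl_sq_first hyz'] at q1
  have hy' : y' = z := by
    rcases fl_sq_neg (show fl [y, z, bar y, bar z] 0 y' < 0 by omega) with
      ⟨e1, e2⟩ | ⟨e1, e2⟩ | ⟨e1, e2⟩ | ⟨e1, e2⟩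
    · exact absurd e1.symm (step_ne_zero y)
    · exact absurd e1.symm (step_add_ne_zero hyz)
    · exact absurd e1.symm (step_ne_zero z)
    · exact e2
  subst hy'
  have q2 := rel (step y') z' nz' (step_of_ne hvz)
  rw [fl_sq_second hyz'] at q2
  have hz' : z' = y := by
    rcases fl_sq_neg (show fl [y, y', bar y, bar y'] (step y') z' < 0 by omega) with
      ⟨e1, e2⟩ | ⟨e1, e2⟩ | ⟨e1, e2⟩ | ⟨e1, e2⟩
    · exact absurd (congrArg Prod.fst (step_inj e1)).symm hyz
    · exact absurd e1.symm (by rw [add_eq_right]; exact step_ne_zero y)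
    · exact e2
    · exact absurd e1 (step_ne_zero y')
  subst hz'
  simp

lemma cnt_form (g : Lt r) (V1 V2 V3 : Wd r) (k : Fin r) :
    cnt k (g :: (V1 ++ bar g :: (V2 ++ g :: (V3 ++ bar g :: rv V2))))
      = 4 * (if g.1 = k then 1 else 0) + cnt k V1 + 2 * cnt k V2 + cnt k V3 := by
  simp only [cnt_cons, cnt_append, bar_fst, cnt_rv]
  by_cases h1 : g.1 = k
  · simp only [h1, if_true]; omega
  · simp only [h1, if_false]; omega

lemma case46 {g v0 : Lt r} {V1 V3 : Wd r} (k1 : g.1 ∉ idx V1) (k2 : g.1 ≠ v0.1)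
    (hcnt : ∀ k ∈ idx (g :: (V1 ++ bar g :: ([v0] ++ g :: (V3 ++ bar g :: [bar v0])))),
      cnt k (g :: (V1 ++ bar g :: ([v0] ++ g :: (V3 ++ bar g :: [bar v0])))) = 4)
    (r1 : Rd V1) (r3 : Rd V3) (d1 : disp V1 = 0) (d3 : disp V3 = 0)
    (l1 : V1.length = 4) (l3 : V3.length = 6)
    (hf : ∀ p a, fl V1 p a + fl V3 (p - step v0) a = 0) :
    ∃ y z : Lt r, g.1 ≠ y.1 ∧ g.1 ≠ z.1 ∧ g.1 ≠ v0.1 ∧ y.1 ≠ z.1 ∧ y.1 ≠ v0.1 ∧ z.1 ≠ v0.1 ∧
      g :: (V1 ++ bar g :: ([v0] ++ g :: (V3 ++ bar g :: [bar v0]))) = R8 g y z v0 := by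
  obtain ⟨y, z, hyz, rfl⟩ := closed4 r1 d1 l1
  have hgy : g.1 ≠ y.1 := (not_mem_idx_cons k1).1
  have hgz : g.1 ≠ z.1 := (not_mem_idx_cons (not_mem_idx_cons k1).2).1
  have cn : ∀ k, cnt k (g :: ([y, z, bar y, bar z] ++ bar g :: ([v0] ++ g :: (V3 ++ bar g :: [bar v0]))))
      = 4 * (if g.1 = k then 1 else 0) + cnt k [y, z, bar y, bar z] + 2 * cnt k [v0]
        + cnt k V3 := fun k => cnt_form g _ [v0] V3 k
  have cv : ∀ k, cnt k [v0] = if v0.1 = k then 1 else 0 := by
    intro k; rw [cnt_cons, cnt_nil, zero_add]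
  have yin : y.1 ∈ idx V3 := by
    have h := hf 0 y
    rw [fl_sq_first hyz] at h
    exact idx_of_fl_ne (p := 0 - step v0) (a := y) (by omega)
  have zin : z.1 ∈ idx V3 := by
    have h := hf (step y) z
    rw [fl_sq_second hyz] at h
    exact idx_of_fl_ne (p := step y - step v0) (a := z) (by omega)
  have y2 := two_le_cnt d3 yin
  have z2 := two_le_cnt d3 zin
  have hvy : v0.1 ≠ y.1 := by
    intro e
    have h := hcnt y.1 (by simp)
    rw [cn, if_neg hgy, cnt_sq_left hyz, cv, if_pos e] at h
    omega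
  have hvz : v0.1 ≠ z.1 := by
    intro e
    have h := hcnt z.1 (by simp)
    rw [cn, if_neg hgz, cnt_sq_right hyz, cv, if_pos e] at h
    omega
  have hv : cnt v0.1 V3 = 2 := by
    have h := hcnt v0.1 (by simp)
    have h0 : cnt v0.1 [y, z, bar y, bar z] = 0 := by
      rw [cnt_eq_zero]
      simp [hvy.symm, hvz.symm]
    rw [cn, if_neg k2, h0, cv, if_pos rfl] at h
    omega
  have h3 := six_closed hyz hvy hvz r3 l3 hv d3 hf
  subst h3
  exact ⟨y, z, hgy, hgz, k2, hyz, hvy.symm, hvz.symm, by simp [R8]⟩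

theorem class16 {c : Wd r} (hc : CR c) (hz : fl c = 0) (hl : c.length = 16)
    (hk : ∀ k ∈ idx c, cnt k c = 4) :
    ∃ u v, c = u ++ v ∧ ∃ x y z w : Lt r, x.1 ≠ y.1 ∧ x.1 ≠ z.1 ∧ x.1 ≠ w.1 ∧ y.1 ≠ z.1 ∧
      y.1 ≠ w.1 ∧ z.1 ≠ w.1 ∧ v ++ u = R8 x y z w := by
  obtain ⟨a0, ha0⟩ : ∃ a0, a0 ∈ c := by
    cases c with
    | nil => simp at hl
    | cons a c => exact ⟨a, by simp⟩
  obtain ⟨u, v, h1, g, V1, V2, V3, hg, k1, k2, k3, h2, d1, d3, n1, n2, n3, hf⟩ :=
    four_struct hc hz (hk a0.1 (by rw [mem_idx]; exact ⟨a0, ha0, rfl⟩))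
      (fun v hv hz' hl' => zero_short hv hz' (by omega))
  have hrot : Rd (v ++ u) := by rw [h1] at hc; exact hc.rot.rd
  have hcnt : ∀ k ∈ idx (v ++ u), cnt k (v ++ u) = 4 := by
    intro k hk'
    have e1 : idx (v ++ u) = idx c := by rw [h1, idx_append, idx_append, Finset.union_comm]
    have e2 : cnt k (v ++ u) = cnt k c := by rw [h1, cnt_append, cnt_append, add_comm]
    rw [e2]; exact hk k (e1 ▸ hk')
  rw [h2] at hrot hcnt
  obtain ⟨r1, r2, r3⟩ := struct_rd hrot
  have l1 := four_le r1 d1 n1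
  have l3 := four_le r3 d3 n3
  have l2 := List.length_pos_iff.2 n2
  have p1 := even_of_closed d1
  have p3 := even_of_closed d3
  have hlen : (v ++ u).length = 16 := by rw [← hl, h1]; simp [add_comm]
  rw [h2] at hlen
  simp at hlen
  have hcases : (V1.length = 4 ∧ V3.length = 4 ∧ V2.length = 2) ∨
      (V1.length = 4 ∧ V3.length = 6 ∧ V2.length = 1) ∨
      (V1.length = 6 ∧ V3.length = 4 ∧ V2.length = 1) := by omega
  rcases hcases with ⟨a1, a3, a2⟩ | ⟨a1, a3, a2⟩ | ⟨a1, a3, a2⟩
  · exfalso
    obtain ⟨y, z, hyz, rfl⟩ := closed4 r1 d1 a1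
    obtain ⟨y', z', hyz', rfl⟩ := closed4 r3 d3 a3
    have hpar := sum_disp_parity V2
    rw [a2] at hpar
    have h := hf (disp V2) y'
    rw [sub_self, fl_sq_first hyz'] at h
    have one : ∀ a : Lt r, (∑ k, step a k) % 2 = 1 := by
      intro a
      have : ∑ k, step a k = sgn a := by simp [step_apply]
      rw [this]
      rcases sgn_eq a with h | h <;> rw [h] <;> rfl
    have hd2 : disp V2 = step y + step z := by
      rcases fl_sq_neg (show fl [y, z, bar y, bar z] (disp V2) y' < 0 by omega) with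
        ⟨e1, e2⟩ | ⟨e1, e2⟩ | ⟨e1, e2⟩ | ⟨e1, e2⟩
      · rw [e1, one] at hpar; simp at hpar
      · exact e1
      · rw [e1, one] at hpar; simp at hpar
      · have := four_le r2 e1 n2
        omega
    have yin2 : y.1 ∈ idx V2 := by
      by_contra hn
      have := disp_of_not_mem hn
      rw [hd2, Pi.add_apply, step_self, step_of_ne hyz, add_zero] at this
      exact sgn_ne y this
    have yin : y.1 ∈ idx [y', z', bar y', bar z'] := by
      have h := hf 0 y
      rw [fl_sq_first hyz] at h
      exact idx_of_fl_ne (p := 0 - disp V2) (a := y) (by omega)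
    have y2 := two_le_cnt d3 yin
    have y3 := cnt_pos.2 yin2
    have hgy : g.1 ≠ y.1 := by rw [hg]; exact (not_mem_idx_cons k1).1
    have h := hcnt y.1 (by simp)
    rw [cnt_form, cnt_sq_left hyz, if_neg hgy] at h
    omega
  · obtain ⟨v0, rfl⟩ := List.length_eq_one_iff.1 a2
    have e0 : rv [v0] = [bar v0] := rfl
    rw [e0] at h2 hcnt
    obtain ⟨y, z, q1, q2, q3, q4, q5, q6, q7⟩ := case46 (g := g) (v0 := v0) (by rw [hg]; exact k1)
      (by rw [hg]; exact (not_mem_idx_cons k2).1) hcnt r1 r3 d1 d3 a1 a3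
      (fun p a => by have := hf p a; simpa using this)
    exact ⟨u, v, h1, g, y, z, v0, q1, q2, q3, q4, q5, q6, by rw [h2, q7]⟩
  · obtain ⟨v0, rfl⟩ := List.length_eq_one_iff.1 a2
    have e0 : rv [v0] = [bar v0] := rfl
    rw [e0] at h2 hcnt
    have e1 : g :: (V1 ++ bar g :: ([v0] ++ g :: (V3 ++ bar g :: [bar v0])))
        = (g :: (V1 ++ bar g :: [v0])) ++ (g :: (V3 ++ bar g :: [bar v0])) := by simp
    have e2 : (g :: (V3 ++ bar g :: [bar v0])) ++ (g :: (V1 ++ bar g :: [v0]))
        = g :: (V3 ++ bar g :: ([bar v0] ++ g :: (V1 ++ bar g :: [bar (bar v0)]))) := by simp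
    have hcnt' : ∀ k ∈ idx (g :: (V3 ++ bar g :: ([bar v0] ++ g :: (V1 ++ bar g :: [bar (bar v0)])))),
        cnt k (g :: (V3 ++ bar g :: ([bar v0] ++ g :: (V1 ++ bar g :: [bar (bar v0)])))) = 4 := by
      intro k hk'
      rw [← e2] at hk' ⊢
      rw [cnt_append, add_comm, ← cnt_append, ← e1]
      apply hcnt
      rw [e1, idx_append, Finset.union_comm, ← idx_append]
      exact hk'
    obtain ⟨y, z, q1, q2, q3, q4, q5, q6, q7⟩ := case46 (g := g) (v0 := bar v0)
      (by rw [hg]; exact k3) (by rw [hg]; exact (not_mem_idx_cons k2).1) hcnt' r3 r1 d3 d1 a3 a1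
      (fun p a => by
        have := hf (p + step v0) a
        rw [step_bar, sub_neg_eq_add]
        have e : p + step v0 - disp [v0] = p := by simp
        rw [e] at this
        linarith)
    obtain ⟨u', v', s1, s2⟩ : ∃ u' v', c = u' ++ v' ∧
        v' ++ u' = (g :: (V3 ++ bar g :: [bar v0])) ++ (g :: (V1 ++ bar g :: [v0])) := by
      have hrot' : c.rotate u.length = v ++ u := by rw [h1]; simp
      rw [h2, e1] at hrot'
      have : c.rotate (u.length + (g :: (V1 ++ bar g :: [v0])).length)
          = (g :: (V3 ++ bar g :: [bar v0])) ++ (g :: (V1 ++ bar g :: [v0])) := by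
        rw [← List.rotate_rotate, hrot', List.rotate_append_length_eq]
      have h10 : c.rotate ((u.length + (g :: (V1 ++ bar g :: [v0])).length) % c.length)
          = (g :: (V3 ++ bar g :: [bar v0])) ++ (g :: (V1 ++ bar g :: [v0])) := by
        rw [List.rotate_mod]; exact this
      have hwl : 0 < c.length := by omega
      rw [List.rotate_eq_drop_append_take (Nat.mod_lt _ hwl).le] at h10
      exact ⟨_, _, (List.take_append_drop _ c).symm, h10⟩
    exact ⟨u', v', s1, g, y, z, bar v0, q1, q2, q3, q4, q5, q6, by rw [s2, e2, q7]⟩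

end Pool.Agent.Helper62.FM
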