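import Pool.Agent.Helper62.FM.Classify

/-!
The minimal coincidences between words with few repeats.
-/

namespace Pool.Agent.Helper62.FM

open Finset

variable {r : ℕ}

lemma split_rv {u w A B : Wd r} (h : rv u ++ w = A ++ B) (hu : u.length = A.length) :
    u = rv A ∧ w = B := by
  obtain ⟨h1, h2⟩ := List.append_inj h (by rw [length_rv, hu])
  exact ⟨by rw [← h1, rv_rv], h2⟩

theorem coin7a {u w : Wd r} {x y z : Lt r} (hxy : x.1 ≠ y.1) (hxz : x.1 ≠ z.1) (hyz : y.1 ≠ z.1)
    (hu : u.length = 7) {j : ℕ} (hj : j < 14) (hc : rv u ++ w = (R7a x y z).rotate j) :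
    FP u w ∨ FP w u := by
  interval_cases j
  · obtain ⟨e1, e2⟩ := split_rv (A := [x, y, z, bar y, bar z, bar x, y])
      (B := [x, bar y, z, y, bar z, bar x, bar y]) hc hu
    have e3 : u = [bar y, x, z, y, bar z, bar y, bar x] := by rw [e1]; simp [rv]
    subst e2; subst e3
    rcases lt_or_gt_of_ne (Ne.symm hxy) with h | h
    · right; simpa using FP.p6 x (bar y) z hxy hxz hyz h
    · left; simpa using FP.p7 (bar y) x z (Ne.symm hxy) hyz hxz h
  · obtain ⟨e1, e2⟩ := split_rv (A := [y, z, bar y, bar z, bar x, y, x])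
      (B := [bar y, z, y, bar z, bar x, bar y, x]) hc hu
    have e3 : u = [bar x, bar y, x, z, y, bar z, bar y] := by rw [e1]; simp [rv]
    subst e2; subst e3
    rcases lt_or_gt_of_ne hxy with h | h
    · right; simpa using FP.p1 (bar y) z (bar x) hyz (Ne.symm hxy) (Ne.symm hxz) h
    · left; simpa using FP.p2 (bar x) (bar y) z hxy hxz hyz h
  · obtain ⟨e1, e2⟩ := split_rv (A := [z, bar y, bar z, bar x, y, x, bar y])
      (B := [z, y, bar z, bar x, bar y, x, y]) hc hu
    have e3 : u = [y, bar x, bar y, x, z, y, bar z] := by rw [e1]; simp [rv]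
    subst e2; subst e3
    rcases lt_or_gt_of_ne hyz with h | h
    · right; simpa using FP.p2 z y (bar x) (Ne.symm hyz) (Ne.symm hxz) (Ne.symm hxy) h
    · left; simpa using FP.p1 y (bar x) z (Ne.symm hxy) hyz hxz h
  · obtain ⟨e1, e2⟩ := split_rv (A := [bar y, bar z, bar x, y, x, bar y, z])
      (B := [y, bar z, bar x, bar y, x, y, z]) hc hu
    have e3 : u = [bar z, y, bar x, bar y, x, z, y] := by rw [e1]; simp [rv]
    subst e2; subst e3
    rcases lt_or_gt_of_ne (Ne.symm hyz) with h | h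
    · right; simpa using FP.p7 y (bar z) (bar x) hyz (Ne.symm hxy) (Ne.symm hxz) h
    · left; simpa using FP.p6 (bar z) y (bar x) (Ne.symm hyz) (Ne.symm hxz) (Ne.symm hxy) h
  · obtain ⟨e1, e2⟩ := split_rv (A := [bar z, bar x, y, x, bar y, z, y])
      (B := [bar z, bar x, bar y, x, y, z, bar y]) hc hu
    have e3 : u = [bar y, bar z, y, bar x, bar y, x, z] := by rw [e1]; simp [rv]
    subst e2; subst e3
    rcases lt_or_gt_of_ne hyz with h | h
    · right; simpa using FP.p5 (bar z) (bar x) (bar y) (Ne.symm hxz) (Ne.symm hyz) hxy h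
    · left; simpa using FP.p4 (bar y) (bar z) (bar x) hyz (Ne.symm hxy) (Ne.symm hxz) h
  · obtain ⟨e1, e2⟩ := split_rv (A := [bar x, y, x, bar y, z, y, bar z])
      (B := [bar x, bar y, x, y, z, bar y, bar z]) hc hu
    have e3 : u = [z, bar y, bar z, y, bar x, bar y, x] := by rw [e1]; simp [rv]
    subst e2; subst e3
    rcases lt_or_gt_of_ne (Ne.symm hxz) with h | h
    · right; simpa using FP.p3 (bar x) (bar y) z hxy hxz hyz h
    · left; simpa using FP.p3 z (bar y) (bar x) (Ne.symm hyz) (Ne.symm hxz) (Ne.symm hxy) h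
  · obtain ⟨e1, e2⟩ := split_rv (A := [y, x, bar y, z, y, bar z, bar x])
      (B := [bar y, x, y, z, bar y, bar z, bar x]) hc hu
    have e3 : u = [x, z, bar y, bar z, y, bar x, bar y] := by rw [e1]; simp [rv]
    subst e2; subst e3
    rcases lt_or_gt_of_ne hxy with h | h
    · right; simpa using FP.p4 (bar y) x z (Ne.symm hxy) hyz hxz h
    · left; simpa using FP.p5 x z (bar y) hxz hxy (Ne.symm hyz) h
  · obtain ⟨e1, e2⟩ := split_rv (A := [x, bar y, z, y, bar z, bar x, bar y])
      (B := [x, y, z, bar y, bar z, bar x, y]) hc hu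
    have e3 : u = [y, x, z, bar y, bar z, y, bar x] := by rw [e1]; simp [rv]
    subst e2; subst e3
    rcases lt_or_gt_of_ne (Ne.symm hxy) with h | h
    · right; simpa using FP.p6 x y z hxy hxz hyz h
    · left; simpa using FP.p7 y x z (Ne.symm hxy) hyz hxz h
  · obtain ⟨e1, e2⟩ := split_rv (A := [bar y, z, y, bar z, bar x, bar y, x])
      (B := [y, z, bar y, bar z, bar x, y, x]) hc hu
    have e3 : u = [bar x, y, x, z, bar y, bar z, y] := by rw [e1]; simp [rv]
    subst e2; subst e3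
    rcases lt_or_gt_of_ne hxy with h | h
    · right; simpa using FP.p1 y z (bar x) hyz (Ne.symm hxy) (Ne.symm hxz) h
    · left; simpa using FP.p2 (bar x) y z hxy hxz hyz h
  · obtain ⟨e1, e2⟩ := split_rv (A := [z, y, bar z, bar x, bar y, x, y])
      (B := [z, bar y, bar z, bar x, y, x, bar y]) hc hu
    have e3 : u = [bar y, bar x, y, x, z, bar y, bar z] := by rw [e1]; simp [rv]
    subst e2; subst e3
    rcases lt_or_gt_of_ne hyz with h | h
    · right; simpa using FP.p2 z (bar y) (bar x) (Ne.symm hyz) (Ne.symm hxz) (Ne.symm hxy) h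
    · left; simpa using FP.p1 (bar y) (bar x) z (Ne.symm hxy) hyz hxz h
  · obtain ⟨e1, e2⟩ := split_rv (A := [y, bar z, bar x, bar y, x, y, z])
      (B := [bar y, bar z, bar x, y, x, bar y, z]) hc hu
    have e3 : u = [bar z, bar y, bar x, y, x, z, bar y] := by rw [e1]; simp [rv]
    subst e2; subst e3
    rcases lt_or_gt_of_ne (Ne.symm hyz) with h | h
    · right; simpa using FP.p7 (bar y) (bar z) (bar x) hyz (Ne.symm hxy) (Ne.symm hxz) h
    · left; simpa using FP.p6 (bar z) (bar y) (bar x) (Ne.symm hyz) (Ne.symm hxz) (Ne.symm hxy) h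
  · obtain ⟨e1, e2⟩ := split_rv (A := [bar z, bar x, bar y, x, y, z, bar y])
      (B := [bar z, bar x, y, x, bar y, z, y]) hc hu
    have e3 : u = [y, bar z, bar y, bar x, y, x, z] := by rw [e1]; simp [rv]
    subst e2; subst e3
    rcases lt_or_gt_of_ne hyz with h | h
    · right; simpa using FP.p5 (bar z) (bar x) y (Ne.symm hxz) (Ne.symm hyz) hxy h
    · left; simpa using FP.p4 y (bar z) (bar x) hyz (Ne.symm hxy) (Ne.symm hxz) h
  · obtain ⟨e1, e2⟩ := split_rv (A := [bar x, bar y, x, y, z, bar y, bar z])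
      (B := [bar x, y, x, bar y, z, y, bar z]) hc hu
    have e3 : u = [z, y, bar z, bar y, bar x, y, x] := by rw [e1]; simp [rv]
    subst e2; subst e3
    rcases lt_or_gt_of_ne (Ne.symm hxz) with h | h
    · right; simpa using FP.p3 (bar x) y z hxy hxz hyz h
    · left; simpa using FP.p3 z y (bar x) (Ne.symm hyz) (Ne.symm hxz) (Ne.symm hxy) h
  · obtain ⟨e1, e2⟩ := split_rv (A := [bar y, x, y, z, bar y, bar z, bar x])
      (B := [y, x, bar y, z, y, bar z, bar x]) hc hu
    have e3 : u = [x, z, y, bar z, bar y, bar x, y] := by rw [e1]; simp [rv]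
    subst e2; subst e3
    rcases lt_or_gt_of_ne hxy with h | h
    · right; simpa using FP.p4 y x z (Ne.symm hxy) hyz hxz h
    · left; simpa using FP.p5 x z y hxz hxy (Ne.symm hyz) h

theorem coin7b {u w : Wd r} {x y z : Lt r} (hxy : x.1 ≠ y.1) (hxz : x.1 ≠ z.1) (hyz : y.1 ≠ z.1)
    (hu : u.length = 7) {j : ℕ} (hj : j < 14) (hc : rv u ++ w = (R7b x y z).rotate j) :
    FP u w ∨ FP w u := by
  interval_cases j
  · obtain ⟨e1, e2⟩ := split_rv (A := [x, y, z, bar y, bar z, bar x, z])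
      (B := [x, y, bar z, bar y, z, bar x, bar z]) hc hu
    have e3 : u = [bar z, x, z, y, bar z, bar y, bar x] := by rw [e1]; simp [rv]
    subst e2; subst e3
    rcases lt_or_gt_of_ne (Ne.symm hxz) with h | h
    · right; simpa using FP.p5 x y (bar z) hxy hxz hyz h
    · left; simpa using FP.p4 (bar z) x y (Ne.symm hxz) (Ne.symm hyz) hxy h
  · obtain ⟨e1, e2⟩ := split_rv (A := [y, z, bar y, bar z, bar x, z, x])
      (B := [y, bar z, bar y, z, bar x, bar z, x]) hc hu
    have e3 : u = [bar x, bar z, x, z, y, bar z, bar y] := by rw [e1]; simp [rv]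
    subst e2; subst e3
    rcases lt_or_gt_of_ne hxy with h | h
    · right; simpa using FP.p3 y (bar z) (bar x) hyz (Ne.symm hxy) (Ne.symm hxz) h
    · left; simpa using FP.p3 (bar x) (bar z) y hxz hxy (Ne.symm hyz) h
  · obtain ⟨e1, e2⟩ := split_rv (A := [z, bar y, bar z, bar x, z, x, y])
      (B := [bar z, bar y, z, bar x, bar z, x, y]) hc hu
    have e3 : u = [bar y, bar x, bar z, x, z, y, bar z] := by rw [e1]; simp [rv]
    subst e2; subst e3
    rcases lt_or_gt_of_ne hyz with h | h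
    · right; simpa using FP.p4 (bar z) (bar y) (bar x) (Ne.symm hyz) (Ne.symm hxz) (Ne.symm hxy) h
    · left; simpa using FP.p5 (bar y) (bar x) (bar z) (Ne.symm hxy) hyz hxz h
  · obtain ⟨e1, e2⟩ := split_rv (A := [bar y, bar z, bar x, z, x, y, bar z])
      (B := [bar y, z, bar x, bar z, x, y, z]) hc hu
    have e3 : u = [z, bar y, bar x, bar z, x, z, y] := by rw [e1]; simp [rv]
    subst e2; subst e3
    rcases lt_or_gt_of_ne (Ne.symm hyz) with h | h
    · right; simpa using FP.p6 (bar y) z (bar x) hyz (Ne.symm hxy) (Ne.symm hxz) h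
    · left; simpa using FP.p7 z (bar y) (bar x) (Ne.symm hyz) (Ne.symm hxz) (Ne.symm hxy) h
  · obtain ⟨e1, e2⟩ := split_rv (A := [bar z, bar x, z, x, y, bar z, bar y])
      (B := [z, bar x, bar z, x, y, z, bar y]) hc hu
    have e3 : u = [y, z, bar y, bar x, bar z, x, z] := by rw [e1]; simp [rv]
    subst e2; subst e3
    rcases lt_or_gt_of_ne hyz with h | h
    · right; simpa using FP.p1 z (bar x) y (Ne.symm hxz) (Ne.symm hyz) hxy h
    · left; simpa using FP.p2 y z (bar x) hyz (Ne.symm hxy) (Ne.symm hxz) h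
  · obtain ⟨e1, e2⟩ := split_rv (A := [bar x, z, x, y, bar z, bar y, z])
      (B := [bar x, bar z, x, y, z, bar y, bar z]) hc hu
    have e3 : u = [bar z, y, z, bar y, bar x, bar z, x] := by rw [e1]; simp [rv]
    subst e2; subst e3
    rcases lt_or_gt_of_ne (Ne.symm hxz) with h | h
    · right; simpa using FP.p2 (bar x) (bar z) y hxz hxy (Ne.symm hyz) h
    · left; simpa using FP.p1 (bar z) y (bar x) (Ne.symm hyz) (Ne.symm hxz) (Ne.symm hxy) h
  · obtain ⟨e1, e2⟩ := split_rv (A := [z, x, y, bar z, bar y, z, bar x])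
      (B := [bar z, x, y, z, bar y, bar z, bar x]) hc hu
    have e3 : u = [x, bar z, y, z, bar y, bar x, bar z] := by rw [e1]; simp [rv]
    subst e2; subst e3
    rcases lt_or_gt_of_ne hxz with h | h
    · right; simpa using FP.p7 (bar z) x y (Ne.symm hxz) (Ne.symm hyz) hxy h
    · left; simpa using FP.p6 x (bar z) y hxz hxy (Ne.symm hyz) h
  · obtain ⟨e1, e2⟩ := split_rv (A := [x, y, bar z, bar y, z, bar x, bar z])
      (B := [x, y, z, bar y, bar z, bar x, z]) hc hu
    have e3 : u = [z, x, bar z, y, z, bar y, bar x] := by rw [e1]; simp [rv]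
    subst e2; subst e3
    rcases lt_or_gt_of_ne (Ne.symm hxz) with h | h
    · right; simpa using FP.p5 x y z hxy hxz hyz h
    · left; simpa using FP.p4 z x y (Ne.symm hxz) (Ne.symm hyz) hxy h
  · obtain ⟨e1, e2⟩ := split_rv (A := [y, bar z, bar y, z, bar x, bar z, x])
      (B := [y, z, bar y, bar z, bar x, z, x]) hc hu
    have e3 : u = [bar x, z, x, bar z, y, z, bar y] := by rw [e1]; simp [rv]
    subst e2; subst e3
    rcases lt_or_gt_of_ne hxy with h | h
    · right; simpa using FP.p3 y z (bar x) hyz (Ne.symm hxy) (Ne.symm hxz) h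
    · left; simpa using FP.p3 (bar x) z y hxz hxy (Ne.symm hyz) h
  · obtain ⟨e1, e2⟩ := split_rv (A := [bar z, bar y, z, bar x, bar z, x, y])
      (B := [z, bar y, bar z, bar x, z, x, y]) hc hu
    have e3 : u = [bar y, bar x, z, x, bar z, y, z] := by rw [e1]; simp [rv]
    subst e2; subst e3
    rcases lt_or_gt_of_ne hyz with h | h
    · right; simpa using FP.p4 z (bar y) (bar x) (Ne.symm hyz) (Ne.symm hxz) (Ne.symm hxy) h
    · left; simpa using FP.p5 (bar y) (bar x) z (Ne.symm hxy) hyz hxz h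
  · obtain ⟨e1, e2⟩ := split_rv (A := [bar y, z, bar x, bar z, x, y, z])
      (B := [bar y, bar z, bar x, z, x, y, bar z]) hc hu
    have e3 : u = [bar z, bar y, bar x, z, x, bar z, y] := by rw [e1]; simp [rv]
    subst e2; subst e3
    rcases lt_or_gt_of_ne (Ne.symm hyz) with h | h
    · right; simpa using FP.p6 (bar y) (bar z) (bar x) hyz (Ne.symm hxy) (Ne.symm hxz) h
    · left; simpa using FP.p7 (bar z) (bar y) (bar x) (Ne.symm hyz) (Ne.symm hxz) (Ne.symm hxy) h
  · obtain ⟨e1, e2⟩ := split_rv (A := [z, bar x, bar z, x, y, z, bar y])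
      (B := [bar z, bar x, z, x, y, bar z, bar y]) hc hu
    have e3 : u = [y, bar z, bar y, bar x, z, x, bar z] := by rw [e1]; simp [rv]
    subst e2; subst e3
    rcases lt_or_gt_of_ne hyz with h | h
    · right; simpa using FP.p1 (bar z) (bar x) y (Ne.symm hxz) (Ne.symm hyz) hxy h
    · left; simpa using FP.p2 y (bar z) (bar x) hyz (Ne.symm hxy) (Ne.symm hxz) h
  · obtain ⟨e1, e2⟩ := split_rv (A := [bar x, bar z, x, y, z, bar y, bar z])
      (B := [bar x, z, x, y, bar z, bar y, z]) hc hu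
    have e3 : u = [z, y, bar z, bar y, bar x, z, x] := by rw [e1]; simp [rv]
    subst e2; subst e3
    rcases lt_or_gt_of_ne (Ne.symm hxz) with h | h
    · right; simpa using FP.p2 (bar x) z y hxz hxy (Ne.symm hyz) h
    · left; simpa using FP.p1 z y (bar x) (Ne.symm hyz) (Ne.symm hxz) (Ne.symm hxy) h
  · obtain ⟨e1, e2⟩ := split_rv (A := [bar z, x, y, z, bar y, bar z, bar x])
      (B := [z, x, y, bar z, bar y, z, bar x]) hc hu
    have e3 : u = [x, z, y, bar z, bar y, bar x, z] := by rw [e1]; simp [rv]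
    subst e2; subst e3
    rcases lt_or_gt_of_ne hxz with h | h
    · right; simpa using FP.p7 z x y (Ne.symm hxz) (Ne.symm hyz) hxy h
    · left; simpa using FP.p6 x z y hxz hxy (Ne.symm hyz) h

theorem coin8 {u u2 : Wd r} {x y z w : Lt r} (hxy : x.1 ≠ y.1) (hxz : x.1 ≠ z.1) (hxw : x.1 ≠ w.1) (hyz : y.1 ≠ z.1) (hyw : y.1 ≠ w.1) (hzw : z.1 ≠ w.1)
    (hu : u.length = 8) {j : ℕ} (hj : j < 16) (hc : rv u ++ u2 = (R8 x y z w).rotate j) :
    FP u u2 ∨ FP u2 u := by
  interval_cases j
  · obtain ⟨e1, e2⟩ := split_rv (A := [x, y, z, bar y, bar z, bar x, w, x])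
      (B := [bar w, z, y, bar z, bar y, w, bar x, bar w]) hc hu
    have e3 : u = [bar x, bar w, x, z, y, bar z, bar y, bar x] := by rw [e1]; simp [rv]
    subst e2; subst e3
    rcases lt_or_gt_of_ne hxw with h | h
    · right; simpa using FP.q3 (bar w) z y (bar x) (Ne.symm hzw) (Ne.symm hyw) (Ne.symm hxw) (Ne.symm hyz) (Ne.symm hxz) (Ne.symm hxy) h
    · left; simpa using FP.q2 (bar x) (bar w) z y hxw hxz hxy (Ne.symm hzw) (Ne.symm hyw) (Ne.symm hyz) h
  · obtain ⟨e1, e2⟩ := split_rv (A := [y, z, bar y, bar z, bar x, w, x, bar w])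
      (B := [z, y, bar z, bar y, w, bar x, bar w, x]) hc hu
    have e3 : u = [w, bar x, bar w, x, z, y, bar z, bar y] := by rw [e1]; simp [rv]
    subst e2; subst e3
    rcases lt_or_gt_of_ne (Ne.symm hzw) with h | h
    · right; simpa using FP.q1 z y w (bar x) (Ne.symm hyz) hzw (Ne.symm hxz) hyw (Ne.symm hxy) (Ne.symm hxw) h
    · left; simpa using FP.q1 w (bar x) z y (Ne.symm hxw) (Ne.symm hzw) (Ne.symm hyw) hxz hxy (Ne.symm hyz) h
  · obtain ⟨e1, e2⟩ := split_rv (A := [z, bar y, bar z, bar x, w, x, bar w, z])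
      (B := [y, bar z, bar y, w, bar x, bar w, x, y]) hc hu
    have e3 : u = [bar z, w, bar x, bar w, x, z, y, bar z] := by rw [e1]; simp [rv]
    subst e2; subst e3
    rcases lt_or_gt_of_ne (Ne.symm hyz) with h | h
    · right; simpa using FP.q2 y (bar z) w (bar x) hyz hyw (Ne.symm hxy) hzw (Ne.symm hxz) (Ne.symm hxw) h
    · left; simpa using FP.q3 (bar z) w (bar x) y hzw (Ne.symm hxz) (Ne.symm hyz) (Ne.symm hxw) (Ne.symm hyw) hxy h
  · obtain ⟨e1, e2⟩ := split_rv (A := [bar y, bar z, bar x, w, x, bar w, z, y])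
      (B := [bar z, bar y, w, bar x, bar w, x, y, z]) hc hu
    have e3 : u = [bar y, bar z, w, bar x, bar w, x, z, y] := by rw [e1]; simp [rv]
    subst e2; subst e3
    rcases lt_or_gt_of_ne hyz with h | h
    · right; simpa using FP.q4 (bar z) (bar y) w (bar x) (Ne.symm hyz) hzw (Ne.symm hxz) hyw (Ne.symm hxy) (Ne.symm hxw) h
    · left; simpa using FP.q4 (bar y) (bar z) w (bar x) hyz hyw (Ne.symm hxy) hzw (Ne.symm hxz) (Ne.symm hxw) h
  · obtain ⟨e1, e2⟩ := split_rv (A := [bar z, bar x, w, x, bar w, z, y, bar z])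
      (B := [bar y, w, bar x, bar w, x, y, z, bar y]) hc hu
    have e3 : u = [z, bar y, bar z, w, bar x, bar w, x, z] := by rw [e1]; simp [rv]
    subst e2; subst e3
    rcases lt_or_gt_of_ne (Ne.symm hyz) with h | h
    · right; simpa using FP.q3 (bar y) w (bar x) z hyw (Ne.symm hxy) hyz (Ne.symm hxw) (Ne.symm hzw) hxz h
    · left; simpa using FP.q2 z (bar y) w (bar x) (Ne.symm hyz) hzw (Ne.symm hxz) hyw (Ne.symm hxy) (Ne.symm hxw) h
  · obtain ⟨e1, e2⟩ := split_rv (A := [bar x, w, x, bar w, z, y, bar z, bar y])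
      (B := [w, bar x, bar w, x, y, z, bar y, bar z]) hc hu
    have e3 : u = [y, z, bar y, bar z, w, bar x, bar w, x] := by rw [e1]; simp [rv]
    subst e2; subst e3
    rcases lt_or_gt_of_ne hyw with h | h
    · right; simpa using FP.q1 w (bar x) y z (Ne.symm hxw) (Ne.symm hyw) (Ne.symm hzw) hxy hxz hyz h
    · left; simpa using FP.q1 y z w (bar x) hyz hyw (Ne.symm hxy) hzw (Ne.symm hxz) (Ne.symm hxw) h
  · obtain ⟨e1, e2⟩ := split_rv (A := [w, x, bar w, z, y, bar z, bar y, w])
      (B := [bar x, bar w, x, y, z, bar y, bar z, bar x]) hc hu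
    have e3 : u = [bar w, y, z, bar y, bar z, w, bar x, bar w] := by rw [e1]; simp [rv]
    subst e2; subst e3
    rcases lt_or_gt_of_ne (Ne.symm hxw) with h | h
    · right; simpa using FP.q2 (bar x) (bar w) y z hxw hxy hxz (Ne.symm hyw) (Ne.symm hzw) hyz h
    · left; simpa using FP.q3 (bar w) y z (bar x) (Ne.symm hyw) (Ne.symm hzw) (Ne.symm hxw) hyz (Ne.symm hxy) (Ne.symm hxz) h
  · obtain ⟨e1, e2⟩ := split_rv (A := [x, bar w, z, y, bar z, bar y, w, bar x])
      (B := [bar w, x, y, z, bar y, bar z, bar x, w]) hc hu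
    have e3 : u = [x, bar w, y, z, bar y, bar z, w, bar x] := by rw [e1]; simp [rv]
    subst e2; subst e3
    rcases lt_or_gt_of_ne hxw with h | h
    · right; simpa using FP.q4 (bar w) x y z (Ne.symm hxw) (Ne.symm hyw) (Ne.symm hzw) hxy hxz hyz h
    · left; simpa using FP.q4 x (bar w) y z hxw hxy hxz (Ne.symm hyw) (Ne.symm hzw) hyz h
  · obtain ⟨e1, e2⟩ := split_rv (A := [bar w, z, y, bar z, bar y, w, bar x, bar w])
      (B := [x, y, z, bar y, bar z, bar x, w, x]) hc hu
    have e3 : u = [w, x, bar w, y, z, bar y, bar z, w] := by rw [e1]; simp [rv]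
    subst e2; subst e3
    rcases lt_or_gt_of_ne (Ne.symm hxw) with h | h
    · right; simpa using FP.q3 x y z w hxy hxz hxw hyz hyw hzw h
    · left; simpa using FP.q2 w x y z (Ne.symm hxw) (Ne.symm hyw) (Ne.symm hzw) hxy hxz hyz h
  · obtain ⟨e1, e2⟩ := split_rv (A := [z, y, bar z, bar y, w, bar x, bar w, x])
      (B := [y, z, bar y, bar z, bar x, w, x, bar w]) hc hu
    have e3 : u = [bar x, w, x, bar w, y, z, bar y, bar z] := by rw [e1]; simp [rv]
    subst e2; subst e3
    rcases lt_or_gt_of_ne hxy with h | h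
    · right; simpa using FP.q1 y z (bar x) w hyz (Ne.symm hxy) hyw (Ne.symm hxz) hzw hxw h
    · left; simpa using FP.q1 (bar x) w y z hxw hxy hxz (Ne.symm hyw) (Ne.symm hzw) hyz h
  · obtain ⟨e1, e2⟩ := split_rv (A := [y, bar z, bar y, w, bar x, bar w, x, y])
      (B := [z, bar y, bar z, bar x, w, x, bar w, z]) hc hu
    have e3 : u = [bar y, bar x, w, x, bar w, y, z, bar y] := by rw [e1]; simp [rv]
    subst e2; subst e3
    rcases lt_or_gt_of_ne hyz with h | h
    · right; simpa using FP.q2 z (bar y) (bar x) w (Ne.symm hyz) (Ne.symm hxz) hzw (Ne.symm hxy) hyw hxw h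
    · left; simpa using FP.q3 (bar y) (bar x) w z (Ne.symm hxy) hyw hyz hxw hxz (Ne.symm hzw) h
  · obtain ⟨e1, e2⟩ := split_rv (A := [bar z, bar y, w, bar x, bar w, x, y, z])
      (B := [bar y, bar z, bar x, w, x, bar w, z, y]) hc hu
    have e3 : u = [bar z, bar y, bar x, w, x, bar w, y, z] := by rw [e1]; simp [rv]
    subst e2; subst e3
    rcases lt_or_gt_of_ne (Ne.symm hyz) with h | h
    · right; simpa using FP.q4 (bar y) (bar z) (bar x) w hyz (Ne.symm hxy) hyw (Ne.symm hxz) hzw hxw h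
    · left; simpa using FP.q4 (bar z) (bar y) (bar x) w (Ne.symm hyz) (Ne.symm hxz) hzw (Ne.symm hxy) hyw hxw h
  · obtain ⟨e1, e2⟩ := split_rv (A := [bar y, w, bar x, bar w, x, y, z, bar y])
      (B := [bar z, bar x, w, x, bar w, z, y, bar z]) hc hu
    have e3 : u = [y, bar z, bar y, bar x, w, x, bar w, y] := by rw [e1]; simp [rv]
    subst e2; subst e3
    rcases lt_or_gt_of_ne hyz with h | h
    · right; simpa using FP.q3 (bar z) (bar x) w y (Ne.symm hxz) hzw (Ne.symm hyz) hxw hxy (Ne.symm hyw) h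
    · left; simpa using FP.q2 y (bar z) (bar x) w hyz (Ne.symm hxy) hyw (Ne.symm hxz) hzw hxw h
  · obtain ⟨e1, e2⟩ := split_rv (A := [w, bar x, bar w, x, y, z, bar y, bar z])
      (B := [bar x, w, x, bar w, z, y, bar z, bar y]) hc hu
    have e3 : u = [z, y, bar z, bar y, bar x, w, x, bar w] := by rw [e1]; simp [rv]
    subst e2; subst e3
    rcases lt_or_gt_of_ne (Ne.symm hxz) with h | h
    · right; simpa using FP.q1 (bar x) w z y hxw hxz hxy (Ne.symm hzw) (Ne.symm hyw) (Ne.symm hyz) h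
    · left; simpa using FP.q1 z y (bar x) w (Ne.symm hyz) (Ne.symm hxz) hzw (Ne.symm hxy) hyw hxw h
  · obtain ⟨e1, e2⟩ := split_rv (A := [bar x, bar w, x, y, z, bar y, bar z, bar x])
      (B := [w, x, bar w, z, y, bar z, bar y, w]) hc hu
    have e3 : u = [x, z, y, bar z, bar y, bar x, w, x] := by rw [e1]; simp [rv]
    subst e2; subst e3
    rcases lt_or_gt_of_ne hxw with h | h
    · right; simpa using FP.q2 w x z y (Ne.symm hxw) (Ne.symm hzw) (Ne.symm hyw) hxz hxy (Ne.symm hyz) h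
    · left; simpa using FP.q3 x z y w hxz hxy hxw (Ne.symm hyz) hzw hyw h
  · obtain ⟨e1, e2⟩ := split_rv (A := [bar w, x, y, z, bar y, bar z, bar x, w])
      (B := [x, bar w, z, y, bar z, bar y, w, bar x]) hc hu
    have e3 : u = [bar w, x, z, y, bar z, bar y, bar x, w] := by rw [e1]; simp [rv]
    subst e2; subst e3
    rcases lt_or_gt_of_ne (Ne.symm hxw) with h | h
    · right; simpa using FP.q4 x (bar w) z y hxw hxz hxy (Ne.symm hzw) (Ne.symm hyw) (Ne.symm hyz) h
    · left; simpa using FP.q4 (bar w) x z y (Ne.symm hxw) (Ne.symm hzw) (Ne.symm hyw) hxz hxy (Ne.symm hyz) h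

end Pool.Agent.Helper62.FM
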