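import Pool.Agent.Helper62.FM.Inject

/-!
Finite sets of words of given length and counting lemmas.
-/

namespace Pool.Agent.Helper62.FM

open Finset

variable {r : ℕ}

/-- The finite set of all words of length `n`. -/
def W (r : ℕ) : ℕ → Finset (Wd r)
  | 0 => {[]}
  | n + 1 => ((Finset.univ : Finset (Lt r)) ×ˢ W r n).image fun x => x.1 :: x.2

@[simp] lemma mem_W {n : ℕ} {w : Wd r} : w ∈ W r n ↔ w.length = n := by
  induction n generalizing w with
  | zero => simp [W, List.length_eq_zero_iff]
  | succ n ih =>
    rw [W, Finset.mem_image]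
    constructor
    · rintro ⟨⟨a, v⟩, h1, rfl⟩
      rw [Finset.mem_product] at h1
      rw [List.length_cons, ih.1 h1.2]
    · intro h
      cases w with
      | nil => simp at h
      | cons a v =>
        refine ⟨(a, v), ?_, rfl⟩
        rw [Finset.mem_product]
        exact ⟨Finset.mem_univ _, ih.2 (by simpa using h)⟩

lemma W_zero : W r 0 = {[]} := rfl

lemma card_letters : Fintype.card (Lt r) = 2 * r := by
  simp [Lt, mul_comm]

lemma card_W (n : ℕ) : (W r n).card = (2 * r) ^ n := by
  induction n with
  | zero => simp [W]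
  | succ n ih =>
    rw [W, Finset.card_image_of_injective, Finset.card_product, ih, Finset.card_univ, card_letters,
      pow_succ, mul_comm]
    rintro ⟨a, v⟩ ⟨b, w⟩ h
    simpa using h

/-- Splitting words of length `m + n`. -/
lemma sum_W_add (m n : ℕ) (g : Wd r → ℝ) :
    ∑ u ∈ W r (m + n), g u = ∑ v ∈ W r m, ∑ u ∈ W r n, g (v ++ u) := by
  rw [← Finset.sum_product']
  symm
  refine Finset.sum_bij' (fun (x : Wd r × Wd r) _ => x.1 ++ x.2) (fun u _ => (u.take m, u.drop m))
    ?_ ?_ ?_ ?_ ?_
  · intro x hx
    rw [Finset.mem_product, mem_W, mem_W] at hx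
    rw [mem_W, List.length_append, hx.1, hx.2]
  · intro u hu
    rw [mem_W] at hu
    rw [Finset.mem_product, mem_W, mem_W]
    simp [hu]
  · intro x hx
    rw [Finset.mem_product, mem_W, mem_W] at hx
    ext1
    · simp [hx.1]
    · simp [hx.1]
  · intro u hu
    simp
  · intro x hx; rfl

lemma sum_W_one (g : Wd r → ℝ) : ∑ u ∈ W r 1, g u = ∑ a, g [a] := by
  symm
  refine Finset.sum_bij (fun (a : Lt r) _ => [a]) ?_ ?_ ?_ ?_
  · intro a _; simp
  · intro a _ b _ h; simpa using h
  · intro u hu
    rw [mem_W, List.length_eq_one_iff] at hu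
    obtain ⟨a, rfl⟩ := hu
    exact ⟨a, Finset.mem_univ _, rfl⟩
  · intro a _; rfl

lemma sum_W_succ (n : ℕ) (g : Wd r → ℝ) :
    ∑ u ∈ W r (n + 1), g u = ∑ v ∈ W r n, ∑ a, g (v ++ [a]) := by
  rw [sum_W_add]
  exact Finset.sum_congr rfl fun v _ => sum_W_one _

lemma sum_W_succ' (n : ℕ) (g : Wd r → ℝ) :
    ∑ u ∈ W r (n + 1), g u = ∑ a, ∑ v ∈ W r n, g (a :: v) := by
  rw [add_comm, sum_W_add, sum_W_one]
  rfl

/-- Number of words of length `n` with a property. -/
noncomputable def num (r n : ℕ) (C : Wd r → Prop) : ℝ := by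
  classical exact ∑ w ∈ W r n, if C w then 1 else 0

open Classical in
lemma num_def (n : ℕ) (C : Wd r → Prop) : num r n C = ∑ w ∈ W r n, if C w then 1 else 0 := by
  unfold num
  apply Finset.sum_congr rfl
  intro w _
  congr

lemma num_def' (n : ℕ) (C : Wd r → Prop) [DecidablePred C] :
    num r n C = ∑ w ∈ W r n, if C w then 1 else 0 := by
  unfold num
  apply Finset.sum_congr rfl
  intro w _
  congr

lemma num_nonneg (n : ℕ) (C : Wd r → Prop) : 0 ≤ num r n C := by
  classical
  rw [num_def]
  exact Finset.sum_nonneg fun w _ => by split_ifs <;> norm_num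

lemma num_mono {n : ℕ} {C D : Wd r → Prop} (h : ∀ w, w.length = n → C w → D w) :
    num r n C ≤ num r n D := by
  classical
  rw [num_def, num_def]
  apply Finset.sum_le_sum
  intro w hw
  rw [mem_W] at hw
  by_cases c : C w
  · rw [if_pos c, if_pos (h w hw c)]
  · rw [if_neg c]; split_ifs <;> norm_num

lemma num_le (n : ℕ) (C : Wd r → Prop) : num r n C ≤ (2 * r) ^ n := by
  classical
  rw [num_def]
  calc ∑ w ∈ W r n, (if C w then (1:ℝ) else 0) ≤ ∑ _w ∈ W r n, (1:ℝ) :=
        Finset.sum_le_sum fun w _ => by split_ifs <;> norm_num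
    _ = (2 * r) ^ n := by rw [Finset.sum_const, card_W]; simp

lemma rep_cons (a : Lt r) (w : Wd r) : rep (a :: w) = rep w + if a.1 ∈ idx w then 1 else 0 := by
  unfold rep
  rw [idx_cons, List.length_cons]
  have h := card_idx_le w
  by_cases ha : a.1 ∈ idx w
  · rw [if_pos ha, Finset.insert_eq_of_mem ha]; omega
  · rw [if_neg ha, Finset.card_insert_of_notMem ha]; omega

/-- Number of words with many repeats. -/
lemma num_rep (n m : ℕ) :
    num r n (fun w => m ≤ rep w) * (2 * r) ^ m ≤ (2 * n + 1) ^ n * (2 * r) ^ n := by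
  classical
  induction n generalizing m with
  | zero =>
    rw [num_def, W_zero]
    simp only [Finset.sum_singleton, pow_zero, mul_one]
    have h0 : rep ([] : Wd r) = 0 := by simp [rep]
    rw [h0]
    by_cases hm : m = 0
    · subst hm; simp
    · rw [if_neg (by omega)]; simp
  | succ n ih =>
    cases m with
    | zero =>
      have h1 := num_le (r := r) (n + 1) (fun w => 0 ≤ rep w)
      have h2 : (1:ℝ) ≤ (2 * ((n + 1 : ℕ) : ℝ) + 1) ^ (n + 1) := one_le_pow₀ (by push_cast; linarith [n.cast_nonneg (α := ℝ)])
      have h3 : (0:ℝ) ≤ (2 * r) ^ (n + 1) := by positivity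
      rw [pow_zero, mul_one]
      nlinarith
    | succ m =>
      have key : num r (n + 1) (fun w => m + 1 ≤ rep w)
          ≤ 2 * n * num r n (fun w => m ≤ rep w) + 2 * r * num r n (fun w => m + 1 ≤ rep w) := by
        have e1 : num r (n + 1) (fun w => m + 1 ≤ rep w)
            = ∑ v ∈ W r n, ∑ a : Lt r, (if m + 1 ≤ rep (a :: v) then (1:ℝ) else 0) := by
          rw [num_def', sum_W_succ', Finset.sum_comm]
        rw [e1, num_def' n (fun w => m ≤ rep w), num_def' n (fun w => m + 1 ≤ rep w),
          Finset.mul_sum, Finset.mul_sum, ← Finset.sum_add_distrib]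
        apply Finset.sum_le_sum
        intro v hv
        rw [mem_W] at hv
        have h1 : ∀ a : Lt r, (if m + 1 ≤ rep (a :: v) then (1:ℝ) else 0)
            ≤ (if a.1 ∈ idx v then (if m ≤ rep v then 1 else 0) else 0)
              + (if m + 1 ≤ rep v then 1 else 0) := by
          intro a
          rw [rep_cons]
          by_cases ha : a.1 ∈ idx v
          · simp only [ha, if_true, add_le_add_iff_right]
            split_ifs <;> norm_num
          · simp only [ha, if_false, add_zero]
            split_ifs <;> norm_num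
        have h2 : ∑ a : Lt r, (if a.1 ∈ idx v then (if m ≤ rep v then (1:ℝ) else 0) else 0)
            ≤ 2 * n * (if m ≤ rep v then 1 else 0) := by
          rw [← Finset.sum_filter, Finset.sum_const, nsmul_eq_mul]
          apply mul_le_mul_of_nonneg_right
          · have : (Finset.univ.filter fun a : Lt r => a.1 ∈ idx v) = idx v ×ˢ (Finset.univ : Finset Bool) := by
              ext ⟨i, b⟩; simp
            rw [this, Finset.card_product]
            have := card_idx_le v
            rw [hv] at this
            simp only [Finset.card_univ, Fintype.card_bool]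
            push_cast
            have : ((idx v).card : ℝ) ≤ n := by exact_mod_cast this
            linarith
          · split_ifs <;> norm_num
        calc ∑ a : Lt r, (if m + 1 ≤ rep (a :: v) then (1:ℝ) else 0)
            ≤ ∑ a : Lt r, ((if a.1 ∈ idx v then (if m ≤ rep v then (1:ℝ) else 0) else 0)
              + (if m + 1 ≤ rep v then 1 else 0)) := Finset.sum_le_sum fun a _ => h1 a
          _ = ∑ a : Lt r, (if a.1 ∈ idx v then (if m ≤ rep v then (1:ℝ) else 0) else 0)
              + 2 * r * (if m + 1 ≤ rep v then 1 else 0) := by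
              rw [Finset.sum_add_distrib, Finset.sum_const, Finset.card_univ, card_letters,
                nsmul_eq_mul]
              push_cast; ring
          _ ≤ _ := by linarith
      have i1 := ih m
      have i2 := ih (m + 1)
      have p0 : (0:ℝ) ≤ 2 * r := by positivity
      have c1 : (0:ℝ) ≤ (2 * n + 1) ^ n := by positivity
      have p1 : (0:ℝ) ≤ (2 * r : ℝ) ^ (n + 1) := by positivity
      calc num r (n + 1) (fun w => m + 1 ≤ rep w) * (2 * r) ^ (m + 1)
          ≤ (2 * n * num r n (fun w => m ≤ rep w) + 2 * r * num r n (fun w => m + 1 ≤ rep w))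
            * (2 * r) ^ (m + 1) := mul_le_mul_of_nonneg_right key (by positivity)
        _ = 2 * n * (2 * r) * (num r n (fun w => m ≤ rep w) * (2 * r) ^ m)
            + 2 * r * (num r n (fun w => m + 1 ≤ rep w) * (2 * r) ^ (m + 1)) := by ring
        _ ≤ 2 * n * (2 * r) * ((2 * n + 1) ^ n * (2 * r) ^ n)
            + 2 * r * ((2 * n + 1) ^ n * (2 * r) ^ n) := by
            apply add_le_add
            · exact mul_le_mul_of_nonneg_left i1 (by positivity)
            · exact mul_le_mul_of_nonneg_left i2 p0
        _ = (2 * n + 1) ^ (n + 1) * (2 * r) ^ (n + 1) := by ring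
        _ ≤ (2 * ((n + 1 : ℕ) : ℝ) + 1) ^ (n + 1) * (2 * r) ^ (n + 1) := by
            apply mul_le_mul_of_nonneg_right _ p1
            apply pow_le_pow_left₀ (by positivity)
            push_cast; linarith

end Pool.Agent.Helper62.FM
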