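import Mathlib

/-!
Free metabelian groups: words, flows on the grid, and the passage to the quotient group.
-/

namespace Pool.Agent.Helper62.FM

open Finset

/-- The letters of rank `r`: a generator (`true`) or its inverse (`false`). -/
abbrev Lt (r : ℕ) := Fin r × Bool

/-- Words. -/
abbrev Wd (r : ℕ) := List (Lt r)

/-- Points of the grid `ℤ^r`. -/
abbrev Pt (r : ℕ) := Fin r → ℤ

variable {r : ℕ}

/-- The inverse letter. -/
def bar (a : Lt r) : Lt r := (a.1, !a.2)

/-- The sign of a letter. -/
def sgn (a : Lt r) : ℤ := if a.2 then 1 else -1

/-- The unit step of a letter. -/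
def step (a : Lt r) : Pt r := Pi.single a.1 (sgn a)

/-- The displacement of a word. -/
def disp : Wd r → Pt r
  | [] => 0
  | a :: w => step a + disp w

/-- The flow of a word: `fl w p a` is the number of times the path of `w` started at the origin
runs from `p` in the direction `a`, minus the number of times it runs along the same edge
backwards. -/
def fl : Wd r → Pt r → Lt r → ℤ
  | [], _, _ => 0
  | b :: w, p, a =>
      (if p = 0 ∧ a = b then 1 else 0) - (if p = step b ∧ a = bar b then 1 else 0)
        + fl w (p - step b) a

/-- The indices occurring in a word. -/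
def idx (w : Wd r) : Finset (Fin r) := (w.map Prod.fst).toFinset

/-- Number of letters with index `k`. -/
def cnt (k : Fin r) (w : Wd r) : ℕ := (w.map Prod.fst).count k

/-- Number of repeats of a word: its length minus the number of its indices. -/
def rep (w : Wd r) : ℕ := w.length - (idx w).card

/-- The `ℓ¹` norm. -/
def nrm (p : Pt r) : ℕ := ∑ k, (p k).natAbs

/-- The inverse word. -/
def rv (w : Wd r) : Wd r := (w.map bar).reverse

/-- Freely reduced words. -/
abbrev Rd (w : Wd r) : Prop := FreeGroup.IsReduced w

/-- The free metabelian group of rank `r`. -/
abbrev FMet (r : ℕ) := FreeGroup (Fin r) ⧸ derivedSeries (FreeGroup (Fin r)) 2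

/-- The element of the free metabelian group represented by a word. -/
def el (w : Wd r) : FMet r := QuotientGroup.mk (FreeGroup.mk w)

/-- Word length in the free metabelian group. -/
noncomputable def len (g : FMet r) : ℕ := sInf {n | ∃ w : Wd r, w.length = n ∧ el w = g}

/-- The number of elements of length `n`. -/
noncomputable def sph (r n : ℕ) : ℕ := Nat.card {g : FMet r // len g = n}

end Pool.Agent.Helper62.FM
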