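import Pool.Agent.Helper62.FM.Weight

/-!
Weighted growth of the set of reduced words.
-/

namespace Pool.Agent.Helper62.FM

open Finset

variable {r : ℕ}

lemma cls_rd : Cls (fun w : Wd r => Rd w) := ⟨fun _ _ h => rd_append_left h, fun _ h => h⟩

lemma cs_ext_rd (t : ℝ) (n : ℕ) : cs t n (Ext (fun w : Wd r => Rd w)) = 0 := by
  classical
  rw [cs_def]
  apply Finset.sum_eq_zero
  intro u _
  rw [if_neg fun h => h.2.2 h.1]

lemma rd_rec {T : ℝ} (hT : 0 < T) (n : ℕ) :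
    cs T (n + 3) (fun w : Wd r => Rd w) = r * (T + T⁻¹) * cs T (n + 2) (fun w : Wd r => Rd w)
      - (2 * r - 1) * cs T (n + 1) (fun w : Wd r => Rd w) := by
  have h := rec_main hT (cls_rd (r := r)) (n + 1)
  rw [cs_ext_rd, add_zero, dsum_rd] at h
  exact h

lemma theta_nonneg {T : ℝ} (hT : 0 < T) : 0 ≤ T + T⁻¹ - 2 := by
  have : T + T⁻¹ - 2 = (T - 1) ^ 2 / T := by field_simp; ring
  rw [this]; positivity

lemma rd_bound (hr : 2 ≤ r) {T : ℝ} (hT : 0 < T) :
    ∃ K : ℝ, 0 < K ∧ ∀ n, cs T n (fun w : Wd r => Rd w)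
      ≤ K * (2 * r - 1 + 2 * (r * (T + T⁻¹ - 2))) ^ n := by
  have hr' : (2 : ℝ) ≤ r := by exact_mod_cast hr
  have h0 : 0 ≤ r * (T + T⁻¹ - 2) := mul_nonneg (by linarith) (theta_nonneg hT)
  obtain ⟨θ, hθ⟩ : ∃ θ, θ = r * (T + T⁻¹ - 2) := ⟨_, rfl⟩
  have hs : r * (T + T⁻¹) = 2 * r + θ := by rw [hθ]; ring
  rw [← hθ] at h0 ⊢
  obtain ⟨U, hU⟩ : ∃ U : ℕ → ℝ, U = fun n => cs T n (fun w : Wd r => Rd w) := ⟨_, rfl⟩
  have Upos : ∀ n, 0 ≤ U n := fun n => by rw [hU]; exact cs_nonneg hT _ _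
  have Urec : ∀ n, U (n + 3) = (2 * r + θ) * U (n + 2) - (2 * r - 1) * U (n + 1) := by
    intro n
    rw [hU]
    have := rd_rec (r := r) hT n
    rw [hs] at this
    exact this
  obtain ⟨lam, hl⟩ : ∃ lam, lam = 2 * r - 1 + 2 * θ := ⟨_, rfl⟩
  have hl3 : 3 ≤ lam := by rw [hl]; linarith
  have hV : ∀ n, U (n + 2) - (1 - θ) * U (n + 1) ≤ |U 2 - (1 - θ) * U 1| * lam ^ n := by
    intro n
    induction n with
    | zero =>
      rw [pow_zero, mul_one]
      exact le_abs_self (U 2 - (1 - θ) * U 1)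
    | succ n ih =>
      have p1 := Upos (n + 1)
      have p2 : lam * (1 - θ) ≤ 2 * r - 1 := by rw [hl]; nlinarith
      have p3 : lam * (U (n + 2) - (1 - θ) * U (n + 1))
          ≤ lam * (|U 2 - (1 - θ) * U 1| * lam ^ n) := mul_le_mul_of_nonneg_left ih (by linarith)
      have p4 : lam * (1 - θ) * U (n + 1) ≤ (2 * r - 1) * U (n + 1) :=
        mul_le_mul_of_nonneg_right p2 p1
      have e : U (n + 1 + 2) = (2 * r + θ) * U (n + 2) - (2 * r - 1) * U (n + 1) := Urec n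
      calc U (n + 1 + 2) - (1 - θ) * U (n + 1 + 1)
          = lam * U (n + 2) - (2 * r - 1) * U (n + 1) := by rw [e, hl]; ring
        _ ≤ lam * (U (n + 2) - (1 - θ) * U (n + 1)) := by linarith
        _ ≤ _ := p3
        _ = |U 2 - (1 - θ) * U 1| * lam ^ (n + 1) := by ring
  obtain ⟨D, hD⟩ : ∃ D, D = |U 2 - (1 - θ) * U 1| := ⟨_, rfl⟩
  rw [← hD] at hV
  have D0 : 0 ≤ D := by rw [hD]; positivity
  have hmain : ∀ n, U (n + 1) ≤ (U 1 + D) * lam ^ n := by
    intro n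
    induction n with
    | zero => simpa using D0
    | succ n ih =>
      have h1 := hV n
      have h2 := Upos (n + 1)
      have h3 : 0 < lam ^ n := by positivity
      have h4 : (1 - θ) * U (n + 1) ≤ U (n + 1) := by nlinarith
      have h5 := Upos 1
      have h6 : 0 ≤ (U 1 + D) * lam ^ n := by positivity
      calc U (n + 1 + 1) ≤ U (n + 1) + D * lam ^ n := by
            have : U (n + 1 + 1) = U (n + 2) := rfl
            linarith
        _ ≤ (U 1 + D) * lam ^ n + (U 1 + D) * lam ^ n := by nlinarith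
        _ ≤ (U 1 + D) * lam ^ n * lam := by nlinarith
        _ = (U 1 + D) * lam ^ (n + 1) := by ring
  refine ⟨U 0 + U 1 + D + 1, by have := Upos 0; have := Upos 1; positivity, ?_⟩
  intro n
  have g0 := Upos 0
  have g1 := Upos 1
  rw [← hl]
  change cs T n (fun w : Wd r => Rd w) ≤ _
  have gU : cs T n (fun w : Wd r => Rd w) = U n := by rw [hU]
  rw [gU]
  cases n with
  | zero => rw [pow_zero]; linarith
  | succ n =>
    have h3 : 0 < lam ^ n := by positivity
    calc U (n + 1) ≤ (U 1 + D) * lam ^ n := hmain n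
      _ ≤ (U 0 + U 1 + D + 1) * lam ^ n := by nlinarith
      _ ≤ (U 0 + U 1 + D + 1) * lam ^ n * lam := by
          have : 0 ≤ (U 0 + U 1 + D + 1) * lam ^ n := by positivity
          nlinarith
      _ = _ := by ring

end Pool.Agent.Helper62.FM
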