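import Pool.Agent.Helper62.FM.Metric
import Pool.Agent.Helper62.FM.RdBound

/-!
Existence of the growth rate and comparison of exponential rates.
-/

namespace Pool.Agent.Helper62.FM

open Finset Filter Topology

variable {r : ℕ}

/-- Comparison of exponential rates up to polynomial factors. -/
lemma pow_compare {x y C : ℝ} (k : ℕ) (hx : 0 < x) (hy : 0 < y)
    (h : ∀ n : ℕ, x ^ n ≤ C * (n + 1) ^ k * y ^ n) : x ≤ y := by
  by_contra hxy
  push Not at hxy
  have h1 : 1 < x / y := (one_lt_div hy).2 hxy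
  have h2 := (tendsto_pow_const_div_const_pow_of_one_lt k h1).comp (tendsto_add_atTop_nat 1)
  have h3 : Tendsto (fun n : ℕ => C * (x / y) * (((n + 1 : ℕ) : ℝ) ^ k / (x / y) ^ (n + 1)))
      atTop (𝓝 (C * (x / y) * 0)) := h2.const_mul _
  rw [mul_zero] at h3
  have h4 : ∀ n : ℕ, 1 ≤ C * (x / y) * (((n + 1 : ℕ) : ℝ) ^ k / (x / y) ^ (n + 1)) := by
    intro n
    have h5 := h n
    have h6 : (x / y) ^ n ≤ C * (n + 1) ^ k := by
      rw [div_pow, div_le_iff₀ (by positivity)]
      exact h5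
    have h7 : 0 < (x / y) ^ n := by positivity
    have e : C * (x / y) * (((n + 1 : ℕ) : ℝ) ^ k / (x / y) ^ (n + 1))
        = C * (n + 1) ^ k / (x / y) ^ n := by
      rw [pow_succ]
      push_cast
      field_simp
    rw [e, le_div_iff₀ h7, one_mul]
    exact h6
  have := ge_of_tendsto' h3 h4
  linarith

/-- The growth rate exists. -/
lemma exists_omega (hr : 1 ≤ r) : ∃ L : ℝ, 1 ≤ L ∧
    Tendsto (fun n : ℕ => (sph r n : ℝ) ^ ((1:ℝ) / n)) atTop (𝓝 L) ∧
    (∀ n : ℕ, L ^ n ≤ sph r n) ∧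
    (∀ ρ, L < ρ → ∃ C : ℝ, 0 < C ∧ ∀ n : ℕ, (sph r n : ℝ) ≤ C * ρ ^ n) := by
  have hpos : ∀ n, (1:ℝ) ≤ sph r n := fun n => by exact_mod_cast sph_pos hr n
  have hsub : Subadditive (fun n => Real.log (sph r n)) := by
    intro m n
    rw [← Real.log_mul (by linarith [hpos m]) (by linarith [hpos n])]
    apply Real.log_le_log (by linarith [hpos (m + n)])
    exact_mod_cast sph_mul m n
  have hbdd : BddBelow (Set.range fun n : ℕ => Real.log (sph r n) / n) := by
    refine ⟨0, ?_⟩
    rintro _ ⟨n, rfl⟩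
    exact div_nonneg (Real.log_nonneg (hpos n)) (Nat.cast_nonneg n)
  have hlim := hsub.tendsto_lim hbdd
  have hroot : ∀ n : ℕ, (sph r n : ℝ) ^ ((1:ℝ) / n) = Real.exp (Real.log (sph r n) / n) := by
    intro n
    rw [Real.rpow_def_of_pos (by linarith [hpos n])]
    congr 1; ring
  have hlow : ∀ n : ℕ, Real.exp hsub.lim ^ n ≤ sph r n := by
    intro n
    by_cases hn : n = 0
    · subst hn; simpa using hpos 0
    · have h1 := hsub.lim_le_div hbdd hn
      have hn' : (0:ℝ) < n := by exact_mod_cast Nat.pos_of_ne_zero hn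
      rw [le_div_iff₀ hn'] at h1
      rw [← Real.exp_nat_mul, ← Real.exp_log (show (0:ℝ) < sph r n by linarith [hpos n])]
      apply Real.exp_le_exp.2
      linarith
  refine ⟨Real.exp hsub.lim, ?_, ?_, hlow, ?_⟩
  · have h0 : 0 ≤ hsub.lim := by
      apply ge_of_tendsto' hlim
      intro n
      exact div_nonneg (Real.log_nonneg (hpos n)) (Nat.cast_nonneg n)
    exact Real.one_le_exp h0
  · have := (Real.continuous_exp.tendsto _).comp hlim
    refine this.congr fun n => ?_
    simp only [Function.comp]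
    exact (hroot n).symm
  · intro ρ hρ
    have hρ0 : 0 < ρ := lt_trans (Real.exp_pos _) hρ
    have h1 : hsub.lim < Real.log ρ := by
      rwa [Real.lt_log_iff_exp_lt hρ0]
    have h2 := hlim.eventually (gt_mem_nhds h1)
    obtain ⟨N, hN⟩ := Filter.eventually_atTop.1 h2
    have h3 : ∀ n, N + 1 ≤ n → (sph r n : ℝ) ≤ ρ ^ n := by
      intro n hn
      have h4 := hN n (by omega)
      have hn' : (0:ℝ) < n := by exact_mod_cast (by omega : 0 < n)
      rw [div_lt_iff₀ hn'] at h4
      rw [← Real.exp_log (show (0:ℝ) < sph r n by linarith [hpos n]),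
        ← Real.exp_log (show 0 < ρ by exact hρ0), ← Real.exp_nat_mul]
      apply Real.exp_le_exp.2
      linarith
    refine ⟨1 + ∑ k ∈ range (N + 1), (sph r k : ℝ) / ρ ^ k, ?_, ?_⟩
    · have : 0 ≤ ∑ k ∈ range (N + 1), (sph r k : ℝ) / ρ ^ k :=
        Finset.sum_nonneg fun k _ => by positivity
      linarith
    · intro n
      have hs : 0 ≤ ∑ k ∈ range (N + 1), (sph r k : ℝ) / ρ ^ k :=
        Finset.sum_nonneg fun k _ => by positivity
      by_cases hn : N + 1 ≤ n
      · have := h3 n hn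
        have hp : 0 < ρ ^ n := by positivity
        nlinarith
      · have h5 : (sph r n : ℝ) / ρ ^ n ≤ ∑ k ∈ range (N + 1), (sph r k : ℝ) / ρ ^ k :=
          Finset.single_le_sum (f := fun k => (sph r k : ℝ) / ρ ^ k)
            (fun k _ => by positivity) (Finset.mem_range.2 (by omega))
        have hp : 0 < ρ ^ n := by positivity
        rw [div_le_iff₀ hp] at h5
        nlinarith

/-- Weighted arithmetic-geometric inequality. -/
lemma amgm {x y : ℝ} (hx : 0 < x) (hy : 0 < y) (k : ℕ) :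
    x ^ k * y ≤ ((k * x + y) / (k + 1)) ^ (k + 1) := by
  have hk : (0:ℝ) < k + 1 := by positivity
  have e : (k * x + y) / (k + 1) = x * (1 + (y - x) / ((k + 1) * x)) := by
    field_simp
    ring
  have h1 : -2 ≤ (y - x) / ((k + 1) * x) := by
    rw [le_div_iff₀ (by positivity)]
    have : (0:ℝ) ≤ k := by positivity
    nlinarith
  have h2 := one_add_mul_le_pow h1 (k + 1)
  have e2 : 1 + ((k + 1 : ℕ) : ℝ) * ((y - x) / ((k + 1) * x)) = y / x := by
    push_cast
    field_simp
    ring
  rw [e2] at h2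
  rw [e, mul_pow]
  calc x ^ k * y = x ^ (k + 1) * (y / x) := by rw [pow_succ]; field_simp
    _ ≤ _ := mul_le_mul_of_nonneg_left h2 (by positivity)

/-- Number of good words against weighted numbers of good words. -/
lemma holder {t : ℝ} (ht : 0 < t) (n k : ℕ) :
    cs t n (Good (r := r)) ^ (k + 1)
      ≤ num r n Good ^ k * cs (t ^ (k + 1)) n (fun w : Wd r => Rd w) := by
  classical
  have h1 : cs t n (Good (r := r)) = ∑ w ∈ (W r n).filter Good, wt t w := by
    rw [cs_def, Finset.sum_filter]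
  have h2 : num r n Good = (((W r n).filter Good).card : ℝ) := num_eq_card _ _
  have h3 : ∑ w ∈ (W r n).filter Good, wt t w ^ (k + 1)
      ≤ cs (t ^ (k + 1)) n (fun w : Wd r => Rd w) := by
    rw [cs_def, Finset.sum_filter]
    apply Finset.sum_le_sum
    intro w _
    by_cases hw : Good w
    · rw [if_pos hw, if_pos hw.1, wt_pow]
    · rw [if_neg hw]
      split_ifs
      · exact (wt_pos (by positivity) w).le
      · exact le_refl _
  rw [h1, h2]
  refine le_trans (pow_sum_le_card_mul_sum_pow (fun w _ => (wt_pos ht w).le) k) ?_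
  exact mul_le_mul_of_nonneg_left h3 (by positivity)

/-- From the growth of the weighted sums over good words to the growth rate. -/
lemma key_ineq (hr : 2 ≤ r) {t b L : ℝ} (ht : 0 < t) (hb : 0 < b)
    (hW : ∀ n, b ^ n ≤ cs t n (Good (r := r))) (hL : 1 ≤ L)
    (hL2 : ∀ ρ, L < ρ → ∃ C : ℝ, 0 < C ∧ ∀ n : ℕ, (sph r n : ℝ) ≤ C * ρ ^ n) (k : ℕ) :
    (k + 1) * b ≤ k * L + (2 * r - 1 + 2 * (r * (t ^ (k + 1) + (t ^ (k + 1))⁻¹ - 2))) := by
  obtain ⟨K, hK, hKn⟩ := rd_bound hr (show 0 < t ^ (k + 1) by positivity)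
  have hr' : (2 : ℝ) ≤ r := by exact_mod_cast hr
  have hθ := theta_nonneg (show 0 < t ^ (k + 1) by positivity)
  obtain ⟨lam, hlam⟩ : ∃ lam, lam = 2 * r - 1 + 2 * (r * (t ^ (k + 1) + (t ^ (k + 1))⁻¹ - 2)) :=
    ⟨_, rfl⟩
  rw [← hlam] at hKn ⊢
  have hlp : 0 < lam := by
    rw [hlam]
    have : 0 ≤ r * (t ^ (k + 1) + (t ^ (k + 1))⁻¹ - 2) := mul_nonneg (by linarith) hθ
    linarith
  have main : ∀ ρ, L < ρ → (k + 1) * b ≤ k * ρ + lam := by
    intro ρ hρ
    obtain ⟨C, hC, hCn⟩ := hL2 ρ hρ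
    have hρ1 : 1 ≤ ρ := by linarith
    have hρ0 : 0 < ρ := by linarith
    have hball : ∀ n : ℕ, num r n Good ≤ (n + 1) * (C * ρ ^ n) := by
      intro n
      refine (num_good_le n).trans ?_
      calc ∑ j ∈ range (n + 1), (sph r j : ℝ) ≤ ∑ _j ∈ range (n + 1), C * ρ ^ n := by
            apply Finset.sum_le_sum
            intro j hj
            refine (hCn j).trans ?_
            apply mul_le_mul_of_nonneg_left _ hC.le
            exact pow_le_pow_right₀ hρ1 (by have := Finset.mem_range.1 hj; omega)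
        _ = (n + 1) * (C * ρ ^ n) := by
            rw [Finset.sum_const, Finset.card_range, nsmul_eq_mul]; push_cast; ring
    have hcmp : ∀ n : ℕ, (b ^ (k + 1)) ^ n ≤ (C ^ k * K) * (n + 1) ^ k * (ρ ^ k * lam) ^ n := by
      intro n
      calc (b ^ (k + 1)) ^ n = (b ^ n) ^ (k + 1) := by rw [← pow_mul, ← pow_mul, mul_comm]
        _ ≤ cs t n (Good (r := r)) ^ (k + 1) := pow_le_pow_left₀ (by positivity) (hW n) _
        _ ≤ num r n Good ^ k * cs (t ^ (k + 1)) n (fun w : Wd r => Rd w) := holder ht n k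
        _ ≤ ((n + 1) * (C * ρ ^ n)) ^ k * (K * lam ^ n) := by
            apply mul_le_mul _ (hKn n) (cs_nonneg (by positivity) _ _) (by positivity)
            exact pow_le_pow_left₀ (num_nonneg _ _) (hball n) _
        _ = (C ^ k * K) * (n + 1) ^ k * (ρ ^ k * lam) ^ n := by
            rw [mul_pow, mul_pow, mul_pow, ← pow_mul, ← pow_mul, mul_comm n k]
            ring
    have h1 := pow_compare k (by positivity) (by positivity) hcmp
    have h2 := h1.trans (amgm hρ0 hlp k)
    have h3 : b ≤ (k * ρ + lam) / (k + 1) :=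
      le_of_pow_le_pow_left₀ (by omega) (by positivity) h2
    rw [le_div_iff₀ (by positivity)] at h3
    linarith
  by_contra hcon
  push Not at hcon
  by_cases hk : k = 0
  · subst hk
    have := main (L + 1) (by linarith)
    simp only [Nat.cast_zero, zero_mul, zero_add, one_mul] at this hcon
    linarith
  · have hk' : (0:ℝ) < k := by exact_mod_cast Nat.pos_of_ne_zero hk
    obtain ⟨e, he⟩ : ∃ e, e = ((k + 1) * b - (k * L + lam)) / (2 * k) := ⟨_, rfl⟩
    have he0 : 0 < e := by rw [he]; apply div_pos <;> linarith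
    have := main (L + e) (by linarith)
    have e2 : k * e = ((k + 1) * b - (k * L + lam)) / 2 := by rw [he]; field_simp
    nlinarith

end Pool.Agent.Helper62.FM
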