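import Pool.Agent.Helper62.FM.Lower

/-!
The asymptotic expansion of the growth rate in the rank.
-/

namespace Pool.Agent.Helper62.FM

open Finset Filter Topology

/-- The tilt. -/
noncomputable def tt (c : ℝ) (r : ℕ) : ℝ := 1 + c / r ^ 2

/-- The lower growth bound for the tilted sums. -/
noncomputable def bb (c : ℝ) (r : ℕ) : ℝ := 2 * r - 1 - (11 / 16 - c ^ 2 / 2) / r ^ 3

lemma tendsto_inv_pow (k : ℕ) (hk : k ≠ 0) (a : ℝ) :
    Tendsto (fun r : ℕ => a / (r:ℝ) ^ k) atTop (𝓝 0) := by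
  have h1 : Tendsto (fun r : ℕ => (r:ℝ) ^ k) atTop atTop :=
    (tendsto_pow_atTop hk).comp tendsto_natCast_atTop_atTop
  exact h1.const_div_atTop a

lemma tendsto_tt (c : ℝ) : Tendsto (tt c) atTop (𝓝 1) := by
  have := (tendsto_inv_pow 2 (by norm_num) c).const_add 1
  rw [add_zero] at this
  exact this

lemma tendsto_u (c : ℝ) : Tendsto (fun r : ℕ => (r:ℝ) / bb c r) atTop (𝓝 (1 / 2)) := by
  have h1 : Tendsto (fun r : ℕ => 2 - 1 / (r:ℝ) ^ 1 - (11 / 16 - c ^ 2 / 2) / (r:ℝ) ^ 4) atTop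
      (𝓝 (2 - 0 - 0)) :=
    ((tendsto_inv_pow 1 one_ne_zero 1).const_sub 2).sub (tendsto_inv_pow 4 (by norm_num) _)
  have h2 := h1.inv₀ (by norm_num)
  have e : ((2:ℝ) - 0 - 0)⁻¹ = 1 / 2 := by norm_num
  rw [e] at h2
  refine h2.congr' ?_
  filter_upwards [eventually_ge_atTop 1] with r hr
  have hr' : (0:ℝ) < r := by exact_mod_cast hr
  have : bb c r = r * (2 - 1 / (r:ℝ) ^ 1 - (11 / 16 - c ^ 2 / 2) / (r:ℝ) ^ 4) := by
    unfold bb
    field_simp
  rw [this, div_mul_eq_div_div, div_self hr'.ne']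
  exact (one_div _).symm

/-- The four contributions, rescaled. -/
lemma TT_eq {t u c : ℝ} {r : ℕ} (hr : 0 < (r:ℝ)) (hu : 0 < u) (hb : u * bb c r = r)
    (hc : 0 < c ^ 2 / 2 - KU / r) :
    TT t (u / r) r * r ^ 3 = 120 * (241 ^ 120 * 2 ^ 120 / 16) * t ^ 120 * (1 / r) + 28 * t ^ 7 * u ^ 6
      + 32 * t ^ 8 * u ^ 7 + 2 ^ 101 * KM * t ^ 21 * u ^ 118 * (1 / r) ^ 11 / (c ^ 2 / 2 - KU / r) := by
  have e1 : 1 - al r * (u / r) = u * (c ^ 2 / 2 - KU / r) / r ^ 4 := by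
    have h2 : bb c r - al r = (c ^ 2 / 2 - KU / r) / r ^ 3 := by
      unfold bb al
      field_simp
      ring
    have h3 : 1 - al r * (u / r) = (u * bb c r - al r * u) / r := by
      rw [hb]; field_simp
    rw [h3]
    have h4 : u * bb c r - al r * u = u * (bb c r - al r) := by ring
    rw [h4, h2]
    field_simp
  unfold TT
  rw [e1]
  generalize KM = M
  generalize (241:ℝ) ^ 120 = A
  have e2 : t ^ 21 * ((2 * (r:ℝ)) ^ 14 * (M * (2 * r) ^ 87)) * (u / r) ^ 119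
      / (u * (c ^ 2 / 2 - KU / r) / r ^ 4) * r ^ 3
      = 2 ^ 101 * M * t ^ 21 * u ^ 118 * (1 / r) ^ 11 / (c ^ 2 / 2 - KU / r) := by
    have q1 : (2 * (r:ℝ)) ^ 14 * (M * (2 * r) ^ 87) = 2 ^ 101 * M * r ^ 101 := by
      have : ∀ y : ℝ, y ^ 14 * (M * y ^ 87) = M * y ^ 101 := by
        intro y
        rw [mul_left_comm, ← pow_add]
      rw [this, mul_pow]
      generalize (2:ℝ) ^ 101 = Z
      ring
    have q2 : (u / r) ^ 119 = u ^ 118 * u / (r ^ 101 * r ^ 18) := by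
      rw [div_pow, ← pow_succ, ← pow_add]
    have q3 : ((1:ℝ) / r) ^ 11 = 1 / r ^ 11 := by rw [div_pow, one_pow]
    rw [q1, q2, q3]
    generalize c ^ 2 / 2 - KU / r = D at hc
    field_simp
  rw [add_mul, add_mul, add_mul, e2]
  congr 1
  congr 1
  · congr 1
    · field_simp
      ring
    · field_simp
  · field_simp

/-- The conditions on the rank used throughout. -/
def Big (r : ℕ) : Prop := 14 ≤ r ∧ 84 + 7 * (241 ^ 120 * 2 ^ 9) ≤ 28 * (r:ℝ) ∧
    192 + 7 * (241 ^ 120 * 2 ^ 10) ≤ 32 * (r:ℝ)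

lemma eventually_big : ∀ᶠ r : ℕ in atTop, Big r := by
  have h1 : ∀ᶠ r : ℕ in atTop, ((84 + 7 * (241 ^ 120 * 2 ^ 9)) / 28 : ℝ) ≤ r :=
    tendsto_natCast_atTop_atTop.eventually_ge_atTop _
  have h2 : ∀ᶠ r : ℕ in atTop, ((192 + 7 * (241 ^ 120 * 2 ^ 10)) / 32 : ℝ) ≤ r :=
    tendsto_natCast_atTop_atTop.eventually_ge_atTop _
  filter_upwards [eventually_ge_atTop 14, h1, h2] with r g1 g2 g3
  refine ⟨g1, ?_, ?_⟩
  · rw [div_le_iff₀ (by norm_num)] at g2; rw [mul_comm (28:ℝ)]; exact g2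
  · rw [div_le_iff₀ (by norm_num)] at g3; rw [mul_comm (32:ℝ)]; exact g3

/-- For large rank the tilted sums over good words grow at least like `bb`. -/
lemma eventually_lower {c : ℝ} (hc0 : 0 < c) (hc1 : c ≤ 1) :
    ∀ᶠ r : ℕ in atTop, ∀ n, bb c r ^ n ≤ cs (tt c r) n (Good (r := r)) := by
  obtain ⟨δ, hδ⟩ : ∃ δ, δ = 11 / 16 - c ^ 2 / 2 := ⟨_, rfl⟩
  have hc2 : c ^ 2 ≤ 1 := by nlinarith
  have δ0 : 0 < δ := by rw [hδ]; linarith
  have δ1 : δ ≤ 1 := by rw [hδ]; nlinarith [sq_nonneg c]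
  have ht := tendsto_tt c
  have hu := tendsto_u c
  have hi : Tendsto (fun r : ℕ => 1 / (r:ℝ)) atTop (𝓝 0) := tendsto_one_div_atTop_nhds_zero_nat
  -- limit of the pattern weights
  have hK : Tendsto (fun r : ℕ => c ^ 2 / 2 - KU / r) atTop (𝓝 (c ^ 2 / 2)) := by
    have := (tendsto_inv_pow 1 one_ne_zero KU).const_sub (c ^ 2 / 2)
    simpa using this
  have hF : Tendsto (fun r : ℕ => 120 * (241 ^ 120 * 2 ^ 120 / 16) * tt c r ^ 120 * (1 / (r:ℝ))
      + 28 * tt c r ^ 7 * (r / bb c r) ^ 6 + 32 * tt c r ^ 8 * (r / bb c r) ^ 7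
      + 2 ^ 101 * KM * tt c r ^ 21 * (r / bb c r) ^ 118 * (1 / r) ^ 11 / (c ^ 2 / 2 - KU / r)) atTop
      (𝓝 (120 * (241 ^ 120 * 2 ^ 120 / 16) * 1 ^ 120 * 0 + 28 * 1 ^ 7 * (1 / 2) ^ 6
        + 32 * 1 ^ 8 * (1 / 2) ^ 7
        + 2 ^ 101 * KM * 1 ^ 21 * (1 / 2) ^ 118 * 0 ^ 11 / (c ^ 2 / 2))) := by
    refine Tendsto.add (Tendsto.add (Tendsto.add ?_ ?_) ?_) ?_
    · exact ((ht.pow 120).const_mul _).mul hi
    · exact ((ht.pow 7).const_mul _).mul (hu.pow 6)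
    · exact ((ht.pow 8).const_mul _).mul (hu.pow 7)
    · exact (((((ht.pow 21).const_mul _).mul (hu.pow 118)).mul (hi.pow 11)).div hK
        (by positivity))
  have hFv : (120 * (241 ^ 120 * 2 ^ 120 / 16) * 1 ^ 120 * 0 + 28 * 1 ^ 7 * (1 / 2) ^ 6
        + 32 * 1 ^ 8 * (1 / 2) ^ 7
        + 2 ^ 101 * KM * 1 ^ 21 * (1 / 2) ^ 118 * 0 ^ 11 / (c ^ 2 / 2) : ℝ) = 11 / 16 := by
    rw [zero_pow (by norm_num), mul_zero, mul_zero, zero_div]
    norm_num
  rw [hFv] at hF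
  -- limit of the gain
  have hG : Tendsto (fun r : ℕ => c ^ 2 / tt c r + δ - δ * (1 / (r:ℝ)) * (r / bb c r)) atTop
      (𝓝 (c ^ 2 / 1 + δ - δ * 0 * (1 / 2))) := by
    refine Tendsto.sub (Tendsto.add ?_ tendsto_const_nhds) ?_
    · exact tendsto_const_nhds.div ht one_ne_zero
    · exact (hi.const_mul δ).mul hu
  have hGv : c ^ 2 / 1 + δ - δ * 0 * (1 / 2) = 11 / 16 + c ^ 2 / 2 := by rw [hδ]; ring
  rw [hGv] at hG
  have hlt : ∀ᶠ r : ℕ in atTop, 120 * (241 ^ 120 * 2 ^ 120 / 16) * tt c r ^ 120 * (1 / (r:ℝ))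
      + 28 * tt c r ^ 7 * (r / bb c r) ^ 6 + 32 * tt c r ^ 8 * (r / bb c r) ^ 7
      + 2 ^ 101 * KM * tt c r ^ 21 * (r / bb c r) ^ 118 * (1 / r) ^ 11 / (c ^ 2 / 2 - KU / r)
      < c ^ 2 / tt c r + δ - δ * (1 / (r:ℝ)) * (r / bb c r) :=
    hF.eventually_lt hG (by nlinarith)
  have hKpos : ∀ᶠ r : ℕ in atTop, 0 < c ^ 2 / 2 - KU / r :=
    hK.eventually (lt_mem_nhds (by positivity))
  filter_upwards [eventually_big, hlt, hKpos] with r hbig h1 h2
  obtain ⟨b1, b2, b3⟩ := hbig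
  have hr' : (14 : ℝ) ≤ r := by exact_mod_cast b1
  have hrp : (0 : ℝ) < r := by linarith
  have hfrac : (11 / 16 - c ^ 2 / 2) / (r:ℝ) ^ 3 ≤ 1 := by
    rw [← hδ, div_le_one (by positivity)]
    exact δ1.trans (one_le_pow₀ (by linarith))
  have hfrac0 : 0 ≤ (11 / 16 - c ^ 2 / 2) / (r:ℝ) ^ 3 := by
    rw [← hδ]; positivity
  have hb_lo : 2 * (r:ℝ) - 2 ≤ bb c r := by unfold bb; linarith
  have hb_hi : bb c r ≤ 2 * r - 1 := by unfold bb; linarith
  have hbp : 0 < bb c r := by linarith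
  have t1 : 1 ≤ tt c r := by
    unfold tt
    have : 0 ≤ c / (r:ℝ) ^ 2 := by positivity
    linarith
  have t0 : 0 < tt c r := by linarith
  have hal : al r < bb c r := by
    have : bb c r - al r = (c ^ 2 / 2 - KU / r) / r ^ 3 := by
      unfold bb al
      field_simp
      ring
    have h3 : 0 < (c ^ 2 / 2 - KU / r) / (r:ℝ) ^ 3 := by positivity
    linarith
  have hup : 0 < (r:ℝ) / bb c r := by positivity
  have hq : (bb c r)⁻¹ = (r / bb c r) / r := by field_simp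
  have hcond : bb c r + (2 * r - 1) / bb c r + TT (tt c r) (bb c r)⁻¹ r
      ≤ r * (tt c r + (tt c r)⁻¹) := by
    have e1 := TT_eq (t := tt c r) (u := r / bb c r) (c := c) hrp hup (by field_simp) h2
    rw [← e1] at h1
    rw [← hq] at h1
    have e2 : (c ^ 2 / tt c r + δ - δ * (1 / (r:ℝ)) * (r / bb c r))
        = (r * (tt c r + (tt c r)⁻¹) - bb c r - (2 * r - 1) / bb c r) * r ^ 3 := by
      have e3 : (2 * (r:ℝ) - 1) / bb c r = 1 + δ / r ^ 3 / bb c r := by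
        have : 2 * (r:ℝ) - 1 = bb c r + δ / r ^ 3 := by unfold bb; rw [hδ]; ring
        rw [this, add_div, div_self hbp.ne']
      have e4 : r * (tt c r + (tt c r)⁻¹) = 2 * r + c ^ 2 / tt c r / r ^ 3 := by
        have h5 : tt c r + (tt c r)⁻¹ = 2 + (tt c r - 1) ^ 2 / tt c r := by
          field_simp
          ring
        have h6 : tt c r - 1 = c / r ^ 2 := by unfold tt; ring
        rw [h5, h6]
        field_simp
      have e5 : bb c r = 2 * r - 1 - δ / r ^ 3 := by unfold bb; rw [hδ]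
      rw [e3, e4]
      have e6 : 2 * (r:ℝ) + c ^ 2 / tt c r / r ^ 3 - bb c r - (1 + δ / r ^ 3 / bb c r)
          = c ^ 2 / tt c r / r ^ 3 + δ / r ^ 3 - δ / r ^ 3 / bb c r := by
        rw [show 2 * (r:ℝ) + c ^ 2 / tt c r / r ^ 3 - bb c r - (1 + δ / r ^ 3 / bb c r)
          = (2 * (r:ℝ) - 1 - bb c r) + c ^ 2 / tt c r / r ^ 3 - δ / r ^ 3 / bb c r by ring]
        rw [show 2 * (r:ℝ) - 1 - bb c r = δ / r ^ 3 by rw [e5]; ring]
        ring
      rw [e6]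
      generalize bb c r = B at hbp
      generalize tt c r = T at t0
      field_simp
    rw [e2] at h1
    have h3 := lt_of_mul_lt_mul_right h1 (by positivity)
    linarith
  have hstep := lower_growth b1 b2 b3 t1 (by linarith) hb_hi hal hcond
  intro n
  induction n with
  | zero =>
    rw [pow_zero, cs_zero]
    refine ⟨FreeGroup.IsReduced.nil, ?_, ?_, ?_⟩
    · intro f hf hF
      rw [List.infix_nil] at hf
      exact hF.ne_nil hf
    · intro u hu _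
      rw [List.infix_nil] at hu
      subst hu; simp [rep]
    · intro u hu h
      rw [List.infix_nil] at hu
      subst hu; simp at h
  | succ n ih =>
    calc bb c r ^ (n + 1) = bb c r * bb c r ^ n := by ring
      _ ≤ bb c r * cs (tt c r) n (Good (r := r)) := mul_le_mul_of_nonneg_left ih hbp.le
      _ ≤ _ := hstep n

lemma tendsto_T (c : ℝ) (hc : 0 < c) (N : ℕ) :
    Tendsto (fun r : ℕ => (r:ℝ) ^ 4 * (tt c r ^ N + (tt c r ^ N)⁻¹ - 2)) atTop
      (𝓝 ((c * N) ^ 2)) := by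
  have ht := tendsto_tt c
  have h1 : Tendsto (fun r : ℕ => c * ∑ i ∈ range N, tt c r ^ i) atTop
      (𝓝 (c * ∑ i ∈ range N, (1:ℝ) ^ i)) :=
    (tendsto_finsetSum _ fun i _ => ht.pow i).const_mul c
  have e1 : c * ∑ i ∈ range N, (1:ℝ) ^ i = c * N := by simp
  rw [e1] at h1
  have h2 := (h1.pow 2).div (ht.pow N) (by simp)
  rw [one_pow, div_one] at h2
  refine h2.congr' ?_
  filter_upwards [eventually_ge_atTop 1] with r hr
  have hr' : (0:ℝ) < r := by exact_mod_cast hr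
  have t0 : 0 < tt c r := by unfold tt; positivity
  have e2 : (∑ i ∈ range N, tt c r ^ i) * (tt c r - 1) = tt c r ^ N - 1 := geom_sum_mul _ _
  have e3 : tt c r - 1 = c / r ^ 2 := by unfold tt; ring
  rw [e3] at e2
  have e4 : c * ∑ i ∈ range N, tt c r ^ i = r ^ 2 * (tt c r ^ N - 1) := by
    rw [← e2]; field_simp
  simp only [Pi.div_apply]
  rw [e4]
  have tN : 0 < tt c r ^ N := by positivity
  generalize tt c r ^ N = T at tN
  field_simp
  ring

/-- Main theorem: existence of the growth rates and their expansion in the rank. -/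
theorem rank_asymptotics : ∃ ω : ℕ → ℝ,
    (∀ r : ℕ, 2 ≤ r → Tendsto (fun n : ℕ => (sph r n : ℝ) ^ ((1:ℝ) / n)) atTop (𝓝 (ω r))) ∧
    Tendsto (fun r : ℕ => (r:ℝ) ^ 3 * (2 * r - 1 - ω r)) atTop (𝓝 (11 / 16)) := by
  have hex : ∀ r : ℕ, ∃ L : ℝ, 1 ≤ r → 1 ≤ L ∧
      Tendsto (fun n : ℕ => (sph r n : ℝ) ^ ((1:ℝ) / n)) atTop (𝓝 L) ∧
      (∀ n : ℕ, L ^ n ≤ sph r n) ∧
      (∀ ρ, L < ρ → ∃ C : ℝ, 0 < C ∧ ∀ n : ℕ, (sph r n : ℝ) ≤ C * ρ ^ n) := by
    intro r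
    by_cases hr : 1 ≤ r
    · obtain ⟨L, hL⟩ := exists_omega hr
      exact ⟨L, fun _ => hL⟩
    · exact ⟨0, fun h => absurd h hr⟩
  choose ω hω using hex
  refine ⟨ω, fun r hr => (hω r (by omega)).2.1, ?_⟩
  rw [tendsto_order]
  constructor
  · -- the growth rate is small enough
    intro a ha
    have h1 : Tendsto (fun r : ℕ => (11 / 16 : ℝ) - KU / r) atTop (𝓝 (11 / 16)) := by
      have := (tendsto_inv_pow 1 one_ne_zero KU).const_sub (11 / 16 : ℝ)
      simpa using this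
    filter_upwards [eventually_big, h1.eventually (lt_mem_nhds ha)] with r hbig h2
    obtain ⟨b1, b2, b3⟩ := hbig
    have hr' : (14 : ℝ) ≤ r := by exact_mod_cast b1
    have hrp : (0 : ℝ) < r := by linarith
    obtain ⟨w1, -, w3, -⟩ := hω r (by omega)
    have hal : 0 < al r := by linarith [al_ge b1]
    have h3 : ω r ≤ al r := by
      apply pow_compare (C := (2 * r) ^ 14) 0 (by linarith) hal
      intro n
      rw [pow_zero, mul_one]
      exact (w3 n).trans ((sph_le n).trans (upper_bound b1 b2 b3 n))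
    have h4 : (r:ℝ) ^ 3 * (2 * r - 1 - al r) = 11 / 16 - KU / r := by
      unfold al
      field_simp
      ring
    calc a < 11 / 16 - KU / r := h2
      _ = (r:ℝ) ^ 3 * (2 * r - 1 - al r) := h4.symm
      _ ≤ _ := by
        apply mul_le_mul_of_nonneg_left _ (by positivity)
        linarith
  · -- the growth rate is large enough
    intro a ha
    obtain ⟨ε, hε⟩ : ∃ ε, ε = a - 11 / 16 := ⟨_, rfl⟩
    have hε0 : 0 < ε := by rw [hε]; linarith
    obtain ⟨k, hk⟩ := exists_nat_gt (11 / (4 * ε))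
    have hk0 : (0:ℝ) < k := lt_trans (by positivity) hk
    have hk1 : 1 ≤ k := by
      have : 0 < k := by exact_mod_cast hk0
      omega
    have hkε : 11 / 16 / (k:ℝ) < ε / 4 := by
      rw [div_lt_iff₀ (by positivity)] at hk ⊢
      linarith
    obtain ⟨c, hc0, hc1, hc2⟩ : ∃ c : ℝ, 0 < c ∧ c ≤ 1 ∧ 2 * (c * ((k + 1 : ℕ) : ℝ)) ^ 2 / k < ε / 4 := by
      have h1 : Tendsto (fun c : ℝ => 2 * (c * ((k + 1 : ℕ) : ℝ)) ^ 2 / k) (𝓝 0) (𝓝 0) := by
        have : Continuous (fun c : ℝ => 2 * (c * ((k + 1 : ℕ) : ℝ)) ^ 2 / k) := by fun_prop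
        have h2 := this.tendsto 0
        simpa using h2
      have h2 := h1.eventually (gt_mem_nhds (show (0:ℝ) < ε / 4 by positivity))
      obtain ⟨d, hd, hd2⟩ := Metric.eventually_nhds_iff.1 h2
      refine ⟨min 1 (d / 2), by positivity, min_le_left _ _, hd2 ?_⟩
      rw [Real.dist_eq, sub_zero, abs_of_pos (by positivity)]
      exact lt_of_le_of_lt (min_le_right _ _) (by linarith)
    have hT := tendsto_T c hc0 (k + 1)
    have hT2 : Tendsto (fun r : ℕ => ((k + 1) * (11 / 16)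
        + 2 * ((r:ℝ) ^ 4 * (tt c r ^ (k + 1) + (tt c r ^ (k + 1))⁻¹ - 2))) / k) atTop
        (𝓝 (((k + 1) * (11 / 16) + 2 * (c * ((k + 1 : ℕ) : ℝ)) ^ 2) / k)) :=
      ((hT.const_mul 2).const_add _).div_const _
    have hlim : ((k + 1) * (11 / 16) + 2 * (c * ((k + 1 : ℕ) : ℝ)) ^ 2) / k < a := by
      have e : ((k + 1) * (11 / 16) + 2 * (c * ((k + 1 : ℕ) : ℝ)) ^ 2) / k
          = 11 / 16 + 11 / 16 / k + 2 * (c * ((k + 1 : ℕ) : ℝ)) ^ 2 / k := by
        field_simp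
      rw [e]
      linarith
    filter_upwards [eventually_big, eventually_lower hc0 hc1,
      hT2.eventually (gt_mem_nhds hlim)] with r hbig hlow h5
    obtain ⟨b1, b2, b3⟩ := hbig
    have hr' : (14 : ℝ) ≤ r := by exact_mod_cast b1
    have hrp : (0 : ℝ) < r := by linarith
    obtain ⟨w1, -, -, w4⟩ := hω r (by omega)
    have t0 : 0 < tt c r := by unfold tt; positivity
    have hfrac : (11 / 16 - c ^ 2 / 2) / (r:ℝ) ^ 3 ≤ 1 := by
      rw [div_le_one (by positivity)]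
      have : 11 / 16 - c ^ 2 / 2 ≤ 1 := by nlinarith [sq_nonneg c]
      exact this.trans (one_le_pow₀ (by linarith))
    have hbp : 0 < bb c r := by unfold bb; linarith
    have h6 := key_ineq (by omega) t0 hbp hlow w1 w4 k
    refine lt_of_le_of_lt ?_ h5
    rw [le_div_iff₀ hk0]
    have h7 : (k:ℝ) * (2 * r - 1 - ω r) ≤ (k + 1) * (2 * r - 1 - bb c r)
        + 2 * (r * (tt c r ^ (k + 1) + (tt c r ^ (k + 1))⁻¹ - 2)) := by
      nlinarith
    have h8 : (r:ℝ) ^ 3 * (2 * r - 1 - bb c r) ≤ 11 / 16 := by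
      have : (r:ℝ) ^ 3 * (2 * r - 1 - bb c r) = 11 / 16 - c ^ 2 / 2 := by
        unfold bb
        field_simp
        ring
      rw [this]
      nlinarith [sq_nonneg c]
    have h9 : (r:ℝ) ^ 3 * (k * (2 * r - 1 - ω r)) ≤ (r:ℝ) ^ 3 * ((k + 1) * (2 * r - 1 - bb c r)
        + 2 * (r * (tt c r ^ (k + 1) + (tt c r ^ (k + 1))⁻¹ - 2))) :=
      mul_le_mul_of_nonneg_left h7 (by positivity)
    calc (r:ℝ) ^ 3 * (2 * r - 1 - ω r) * k = (r:ℝ) ^ 3 * (k * (2 * r - 1 - ω r)) := by ring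
      _ ≤ (r:ℝ) ^ 3 * ((k + 1) * (2 * r - 1 - bb c r)
        + 2 * (r * (tt c r ^ (k + 1) + (tt c r ^ (k + 1))⁻¹ - 2))) := h9
      _ = (k + 1) * ((r:ℝ) ^ 3 * (2 * r - 1 - bb c r))
        + 2 * ((r:ℝ) ^ 4 * (tt c r ^ (k + 1) + (tt c r ^ (k + 1))⁻¹ - 2)) := by ring
      _ ≤ _ := by
        have : (0:ℝ) ≤ k + 1 := by linarith
        nlinarith

end Pool.Agent.Helper62.FM
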