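import Pool.Agent.Helper62.FM.Weight

/-!
Elementary facts on the forbidden words.
-/

namespace Pool.Agent.Helper62.FM

open Finset

variable {r : ℕ}

lemma Forb.length {f : Wd r} (h : Forb f) : f.length = 7 ∨ f.length = 8 := by
  obtain ⟨f', h⟩ := h
  cases h <;> simp

lemma Forb.rep {f : Wd r} (h : Forb f) : rep f = 4 := by
  obtain ⟨f', h⟩ := h
  unfold FM.rep
  cases h with
  | p1 a b c hab hac hbc =>
    have : idx [a, b, bar a, bar b, c, a, bar c] = {a.1, b.1, c.1} := by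
      ext k; simp [idx, bar]; try tauto
    rw [this, Finset.card_eq_three.2 ⟨_, _, _, hab, hac, hbc, rfl⟩]; rfl
  | p2 a b c hab hac hbc =>
    have : idx [a, b, bar a, c, bar b, bar c, b] = {a.1, b.1, c.1} := by
      ext k; simp [idx, bar]; try tauto
    rw [this, Finset.card_eq_three.2 ⟨_, _, _, hab, hac, hbc, rfl⟩]; rfl
  | p3 a b c hab hac hbc =>
    have : idx [a, b, bar a, bar b, c, b, bar c] = {a.1, b.1, c.1} := by
      ext k; simp [idx, bar]; try tauto
    rw [this, Finset.card_eq_three.2 ⟨_, _, _, hab, hac, hbc, rfl⟩]; rfl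
  | p4 a b c hab hac hbc =>
    have : idx [a, b, bar a, c, a, bar c, bar b] = {a.1, b.1, c.1} := by
      ext k; simp [idx, bar]; try tauto
    rw [this, Finset.card_eq_three.2 ⟨_, _, _, hab, hac, hbc, rfl⟩]; rfl
  | p5 a b c hab hac hbc =>
    have : idx [a, b, c, bar b, bar c, bar a, c] = {a.1, b.1, c.1} := by
      ext k; simp [idx, bar]; try tauto
    rw [this, Finset.card_eq_three.2 ⟨_, _, _, hab, hac, hbc, rfl⟩]; rfl
  | p6 a b c hab hac hbc =>
    have : idx [a, b, c, bar b, bar c, bar a, b] = {a.1, b.1, c.1} := by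
      ext k; simp [idx, bar]; try tauto
    rw [this, Finset.card_eq_three.2 ⟨_, _, _, hab, hac, hbc, rfl⟩]; rfl
  | p7 a b c hab hac hbc =>
    have : idx [a, b, c, bar a, bar c, a, bar b] = {a.1, b.1, c.1} := by
      ext k; simp [idx, bar]; try tauto
    rw [this, Finset.card_eq_three.2 ⟨_, _, _, hab, hac, hbc, rfl⟩]; rfl
  | q1 a b c d hab hac had hbc hbd hcd =>
    have : idx [a, b, bar a, bar b, c, d, bar c, bar d] = {a.1, b.1, c.1, d.1} := by
      ext k; simp [idx, bar]; try tauto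
    rw [this, Finset.card_insert_of_notMem (by simp [hab, hac, had]),
      Finset.card_eq_three.2 ⟨_, _, _, hbc, hbd, hcd, rfl⟩]; rfl
  | q2 a b c d hab hac had hbc hbd hcd =>
    have : idx [a, b, bar a, c, d, bar c, bar d, a] = {a.1, b.1, c.1, d.1} := by
      ext k; simp [idx, bar]; try tauto
    rw [this, Finset.card_insert_of_notMem (by simp [hab, hac, had]),
      Finset.card_eq_three.2 ⟨_, _, _, hbc, hbd, hcd, rfl⟩]; rfl
  | q3 a b c d hab hac had hbc hbd hcd =>
    have : idx [a, b, c, bar b, bar c, bar a, d, a] = {a.1, b.1, c.1, d.1} := by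
      ext k; simp [idx, bar]; try tauto
    rw [this, Finset.card_insert_of_notMem (by simp [hab, hac, had]),
      Finset.card_eq_three.2 ⟨_, _, _, hbc, hbd, hcd, rfl⟩]; rfl
  | q4 a b c d hab hac had hbc hbd hcd =>
    have : idx [a, b, c, d, bar c, bar d, bar b, bar a] = {a.1, b.1, c.1, d.1} := by
      ext k; simp [idx, bar]; try tauto
    rw [this, Finset.card_insert_of_notMem (by simp [hab, hac, had]),
      Finset.card_eq_three.2 ⟨_, _, _, hbc, hbd, hcd, rfl⟩]; rfl

lemma rep_snoc (a : Lt r) (w : Wd r) : FM.rep (w ++ [a]) = FM.rep w + if a.1 ∈ idx w then 1 else 0 := by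
  unfold FM.rep
  have e : idx (w ++ [a]) = insert a.1 (idx w) := by
    rw [idx_append]; ext k; simp [idx_cons]
  rw [e, List.length_append]
  have h := card_idx_le w
  by_cases ha : a.1 ∈ idx w
  · rw [if_pos ha, Finset.insert_eq_of_mem ha, List.length_singleton]; omega
  · rw [if_neg ha, Finset.card_insert_of_notMem ha, List.length_singleton]; omega

/-- The first index of a forbidden word occurs again. -/
lemma Forb.head {a : Lt r} {w : Wd r} (h : Forb (a :: w)) : a.1 ∈ idx w := by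
  obtain ⟨f', h⟩ := h
  generalize hf : a :: w = f at h
  cases h <;> (simp only [List.cons.injEq] at hf; obtain ⟨rfl, rfl⟩ := hf; simp [idx, bar])

/-- The last index of a forbidden word occurs before. -/
lemma Forb.last {a : Lt r} {w : Wd r} (h : Forb (w ++ [a])) : a.1 ∈ idx w := by
  obtain ⟨f', h⟩ := h
  generalize hf : w ++ [a] = f at h
  have e1 : w = f.dropLast := by rw [← hf]; simp
  have e2 : f.getLast? = some a := by rw [← hf]; simp
  cases h <;> (simp only [List.getLast?_cons_cons, List.getLast?_singleton, Option.some.injEq] at e2;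
               rw [e1, ← e2]; simp [idx, bar])

lemma Forb.ne_nil {f : Wd r} (h : Forb f) : f ≠ [] := by
  rcases h.length with h | h <;> (intro e; rw [e] at h; simp at h)

lemma Forb.rep_tail {a : Lt r} {w : Wd r} (h : Forb (a :: w)) : FM.rep w = 3 := by
  have h1 := h.head
  have h2 := h.rep
  rw [rep_cons, if_pos h1] at h2
  omega

lemma Forb.rep_init {a : Lt r} {w : Wd r} (h : Forb (w ++ [a])) : FM.rep w = 3 := by
  have h1 := h.last
  have h2 := h.rep
  rw [rep_snoc, if_pos h1] at h2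
  omega

lemma rd_cc {a b : Lt r} {v : Wd r} (h : a.1 ≠ b.1) (h2 : Rd (b :: v)) : Rd (a :: b :: v) :=
  rd_cons_cons.2 ⟨fun e => h (by rw [e]; rfl), h2⟩

lemma Forb.rd {f : Wd r} (h : Forb f) : Rd f := by
  obtain ⟨f', h⟩ := h
  cases h with
  | p1 a b c hab hac hbc =>
    exact rd_cc hab <| rd_cc hab.symm <| rd_cc hab <| rd_cc hbc <| rd_cc hac.symm <| rd_cc hac
      FreeGroup.IsReduced.singleton
  | p2 a b c hab hac hbc =>
    exact rd_cc hab <| rd_cc hab.symm <| rd_cc hac <| rd_cc hbc.symm <| rd_cc hbc <|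
      rd_cc hbc.symm FreeGroup.IsReduced.singleton
  | p3 a b c hab hac hbc =>
    exact rd_cc hab <| rd_cc hab.symm <| rd_cc hab <| rd_cc hbc <| rd_cc hbc.symm <| rd_cc hbc
      FreeGroup.IsReduced.singleton
  | p4 a b c hab hac hbc =>
    exact rd_cc hab <| rd_cc hab.symm <| rd_cc hac <| rd_cc hac.symm <| rd_cc hac <|
      rd_cc hbc.symm FreeGroup.IsReduced.singleton
  | p5 a b c hab hac hbc =>
    exact rd_cc hab <| rd_cc hbc <| rd_cc hbc.symm <| rd_cc hbc <| rd_cc hac.symm <|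
      rd_cc hac FreeGroup.IsReduced.singleton
  | p6 a b c hab hac hbc =>
    exact rd_cc hab <| rd_cc hbc <| rd_cc hbc.symm <| rd_cc hbc <| rd_cc hac.symm <|
      rd_cc hab FreeGroup.IsReduced.singleton
  | p7 a b c hab hac hbc =>
    exact rd_cc hab <| rd_cc hbc <| rd_cc hac.symm <| rd_cc hac <| rd_cc hac.symm <|
      rd_cc hab FreeGroup.IsReduced.singleton
  | q1 a b c d hab hac had hbc hbd hcd =>
    exact rd_cc hab <| rd_cc hab.symm <| rd_cc hab <| rd_cc hbc <| rd_cc hcd <| rd_cc hcd.symm <|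
      rd_cc hcd FreeGroup.IsReduced.singleton
  | q2 a b c d hab hac had hbc hbd hcd =>
    exact rd_cc hab <| rd_cc hab.symm <| rd_cc hac <| rd_cc hcd <| rd_cc hcd.symm <| rd_cc hcd <|
      rd_cc had.symm FreeGroup.IsReduced.singleton
  | q3 a b c d hab hac had hbc hbd hcd =>
    exact rd_cc hab <| rd_cc hbc <| rd_cc hbc.symm <| rd_cc hbc <| rd_cc hac.symm <| rd_cc had <|
      rd_cc had.symm FreeGroup.IsReduced.singleton
  | q4 a b c d hab hac had hbc hbd hcd =>
    exact rd_cc hab <| rd_cc hbc <| rd_cc hcd <| rd_cc hcd.symm <| rd_cc hcd <| rd_cc hbd.symm <|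
      rd_cc hab.symm FreeGroup.IsReduced.singleton

/-! Counting the forbidden words. -/

/-- Parameters of the forbidden words of length seven. -/
def T3 (r : ℕ) : Finset (Lt r × Lt r × Lt r) :=
  Finset.univ.filter fun x => x.1.1 ≠ x.2.1.1 ∧ x.1.1 ≠ x.2.2.1 ∧ x.2.1.1 ≠ x.2.2.1 ∧ x.2.2.1 < x.1.1

/-- Parameters of the forbidden words of length eight. -/
def T4 (r : ℕ) : Finset (Lt r × Lt r × Lt r × Lt r) :=
  Finset.univ.filter fun x => x.1.1 ≠ x.2.1.1 ∧ x.1.1 ≠ x.2.2.1.1 ∧ x.1.1 ≠ x.2.2.2.1 ∧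
    x.2.1.1 ≠ x.2.2.1.1 ∧ x.2.1.1 ≠ x.2.2.2.1 ∧ x.2.2.1.1 ≠ x.2.2.2.1 ∧ x.2.2.2.1 < x.1.1

/-- The forbidden words of length seven. -/
def m7 (i : Fin 7) (x : Lt r × Lt r × Lt r) : Wd r :=
  match i, x with
  | 0, (a, b, c) => [a, b, bar a, bar b, c, a, bar c]
  | 1, (a, c, b) => [a, b, bar a, c, bar b, bar c, b]
  | 2, (a, b, c) => [a, b, bar a, bar b, c, b, bar c]
  | 3, (a, c, b) => [a, b, bar a, c, a, bar c, bar b]
  | 4, (a, b, c) => [a, b, c, bar b, bar c, bar a, c]
  | 5, (a, c, b) => [a, b, c, bar b, bar c, bar a, b]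
  | 6, (a, c, b) => [a, b, c, bar a, bar c, a, bar b]

/-- The forbidden words of length eight. -/
def m8 (i : Fin 4) (x : Lt r × Lt r × Lt r × Lt r) : Wd r :=
  match i, x with
  | 0, (a, b, d, c) => [a, b, bar a, bar b, c, d, bar c, bar d]
  | 1, (a, c, d, b) => [a, b, bar a, c, d, bar c, bar d, a]
  | 2, (a, b, c, d) => [a, b, c, bar b, bar c, bar a, d, a]
  | 3, (a, c, d, b) => [a, b, c, d, bar c, bar d, bar b, bar a]

lemma m7_inj (i j : Fin 7) (x y : Lt r × Lt r × Lt r) (hx : x ∈ T3 r) (hy : y ∈ T3 r)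
    (h : m7 i x = m7 j y) : i = j ∧ x = y := by
  obtain ⟨a, b, c⟩ := x
  obtain ⟨a', b', c'⟩ := y
  simp only [T3, Finset.mem_filter, Finset.mem_univ, true_and] at hx hy
  obtain ⟨h1, h2, h3, -⟩ := hx
  obtain ⟨h1', h2', h3', -⟩ := hy
  have h' := congrArg (List.map Prod.fst) h
  fin_cases i <;> fin_cases j <;>
    simp only [m7, List.map_cons, List.map_nil, bar, List.cons.injEq, and_true] at h h' ⊢ <;>
    first
      | (refine ⟨trivial, ?_⟩; simp only [h])
      | (exfalso; obtain ⟨e1, e2, e3, e4, e5, e6, e7⟩ := h'; grind)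

lemma m8_inj (i j : Fin 4) (x y : Lt r × Lt r × Lt r × Lt r) (hx : x ∈ T4 r) (hy : y ∈ T4 r)
    (h : m8 i x = m8 j y) : i = j ∧ x = y := by
  obtain ⟨a, b, c, d⟩ := x
  obtain ⟨a', b', c', d'⟩ := y
  simp only [T4, Finset.mem_filter, Finset.mem_univ, true_and] at hx hy
  obtain ⟨h1, h2, h3, h4, h5, h6, -⟩ := hx
  obtain ⟨h1', h2', h3', h4', h5', h6', -⟩ := hy
  have h' := congrArg (List.map Prod.fst) h
  fin_cases i <;> fin_cases j <;>
    simp only [m8, List.map_cons, List.map_nil, bar, List.cons.injEq, and_true] at h h' ⊢ <;>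
    first
      | (refine ⟨trivial, ?_⟩; simp only [h])
      | (exfalso; obtain ⟨e1, e2, e3, e4, e5, e6, e7, e8⟩ := h'; grind)

lemma forb7_iff {f : Wd r} : (f.length = 7 ∧ Forb f) ↔ ∃ i, ∃ x ∈ T3 r, m7 i x = f := by
  constructor
  · rintro ⟨hl, f', h⟩
    cases h with
    | p1 a b c hab hac hbc h => exact ⟨0, (a, b, c), by simp [T3, hab, hac, hbc, h], rfl⟩
    | p2 a b c hab hac hbc h => exact ⟨1, (a, c, b), by simp [T3, hab, hac, hbc.symm, h], rfl⟩
    | p3 a b c hab hac hbc h => exact ⟨2, (a, b, c), by simp [T3, hab, hac, hbc, h], rfl⟩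
    | p4 a b c hab hac hbc h => exact ⟨3, (a, c, b), by simp [T3, hab, hac, hbc.symm, h], rfl⟩
    | p5 a b c hab hac hbc h => exact ⟨4, (a, b, c), by simp [T3, hab, hac, hbc, h], rfl⟩
    | p6 a b c hab hac hbc h => exact ⟨5, (a, c, b), by simp [T3, hab, hac, hbc.symm, h], rfl⟩
    | p7 a b c hab hac hbc h => exact ⟨6, (a, c, b), by simp [T3, hab, hac, hbc.symm, h], rfl⟩
    | q1 a b c d => simp at hl
    | q2 a b c d => simp at hl
    | q3 a b c d => simp at hl
    | q4 a b c d => simp at hl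
  · rintro ⟨i, ⟨a, b, c⟩, hx, rfl⟩
    simp only [T3, Finset.mem_filter, Finset.mem_univ, true_and] at hx
    obtain ⟨h1, h2, h3, h4⟩ := hx
    fin_cases i
    · exact ⟨rfl, _, .p1 a b c h1 h2 h3 h4⟩
    · exact ⟨rfl, _, .p2 a c b h2 h1 (Ne.symm h3) h4⟩
    · exact ⟨rfl, _, .p3 a b c h1 h2 h3 h4⟩
    · exact ⟨rfl, _, .p4 a c b h2 h1 (Ne.symm h3) h4⟩
    · exact ⟨rfl, _, .p5 a b c h1 h2 h3 h4⟩
    · exact ⟨rfl, _, .p6 a c b h2 h1 (Ne.symm h3) h4⟩
    · exact ⟨rfl, _, .p7 a c b h2 h1 (Ne.symm h3) h4⟩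

lemma forb8_iff {f : Wd r} : (f.length = 8 ∧ Forb f) ↔ ∃ i, ∃ x ∈ T4 r, m8 i x = f := by
  constructor
  · rintro ⟨hl, f', h⟩
    cases h with
    | p1 a b c => simp at hl
    | p2 a b c => simp at hl
    | p3 a b c => simp at hl
    | p4 a b c => simp at hl
    | p5 a b c => simp at hl
    | p6 a b c => simp at hl
    | p7 a b c => simp at hl
    | q1 a b c d hab hac had hbc hbd hcd h =>
      exact ⟨0, (a, b, d, c), by simp [T4, hab, hac, had, hbc, hbd, hcd.symm, h], rfl⟩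
    | q2 a b c d hab hac had hbc hbd hcd h =>
      exact ⟨1, (a, c, d, b), by simp [T4, hab, hac, had, hbc.symm, hbd.symm, hcd, h], rfl⟩
    | q3 a b c d hab hac had hbc hbd hcd h =>
      exact ⟨2, (a, b, c, d), by simp [T4, hab, hac, had, hbc, hbd, hcd, h], rfl⟩
    | q4 a b c d hab hac had hbc hbd hcd h =>
      exact ⟨3, (a, c, d, b), by simp [T4, hab, hac, had, hbc.symm, hbd.symm, hcd, h], rfl⟩
  · rintro ⟨i, ⟨a, b, c, d⟩, hx, rfl⟩
    simp only [T4, Finset.mem_filter, Finset.mem_univ, true_and] at hx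
    obtain ⟨h1, h2, h3, h4, h5, h6, h7⟩ := hx
    fin_cases i
    · exact ⟨rfl, _, .q1 a b d c h1 h3 h2 h5 h4 (Ne.symm h6) h7⟩
    · exact ⟨rfl, _, .q2 a d b c h3 h1 h2 (Ne.symm h5) (Ne.symm h6) h4 h7⟩
    · exact ⟨rfl, _, .q3 a b c d h1 h2 h3 h4 h5 h6 h7⟩
    · exact ⟨rfl, _, .q4 a d b c h3 h1 h2 (Ne.symm h5) (Ne.symm h6) h4 h7⟩

open Classical in
lemma num_eq_card (n : ℕ) (C : Wd r → Prop) : num r n C = ((W r n).filter C).card := by
  rw [num_def', Finset.card_filter]
  push_cast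
  rfl

lemma num_forb7_card : num r 7 Forb = 7 * ((T3 r).card : ℝ) := by
  classical
  rw [num_eq_card]
  have : (W r 7).filter Forb = ((Finset.univ : Finset (Fin 7)) ×ˢ T3 r).image fun x => m7 x.1 x.2 := by
    ext f
    rw [Finset.mem_filter, mem_W, forb7_iff, Finset.mem_image]
    constructor
    · rintro ⟨i, x, hx, rfl⟩
      exact ⟨(i, x), by simp [hx], rfl⟩
    · rintro ⟨⟨i, x⟩, hx, rfl⟩
      exact ⟨i, x, by simpa using hx, rfl⟩
  rw [this, Finset.card_image_of_injOn, Finset.card_product]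
  · simp
  · rintro ⟨i, x⟩ hx ⟨j, y⟩ hy h
    have := m7_inj i j x y (by simpa using hx) (by simpa using hy) h
    rw [this.1, this.2]

lemma num_forb8_card : num r 8 Forb = 4 * ((T4 r).card : ℝ) := by
  classical
  rw [num_eq_card]
  have : (W r 8).filter Forb = ((Finset.univ : Finset (Fin 4)) ×ˢ T4 r).image fun x => m8 x.1 x.2 := by
    ext f
    rw [Finset.mem_filter, mem_W, forb8_iff, Finset.mem_image]
    constructor
    · rintro ⟨i, x, hx, rfl⟩
      exact ⟨(i, x), by simp [hx], rfl⟩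
    · rintro ⟨⟨i, x⟩, hx, rfl⟩
      exact ⟨i, x, by simpa using hx, rfl⟩
  rw [this, Finset.card_image_of_injOn, Finset.card_product]
  · simp
  · rintro ⟨i, x⟩ hx ⟨j, y⟩ hy h
    have := m8_inj i j x y (by simpa using hx) (by simpa using hy) h
    rw [this.1, this.2]

lemma card_avoid (S : Finset (Fin r)) :
    ((Finset.univ : Finset (Lt r)).filter fun x => x.1 ∉ S).card = 2 * (r - S.card) := by
  have : ((Finset.univ : Finset (Lt r)).filter fun x => x.1 ∉ S) = Sᶜ ×ˢ (Finset.univ : Finset Bool) := by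
    ext ⟨i, b⟩; simp
  rw [this, Finset.card_product, Finset.card_compl, Fintype.card_fin]
  simp [mul_comm]

lemma card_pairs : ((Finset.univ : Finset (Lt r × Lt r)).filter fun x => x.2.1 < x.1.1).card
    = 2 * r * (r - 1) := by
  have h1 : ((Finset.univ : Finset (Lt r × Lt r)).filter fun x => x.2.1 < x.1.1).card
      = ∑ a : Lt r, ((Finset.univ : Finset (Lt r)).filter fun x => x.1 < a.1).card := by
    rw [Finset.card_filter, Fintype.sum_prod_type]
    exact Finset.sum_congr rfl fun a _ => by rw [Finset.card_filter]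
  have h2 : ∀ a : Lt r, ((Finset.univ : Finset (Lt r)).filter fun x => x.1 < a.1).card
      = 2 * (a.1 : ℕ) := by
    intro a
    have : ((Finset.univ : Finset (Lt r)).filter fun x => x.1 < a.1)
        = (Finset.Iio a.1) ×ˢ (Finset.univ : Finset Bool) := by
      ext ⟨i, b⟩; simp
    rw [this, Finset.card_product, Fin.card_Iio]
    simp [mul_comm]
  rw [h1, Finset.sum_congr rfl fun a _ => h2 a, Fintype.sum_prod_type]
  simp only [Finset.sum_const, Finset.card_univ, Fintype.card_bool, smul_eq_mul]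
  rw [← Finset.mul_sum, ← Finset.mul_sum, Fin.sum_univ_eq_sum_range (fun i => i) r]
  have := Finset.sum_range_id_mul_two r
  calc 2 * (2 * ∑ i ∈ range r, i) = 2 * ((∑ i ∈ range r, i) * 2) := by ring
    _ = 2 * r * (r - 1) := by rw [this]; ring

lemma card_T3 : (T3 r).card = 2 * r * (r - 1) * (2 * (r - 2)) := by
  rw [← card_pairs, ← smul_eq_mul]
  have h1 : (T3 r).card = ∑ y : Lt r × Lt r, ((T3 r).filter fun x => (x.1, x.2.2) = y).card :=
    Finset.card_eq_sum_card_fiberwise (fun _ _ => Finset.mem_univ _)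
  rw [h1, ← Finset.sum_const, Finset.sum_filter]
  apply Finset.sum_congr rfl
  rintro ⟨a, c⟩ -
  by_cases h : c.1 < a.1
  · rw [if_pos h]
    have e : ((T3 r).filter fun x => (x.1, x.2.2) = (a, c))
        = ((Finset.univ : Finset (Lt r)).filter fun x => x.1 ∉ ({a.1, c.1} : Finset (Fin r))).image
          fun b => (a, b, c) := by
      ext ⟨a', b, c'⟩
      simp only [T3, Finset.mem_filter, Finset.mem_univ, true_and, Finset.mem_image, Prod.mk.injEq,
        Finset.mem_insert, Finset.mem_singleton, not_or]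
      constructor
      · rintro ⟨⟨h1, h2, h3, h4⟩, rfl, rfl⟩
        exact ⟨b, ⟨Ne.symm h1, h3⟩, rfl, rfl, rfl⟩
      · rintro ⟨b', ⟨h1, h2⟩, rfl, rfl, rfl⟩
        exact ⟨⟨Ne.symm h1, h.ne', h2, h⟩, rfl, rfl⟩
    rw [e, Finset.card_image_of_injective, card_avoid, Finset.card_pair h.ne']
    intro b b' hb
    simpa using hb
  · rw [if_neg h, Finset.card_eq_zero, Finset.filter_eq_empty_iff]
    rintro ⟨a', b, c'⟩ hx e
    simp only [Prod.mk.injEq] at e
    obtain ⟨rfl, rfl⟩ := e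
    simp only [T3, Finset.mem_filter, Finset.mem_univ, true_and] at hx
    exact h hx.2.2.2

lemma card_T4 : (T4 r).card = 2 * r * (r - 1) * (2 * (r - 2)) * (2 * (r - 3)) := by
  rw [← card_T3, ← smul_eq_mul]
  have h1 : (T4 r).card = ∑ y ∈ T3 r, ((T4 r).filter fun x => (x.1, x.2.1, x.2.2.2) = y).card := by
    apply Finset.card_eq_sum_card_fiberwise
    rintro ⟨a, b, d, c⟩ hx
    simp only [T4, Finset.coe_filter, Finset.mem_univ, true_and, Set.mem_setOf_eq] at hx
    simp only [T3, Finset.coe_filter, Finset.mem_univ, true_and, Set.mem_setOf_eq]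
    exact ⟨hx.1, hx.2.2.1, hx.2.2.2.2.1, hx.2.2.2.2.2.2⟩
  rw [h1, ← Finset.sum_const]
  apply Finset.sum_congr rfl
  rintro ⟨a, b, c⟩ hx
  simp only [T3, Finset.mem_filter, Finset.mem_univ, true_and] at hx
  obtain ⟨h1, h2, h3, h4⟩ := hx
  have e : ((T4 r).filter fun x => (x.1, x.2.1, x.2.2.2) = (a, b, c))
      = ((Finset.univ : Finset (Lt r)).filter
          fun x => x.1 ∉ ({a.1, b.1, c.1} : Finset (Fin r))).image
        fun d => (a, b, d, c) := by
    ext ⟨a', b', d, c'⟩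
    simp only [T4, Finset.mem_filter, Finset.mem_univ, true_and, Finset.mem_image, Prod.mk.injEq,
      Finset.mem_insert, Finset.mem_singleton, not_or]
    constructor
    · rintro ⟨⟨g1, g2, g3, g4, g5, g6, g7⟩, rfl, rfl, rfl⟩
      exact ⟨d, ⟨Ne.symm g2, Ne.symm g4, g6⟩, rfl, rfl, rfl, rfl⟩
    · rintro ⟨b', ⟨g1, g2, g3⟩, rfl, rfl, rfl, rfl⟩
      exact ⟨⟨h1, Ne.symm g1, h2, Ne.symm g2, h3, g3, h4⟩, rfl, rfl, rfl⟩
  rw [e, Finset.card_image_of_injective, card_avoid,
    Finset.card_eq_three.2 ⟨_, _, _, h1, h2, h3, rfl⟩]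
  intro b b' hb
  simpa using hb

lemma num_forb7 (hr : 3 ≤ r) : num r 7 Forb = 28 * r * (r - 1) * (r - 2) := by
  rw [num_forb7_card, card_T3]
  push_cast [show 1 ≤ r by omega, show 2 ≤ r by omega]
  ring

lemma num_forb8 (hr : 3 ≤ r) : num r 8 Forb = 32 * r * (r - 1) * (r - 2) * (r - 3) := by
  rw [num_forb8_card, card_T4]
  push_cast [show 1 ≤ r by omega, show 2 ≤ r by omega, hr]
  ring

end Pool.Agent.Helper62.FM
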