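import Pool.Agent.Helper62.FM.Basic

/-!
The flow of a word depends only on the element of the free metabelian group it represents;
products and inverses in terms of words.
-/

namespace Pool.Agent.Helper62.FM

open Finset
open scoped commutatorElement

variable {r : ℕ}

/-- The group of pairs (position, flow). -/
@[ext] structure MG (r : ℕ) where
  /-- the position -/
  pos : Pt r
  /-- the flow -/
  f : Pt r → Lt r → ℤ

namespace MG

instance : Mul (MG r) := ⟨fun x y => ⟨x.pos + y.pos, fun p a => x.f p a + y.f (p - x.pos) a⟩⟩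
instance : One (MG r) := ⟨⟨0, fun _ _ => 0⟩⟩
instance : Inv (MG r) := ⟨fun x => ⟨-x.pos, fun p a => - x.f (p + x.pos) a⟩⟩

@[simp] lemma mul_pos (x y : MG r) : (x * y).pos = x.pos + y.pos := rfl
@[simp] lemma mul_f (x y : MG r) : (x * y).f = fun p a => x.f p a + y.f (p - x.pos) a := rfl
@[simp] lemma one_pos : (1 : MG r).pos = 0 := rfl
@[simp] lemma one_f : (1 : MG r).f = fun _ _ => 0 := rfl
@[simp] lemma inv_pos (x : MG r) : (x⁻¹).pos = -x.pos := rfl
@[simp] lemma inv_f (x : MG r) : (x⁻¹).f = fun p a => - x.f (p + x.pos) a := rfl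

instance : Group (MG r) := Group.ofLeftAxioms
  (by
    intro x y z
    ext p a
    · simp [add_assoc]
    · simp [add_assoc, sub_sub])
  (by
    intro x
    ext p a
    · simp
    · simp)
  (by
    intro x
    ext p a
    · simp
    · simp)

/-- The abelian normal subgroup of elements with position `0`. -/
def K (r : ℕ) : Subgroup (MG r) where
  carrier := {x | x.pos = 0}
  mul_mem' := by
    intro x y hx hy
    simp only [Set.mem_ofPred_eq] at *
    simp [hx, hy]
  one_mem' := by simp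
  inv_mem' := by
    intro x hx
    simp only [Set.mem_ofPred_eq] at *
    simp [hx]

lemma mem_K {x : MG r} : x ∈ K r ↔ x.pos = 0 := Iff.rfl

lemma comm_of_mem_K {x y : MG r} (hx : x ∈ K r) (hy : y ∈ K r) : x * y = y * x := by
  rw [mem_K] at hx hy
  ext p a
  · simp [hx, hy]
  · simp [hx, hy, add_comm]

lemma derived_one_le : derivedSeries (MG r) 1 ≤ K r := by
  rw [derivedSeries_succ, Subgroup.commutator_le]
  intro x _ y _
  rw [mem_K, commutatorElement_def]
  simp

lemma derived_two : derivedSeries (MG r) 2 = ⊥ := by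
  rw [eq_bot_iff, derivedSeries_succ, Subgroup.commutator_le]
  intro x hx y hy
  rw [Subgroup.mem_bot, commutatorElement_eq_one_iff_mul_comm]
  exact comm_of_mem_K (derived_one_le hx) (derived_one_le hy)

end MG

/-- The element of `MG` given by a word. -/
def mg (w : Wd r) : MG r := ⟨disp w, fl w⟩

lemma mg_append (u v : Wd r) : mg (u ++ v) = mg u * mg v := by
  ext p a
  · simp [mg, disp_append]
  · simp [mg, fl_append]

lemma mg_nil : mg ([] : Wd r) = 1 := by
  ext p a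
  · simp [mg]
  · simp [mg]

/-- The homomorphism from the free group. -/
def hom (r : ℕ) : FreeGroup (Fin r) →* MG r := FreeGroup.lift fun i => mg [(i, true)]

lemma mg_single_inv (i : Fin r) : mg [(i, false)] = (mg [((i, true) : Lt r)])⁻¹ := by
  rw [eq_inv_iff_mul_eq_one, ← mg_append]
  ext p a
  · have h1 : step ((i, false) : Lt r) = - step ((i, true) : Lt r) := by
      rw [← step_bar]; rfl
    simp [mg, h1]
  · have h1 : step ((i, false) : Lt r) = - step ((i, true) : Lt r) := by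
      rw [← step_bar]; rfl
    have e1 : (p = 0 ∧ a = ((i, false) : Lt r)) ↔
        (p - step ((i, false) : Lt r) = step ((i, true) : Lt r) ∧ a = bar ((i, true) : Lt r)) := by
      rw [h1, sub_neg_eq_add, add_eq_right]; rfl
    have e2 : (p = step ((i, false) : Lt r) ∧ a = bar ((i, false) : Lt r)) ↔
        (p - step ((i, false) : Lt r) = 0 ∧ a = ((i, true) : Lt r)) := by
      rw [sub_eq_zero]; rfl
    simp only [mg, List.cons_append, List.nil_append, fl_cons, fl_nil, MG.one_f]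
    simp only [e1, e2]
    ring

lemma hom_mk (w : Wd r) : hom r (FreeGroup.mk w) = mg w := by
  induction w with
  | nil => rw [mg_nil]; exact map_one _
  | cons a w ih =>
    have h1 : FreeGroup.mk (a :: w) = FreeGroup.mk [a] * FreeGroup.mk w := by
      rw [FreeGroup.mul_mk]; rfl
    have h2 : mg (a :: w) = mg [a] * mg w := by rw [← mg_append]; rfl
    rw [h1, map_mul, ih, h2]
    congr 1
    obtain ⟨i, b⟩ := a
    cases b
    · rw [mg_single_inv]
      simp [hom, FreeGroup.lift_mk]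
    · simp [hom, FreeGroup.lift_mk]

lemma fl_eq_of_el_eq {u w : Wd r} (h : el u = el w) : fl u = fl w := by
  unfold el at h
  rw [QuotientGroup.eq] at h
  have h1 : hom r ((FreeGroup.mk u)⁻¹ * FreeGroup.mk w) ∈ derivedSeries (MG r) 2 :=
    map_derivedSeries_le_derivedSeries (hom r) 2 (Subgroup.mem_map_of_mem _ h)
  rw [MG.derived_two, Subgroup.mem_bot, map_mul, map_inv, hom_mk, hom_mk,
    inv_mul_eq_one] at h1
  have := congrArg MG.f h1
  simpa [mg] using this

lemma fl_eq_of_mk_eq {u w : Wd r} (h : FreeGroup.mk u = FreeGroup.mk w) : fl u = fl w := by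
  apply fl_eq_of_el_eq
  unfold el
  rw [h]

lemma el_append (u v : Wd r) : el (u ++ v) = el u * el v := by
  unfold el
  rw [← FreeGroup.mul_mk]; rfl

lemma el_nil : el ([] : Wd r) = 1 := rfl

lemma el_surj (g : FMet r) : ∃ w : Wd r, el w = g := by
  obtain ⟨x, rfl⟩ := QuotientGroup.mk_surjective g
  exact ⟨x.toWord, by unfold el; rw [FreeGroup.mk_toWord]⟩

lemma el_rv (w : Wd r) : el (rv w) = (el w)⁻¹ := by
  rw [rv_eq_invRev]
  unfold el
  rw [← FreeGroup.inv_mk]; rfl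

/-! Relations. -/

lemma comm_of_mem {x y : FMet r} (hx : x ∈ commutator (FMet r)) (hy : y ∈ commutator (FMet r)) :
    x * y = y * x := by
  have h1 : derivedSeries (FMet r) 2 = ⊥ := by
    have := map_derivedSeries_eq (f := QuotientGroup.mk' (derivedSeries (FreeGroup (Fin r)) 2))
      (QuotientGroup.mk'_surjective _) 2
    rw [← this, Subgroup.map_eq_bot_iff, QuotientGroup.ker_mk']
  have h3 : derivedSeries (FMet r) 2 = ⁅derivedSeries (FMet r) 1, derivedSeries (FMet r) 1⁆ :=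
    derivedSeries_succ _ 1
  have h4 : derivedSeries (FMet r) 1 = commutator (FMet r) := derivedSeries_one _
  have h2 : ⁅x, y⁆ ∈ derivedSeries (FMet r) 2 := by
    rw [h3, h4]
    exact Subgroup.commutator_mem_commutator hx hy
  rw [h1, Subgroup.mem_bot, commutatorElement_eq_one_iff_mul_comm] at h2
  exact h2

lemma comm_mem (x y : FMet r) : x * y * x⁻¹ * y⁻¹ ∈ commutator (FMet r) := by
  rw [← commutatorElement_def, commutator_def]
  exact Subgroup.commutator_mem_commutator (Subgroup.mem_top _) (Subgroup.mem_top _)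

lemma conj_mem {m : FMet r} (h : m ∈ commutator (FMet r)) (x : FMet r) :
    x * m * x⁻¹ ∈ commutator (FMet r) :=
  (inferInstance : (commutator (FMet r)).Normal).conj_mem m h x

lemma conj_eq {k m : FMet r} (hk : k ∈ commutator (FMet r)) (hm : m ∈ commutator (FMet r)) :
    k * m * k⁻¹ = m := by
  rw [comm_of_mem hk hm]; group

lemma rel1 (a b c : FMet r) :
    a * b * a⁻¹ * b⁻¹ * c * a * c⁻¹ = c * a * c⁻¹ * b * a⁻¹ * b⁻¹ * a := by
  have h := comm_of_mem (comm_mem a b) (comm_mem c a)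
  calc a * b * a⁻¹ * b⁻¹ * c * a * c⁻¹
      = (a * b * a⁻¹ * b⁻¹) * (c * a * c⁻¹ * a⁻¹) * a := by group
    _ = (c * a * c⁻¹ * a⁻¹) * (a * b * a⁻¹ * b⁻¹) * a := by rw [h]
    _ = _ := by group

lemma rel3 (a b c : FMet r) :
    a * b * a⁻¹ * b⁻¹ * c * b * c⁻¹ = c * b * c⁻¹ * b⁻¹ * a * b * a⁻¹ := by
  have h := comm_of_mem (comm_mem a b) (comm_mem c b)
  calc a * b * a⁻¹ * b⁻¹ * c * b * c⁻¹
      = (a * b * a⁻¹ * b⁻¹) * (c * b * c⁻¹ * b⁻¹) * b := by group
    _ = (c * b * c⁻¹ * b⁻¹) * (a * b * a⁻¹ * b⁻¹) * b := by rw [h]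
    _ = _ := by group

lemma rel4 (a b c : FMet r) :
    a * b * a⁻¹ * c * a * c⁻¹ * b⁻¹ = b * c * a * c⁻¹ * a⁻¹ * b⁻¹ * a := by
  have h := conj_eq (comm_mem a b) (conj_mem (comm_mem c a) b)
  calc a * b * a⁻¹ * c * a * c⁻¹ * b⁻¹
      = ((a * b * a⁻¹ * b⁻¹) * (b * (c * a * c⁻¹ * a⁻¹) * b⁻¹) * (a * b * a⁻¹ * b⁻¹)⁻¹) * a := by
        group
    _ = (b * (c * a * c⁻¹ * a⁻¹) * b⁻¹) * a := by rw [h]
    _ = _ := by group

lemma rel6 (x y z : FMet r) :
    x * y * z * y⁻¹ * z⁻¹ * x⁻¹ * y = y * x * z * y⁻¹ * z⁻¹ * y * x⁻¹ := by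
  have h := conj_eq (comm_mem y x) (conj_mem (comm_mem y z) x)
  calc x * y * z * y⁻¹ * z⁻¹ * x⁻¹ * y
      = (x * (y * z * y⁻¹ * z⁻¹) * x⁻¹) * y := by group
    _ = ((y * x * y⁻¹ * x⁻¹) * (x * (y * z * y⁻¹ * z⁻¹) * x⁻¹) * (y * x * y⁻¹ * x⁻¹)⁻¹) * y := by
        rw [h]
    _ = _ := by group

lemma relq1 (a b c d : FMet r) :
    a * b * a⁻¹ * b⁻¹ * c * d * c⁻¹ * d⁻¹ = c * d * c⁻¹ * d⁻¹ * a * b * a⁻¹ * b⁻¹ := by
  have h := comm_of_mem (comm_mem a b) (comm_mem c d)
  calc _ = (a * b * a⁻¹ * b⁻¹) * (c * d * c⁻¹ * d⁻¹) := by group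
    _ = (c * d * c⁻¹ * d⁻¹) * (a * b * a⁻¹ * b⁻¹) := by rw [h]
    _ = _ := by group

lemma relq2 (x y z w : FMet r) :
    x * y * x⁻¹ * z * w * z⁻¹ * w⁻¹ * x = y * z * w * z⁻¹ * w⁻¹ * y⁻¹ * x * y := by
  have h := conj_eq (comm_mem x y) (conj_mem (comm_mem z w) y)
  calc _ = ((x * y * x⁻¹ * y⁻¹) * (y * (z * w * z⁻¹ * w⁻¹) * y⁻¹) * (x * y * x⁻¹ * y⁻¹)⁻¹)
        * x * y := by group
    _ = (y * (z * w * z⁻¹ * w⁻¹) * y⁻¹) * x * y := by rw [h]
    _ = _ := by group

lemma relq4 (x y z w : FMet r) :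
    x * y * z * w * z⁻¹ * w⁻¹ * y⁻¹ * x⁻¹ = y * x * z * w * z⁻¹ * w⁻¹ * x⁻¹ * y⁻¹ := by
  have h := conj_eq (comm_mem x y) (conj_mem (comm_mem z w) (y * x))
  calc _ = (x * y * x⁻¹ * y⁻¹) * ((y * x) * (z * w * z⁻¹ * w⁻¹) * (y * x)⁻¹)
        * (x * y * x⁻¹ * y⁻¹)⁻¹ := by group
    _ = ((y * x) * (z * w * z⁻¹ * w⁻¹) * (y * x)⁻¹) := by rw [h]
    _ = _ := by group

lemma el_cons (a : Lt r) (w : Wd r) : el (a :: w) = el [a] * el w := by
  rw [← el_append]; rfl

lemma el_prod (w : Wd r) : el w = (w.map fun a => el [a]).prod := by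
  induction w with
  | nil => exact el_nil
  | cons a w ih => rw [el_cons, ih, List.map_cons, List.prod_cons]

lemma el_bar (a : Lt r) : el [bar a] = (el [a])⁻¹ := by
  rw [← el_rv]; rfl

/-- The table of forbidden words (first entry) and their replacements (second entry). -/
inductive FP : Wd r → Wd r → Prop
  | p1 (a b c : Lt r) (hab : a.1 ≠ b.1) (hac : a.1 ≠ c.1) (hbc : b.1 ≠ c.1) (h : c.1 < a.1) :
      FP [a, b, bar a, bar b, c, a, bar c] [c, a, bar c, b, bar a, bar b, a]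
  | p2 (a b c : Lt r) (hab : a.1 ≠ b.1) (hac : a.1 ≠ c.1) (hbc : b.1 ≠ c.1) (h : b.1 < a.1) :
      FP [a, b, bar a, c, bar b, bar c, b] [b, c, bar b, bar c, a, b, bar a]
  | p3 (a b c : Lt r) (hab : a.1 ≠ b.1) (hac : a.1 ≠ c.1) (hbc : b.1 ≠ c.1) (h : c.1 < a.1) :
      FP [a, b, bar a, bar b, c, b, bar c] [c, b, bar c, bar b, a, b, bar a]
  | p4 (a b c : Lt r) (hab : a.1 ≠ b.1) (hac : a.1 ≠ c.1) (hbc : b.1 ≠ c.1) (h : b.1 < a.1) :
      FP [a, b, bar a, c, a, bar c, bar b] [b, c, a, bar c, bar a, bar b, a]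
  | p5 (a b c : Lt r) (hab : a.1 ≠ b.1) (hac : a.1 ≠ c.1) (hbc : b.1 ≠ c.1) (h : c.1 < a.1) :
      FP [a, b, c, bar b, bar c, bar a, c] [c, a, bar c, b, c, bar b, bar a]
  | p6 (a b c : Lt r) (hab : a.1 ≠ b.1) (hac : a.1 ≠ c.1) (hbc : b.1 ≠ c.1) (h : b.1 < a.1) :
      FP [a, b, c, bar b, bar c, bar a, b] [b, a, c, bar b, bar c, b, bar a]
  | p7 (a b c : Lt r) (hab : a.1 ≠ b.1) (hac : a.1 ≠ c.1) (hbc : b.1 ≠ c.1) (h : b.1 < a.1) :
      FP [a, b, c, bar a, bar c, a, bar b] [b, a, c, bar a, bar c, bar b, a]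
  | q1 (a b c d : Lt r) (hab : a.1 ≠ b.1) (hac : a.1 ≠ c.1) (had : a.1 ≠ d.1) (hbc : b.1 ≠ c.1)
      (hbd : b.1 ≠ d.1) (hcd : c.1 ≠ d.1) (h : c.1 < a.1) :
      FP [a, b, bar a, bar b, c, d, bar c, bar d] [c, d, bar c, bar d, a, b, bar a, bar b]
  | q2 (a b c d : Lt r) (hab : a.1 ≠ b.1) (hac : a.1 ≠ c.1) (had : a.1 ≠ d.1) (hbc : b.1 ≠ c.1)
      (hbd : b.1 ≠ d.1) (hcd : c.1 ≠ d.1) (h : b.1 < a.1) :
      FP [a, b, bar a, c, d, bar c, bar d, a] [b, c, d, bar c, bar d, bar b, a, b]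
  | q3 (a b c d : Lt r) (hab : a.1 ≠ b.1) (hac : a.1 ≠ c.1) (had : a.1 ≠ d.1) (hbc : b.1 ≠ c.1)
      (hbd : b.1 ≠ d.1) (hcd : c.1 ≠ d.1) (h : d.1 < a.1) :
      FP [a, b, c, bar b, bar c, bar a, d, a] [d, a, bar d, b, c, bar b, bar c, d]
  | q4 (a b c d : Lt r) (hab : a.1 ≠ b.1) (hac : a.1 ≠ c.1) (had : a.1 ≠ d.1) (hbc : b.1 ≠ c.1)
      (hbd : b.1 ≠ d.1) (hcd : c.1 ≠ d.1) (h : b.1 < a.1) :
      FP [a, b, c, d, bar c, bar d, bar b, bar a] [b, a, c, d, bar c, bar d, bar a, bar b]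

lemma el_eq_of_FP {u v : Wd r} (h : FP u v) : el u = el v := by
  rw [el_prod, el_prod]
  cases h with
  | p1 a b c =>
    simpa only [List.map_cons, List.map_nil, List.prod_cons, List.prod_nil, el_bar, mul_one,
      mul_assoc] using rel1 (el [a]) (el [b]) (el [c])
  | p2 a b c =>
    simpa only [List.map_cons, List.map_nil, List.prod_cons, List.prod_nil, el_bar, mul_one,
      mul_assoc] using (rel1 (el [b]) (el [c]) (el [a])).symm
  | p3 a b c =>
    simpa only [List.map_cons, List.map_nil, List.prod_cons, List.prod_nil, el_bar, mul_one,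
      mul_assoc] using rel3 (el [a]) (el [b]) (el [c])
  | p4 a b c =>
    simpa only [List.map_cons, List.map_nil, List.prod_cons, List.prod_nil, el_bar, mul_one,
      mul_assoc] using rel4 (el [a]) (el [b]) (el [c])
  | p5 a b c =>
    simpa only [List.map_cons, List.map_nil, List.prod_cons, List.prod_nil, el_bar, mul_one,
      mul_assoc] using (rel4 (el [c]) (el [a]) (el [b])).symm
  | p6 a b c =>
    simpa only [List.map_cons, List.map_nil, List.prod_cons, List.prod_nil, el_bar, mul_one,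
      mul_assoc] using rel6 (el [a]) (el [b]) (el [c])
  | p7 a b c =>
    simpa only [List.map_cons, List.map_nil, List.prod_cons, List.prod_nil, el_bar, mul_one,
      mul_assoc] using (rel6 (el [b]) (el [a]) (el [c])).symm
  | q1 a b c d =>
    simpa only [List.map_cons, List.map_nil, List.prod_cons, List.prod_nil, el_bar, mul_one,
      mul_assoc] using relq1 (el [a]) (el [b]) (el [c]) (el [d])
  | q2 a b c d =>
    simpa only [List.map_cons, List.map_nil, List.prod_cons, List.prod_nil, el_bar, mul_one,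
      mul_assoc] using relq2 (el [a]) (el [b]) (el [c]) (el [d])
  | q3 a b c d =>
    simpa only [List.map_cons, List.map_nil, List.prod_cons, List.prod_nil, el_bar, mul_one,
      mul_assoc] using (relq2 (el [d]) (el [a]) (el [b]) (el [c])).symm
  | q4 a b c d =>
    simpa only [List.map_cons, List.map_nil, List.prod_cons, List.prod_nil, el_bar, mul_one,
      mul_assoc] using relq4 (el [a]) (el [b]) (el [c]) (el [d])

end Pool.Agent.Helper62.FM
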