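import Pool.Agent.Helper62.FM.CL

/-!
Local-to-global injectivity: the class of good words is determined by the flow.
-/

namespace Pool.Agent.Helper62.FM

open Finset

variable {r : ℕ}

/-- Good words. -/
def Good (w : Wd r) : Prop :=
  Rd w ∧ AvF w ∧ (∀ u, u <:+: w → u.length ≤ 120 → rep u ≤ 4) ∧
    (∀ u, u <:+: w → 120 < u.length → 22 ≤ nrm (disp u))

lemma Good.of_factor {u w : Wd r} (h : Good w) (hu : u <:+: w) : Good u :=
  ⟨rd_factor h.1 hu, h.2.1.of_factor hu, fun v hv => h.2.2.1 v (hv.trans hu),
    fun v hv => h.2.2.2 v (hv.trans hu)⟩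

lemma sum_cnt_sub (w : Wd r) : ∑ k ∈ idx w, (cnt k w - 1) = rep w := by
  unfold rep
  have h1 : ∑ k ∈ idx w, (cnt k w - 1) + ∑ k ∈ idx w, 1 = ∑ k ∈ idx w, cnt k w := by
    rw [← Finset.sum_add_distrib]
    apply Finset.sum_congr rfl
    intro k hk
    have := cnt_pos.2 hk
    omega
  rw [sum_cnt, Finset.sum_const, smul_eq_mul, mul_one] at h1
  omega

lemma card_multi_le (w : Wd r) : ((idx w).filter fun k => 2 ≤ cnt k w).card ≤ rep w := by
  rw [← sum_cnt_sub, Finset.card_eq_sum_ones]
  calc ∑ _k ∈ (idx w).filter (fun k => 2 ≤ cnt k w), 1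
      ≤ ∑ k ∈ (idx w).filter (fun k => 2 ≤ cnt k w), (cnt k w - 1) := by
        apply Finset.sum_le_sum
        intro k hk
        have := (Finset.mem_filter.1 hk).2
        omega
    _ ≤ ∑ k ∈ idx w, (cnt k w - 1) :=
        Finset.sum_le_sum_of_subset (Finset.filter_subset _ _)

lemma length_le_nrm (w : Wd r) : w.length ≤ nrm (disp w) + 2 * rep w := by
  rw [← sum_cnt_sub, Finset.mul_sum]
  have h1 : ∑ k ∈ idx w, (disp w k).natAbs ≤ nrm (disp w) :=
    Finset.sum_le_sum_of_subset (Finset.subset_univ _)
  have h2 : w.length ≤ ∑ k ∈ idx w, ((disp w k).natAbs + 2 * (cnt k w - 1)) := by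
    rw [← sum_cnt w]
    apply Finset.sum_le_sum
    intro k hk
    have p := cnt_pos.2 hk
    have q := disp_parity k w
    by_cases h : cnt k w = 1
    · rw [h] at q ⊢
      omega
    · omega
  rw [Finset.sum_add_distrib] at h2
  omega

lemma exists_solo {T T' U : Wd r} (hU : U.length = 13) (hrU : rep U ≤ 4) (hUT : idx U ⊆ idx T)
    (hT : rep T ≤ 4) (hT' : rep T' ≤ 4) : ∃ k ∈ idx U, cnt k T = 1 ∧ cnt k T' ≤ 1 := by
  classical
  by_contra hcon
  push Not at hcon
  have hsub : idx U ⊆ ((idx T).filter fun k => 2 ≤ cnt k T) ∪ ((idx T').filter fun k => 2 ≤ cnt k T') := by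
    intro k hk
    rw [Finset.mem_union, Finset.mem_filter, Finset.mem_filter]
    have h1 := cnt_pos.2 (hUT hk)
    by_cases h2 : cnt k T = 1
    · right
      have h3 := hcon k hk h2
      exact ⟨cnt_pos.1 (by omega), by omega⟩
    · left
      exact ⟨hUT hk, by omega⟩
  have h1 := Finset.card_le_card hsub
  have h2 := Finset.card_union_le ((idx T).filter fun k => 2 ≤ cnt k T)
    ((idx T').filter fun k => 2 ≤ cnt k T')
  have h3 := card_multi_le T
  have h4 := card_multi_le T'
  unfold rep at hrU
  omega

/-- Far away letters: if a letter at a position at least `119 - |P|` of `Q` is used in the word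
`P ++ a :: Q`, then the vertex after that letter is far from the origin. -/
lemma far {P Q1 Q2 : Wd r} {a y : Lt r} (h : Good (P ++ a :: (Q1 ++ y :: Q2)))
    (hl : 119 ≤ P.length + Q1.length) : 22 ≤ nrm (disp P + step a + disp Q1 + step y) := by
  have h1 := h.2.2.2 (P ++ a :: (Q1 ++ [y])) ⟨[], Q2, by simp⟩ (by simp; omega)
  have h2 : disp (P ++ a :: (Q1 ++ [y])) = disp P + step a + disp Q1 + step y := by
    simp only [disp_append, disp_cons, disp_nil]; abel
  rwa [h2] at h1

lemma far' {P Q : Wd r} {y : Lt r} (h : Good (P ++ y :: Q)) (hl : 120 ≤ P.length) :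
    22 ≤ nrm (disp P + step y) := by
  have h1 := h.2.2.2 (P ++ [y]) ⟨[], Q, by simp⟩ (by simp; omega)
  have h2 : disp (P ++ [y]) = disp P + step y := by
    simp only [disp_append, disp_cons, disp_nil]; abel
  rwa [h2] at h1

/-- A near part of `Q` without `k`. -/
lemma near {k : Fin r} {P Q1 Q2 : Wd r} {a y : Lt r} (hk : a.1 = k)
    (hc : cnt k ((P ++ a :: (Q1 ++ y :: Q2)).take 120) = 1) (hl : P.length + Q1.length < 119) :
    k ∉ idx Q1 ∧ y.1 ≠ k := by
  have e : (P ++ a :: (Q1 ++ y :: Q2)).take 120
      = P ++ a :: (Q1 ++ y :: Q2.take (120 - (P.length + Q1.length + 2))) := by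
    have : P ++ a :: (Q1 ++ y :: Q2) = (P ++ a :: (Q1 ++ [y])) ++ Q2 := by simp
    rw [this, List.take_append, List.take_of_length_le (by simp; omega)]
    simp
    congr 1
    omega
  rw [e] at hc
  simp only [cnt_append, cnt_cons, hk, if_true] at hc
  constructor
  · rw [← cnt_eq_zero]; omega
  · intro hy
    rw [if_pos hy] at hc; omega

/-- A word traversing an edge: the endpoints of the edge are near the origin. -/
lemma nrm_of_fl_ne {P : Wd r} {p : Pt r} {x : Lt r} (h : fl P p x ≠ 0) :
    nrm p ≤ P.length ∧ nrm (p + step x) ≤ P.length := by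
  rcases exists_of_fl_ne h with ⟨U, V, e1, e2⟩ | ⟨U, V, e1, e2⟩
  · have h1 := nrm_disp_le U
    have h2 := nrm_disp_le (U ++ [x])
    have h3 : disp (U ++ [x]) = p + step x := by
      rw [disp_append, e2]; simp
    rw [h3] at h2
    rw [e2] at h1
    rw [e1]
    simp at h2 ⊢
    omega
  · have h1 := nrm_disp_le U
    have h2 := nrm_disp_le (U ++ [bar x])
    have h3 : disp (U ++ [bar x]) = p := by
      rw [disp_append, e2]; simp
    rw [h3] at h2
    rw [e2] at h1
    rw [e1]
    simp at h2 ⊢
    omega

/-- The flow of the part before the cut. -/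
lemma fl_before {k : Fin r} {P Q : Wd r} {a : Lt r} (hk : a.1 = k) (hP : k ∉ idx P)
    (hg : Good (P ++ a :: Q)) (hc : cnt k ((P ++ a :: Q).take 120) = 1) {p : Pt r} {x : Lt r}
    (hx : x.1 ≠ k) (hp : p k = 0) (n1 : nrm p < 22) (n2 : nrm (p + step x) < 22) :
    fl (P ++ a :: Q) p x = fl P p x := by
  rw [fl_append, fl_cons_ne (by rw [hk]; exact hx)]
  have hz : fl Q (p - disp P - step a) x = 0 := by
    by_contra hne
    have sa : step a k = sgn a := by rw [← hk]; exact step_self a
    have hs := sgn_ne a
    rcases exists_of_fl_ne hne with ⟨Q1, Q2, e1, e2⟩ | ⟨Q1, Q2, e1, e2⟩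
    · rw [e1] at hg hc
      by_cases hl : P.length + Q1.length < 119
      · have h1 := (near hk hc hl).1
        have h2 := congrFun e2 k
        rw [disp_of_not_mem h1, Pi.sub_apply, Pi.sub_apply, hp, disp_of_not_mem hP, sa] at h2
        omega
      · have h1 := far hg (by omega)
        rw [e2] at h1
        have h3 : disp P + step a + (p - disp P - step a) + step x = p + step x := by abel
        rw [h3] at h1
        omega
    · rw [e1] at hg hc
      by_cases hl : P.length + Q1.length < 119
      · have h1 := (near hk hc hl).1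
        have h2 := congrFun e2 k
        rw [disp_of_not_mem h1, Pi.add_apply, Pi.sub_apply, Pi.sub_apply, hp, disp_of_not_mem hP,
          sa, step_of_ne (Ne.symm hx)] at h2
        omega
      · have h1 := far hg (by omega)
        rw [e2] at h1
        have h3 : disp P + step a + (p - disp P - step a + step x) + step (bar x) = p := by
          rw [step_bar]; abel
        rw [h3] at h1
        omega
  rw [hz, add_zero]

/-- The flow through the cut edge. -/
lemma fl_at_cut {k : Fin r} {P Q : Wd r} {a : Lt r} (hk : a.1 = k) (hP : k ∉ idx P)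
    (hg : Good (P ++ a :: Q)) (hc : cnt k ((P ++ a :: Q).take 120) = 1)
    (n1 : nrm (disp P) < 22) (n2 : nrm (disp P + step a) < 22) :
    fl (P ++ a :: Q) (disp P) a = 1 ∧ fl (P ++ a :: Q) (disp P + step a) (bar a) = -1 := by
  have h1 : fl (P ++ a :: Q) (disp P) a = 1 := by
    rw [fl_append, fl_eq_zero_of_idx hP _ hk, fl_cons, sub_self, if_pos ⟨rfl, rfl⟩,
      if_neg (fun e => (bar_ne a) e.2.symm)]
    have hz : fl Q (0 - step a) a = 0 := by
      by_contra hne
      rcases exists_of_fl_ne hne with ⟨Q1, Q2, e1, e2⟩ | ⟨Q1, Q2, e1, e2⟩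
      · rw [e1] at hg hc
        by_cases hl : P.length + Q1.length < 119
        · exact (near hk hc hl).2 hk
        · have h1 := far hg (by omega)
          rw [e2] at h1
          have h3 : disp P + step a + (0 - step a) + step a = disp P + step a := by abel
          rw [h3] at h1
          omega
      · rw [e1] at hg hc
        by_cases hl : P.length + Q1.length < 119
        · exact (near hk hc hl).2 hk
        · have h1 := far hg (by omega)
          rw [e2] at h1
          have h3 : disp P + step a + (0 - step a + step a) + step (bar a) = disp P := by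
            rw [step_bar]; abel
          rw [h3] at h1
          omega
    rw [hz]; rfl
  exact ⟨h1, by rw [fl_anti, h1]⟩

/-- Good words are determined by their flow. -/
theorem good_inj : ∀ (n : ℕ) (w w' : Wd r), w.length + w'.length = n → Good w → Good w' →
    fl w = fl w' → w = w' := by
  intro n
  induction n using Nat.strong_induction_on with
  | _ n ih =>
    intro w w' hn gw gw' h
    have hd := disp_eq_of_fl_eq h
    -- short words
    have short : ∀ v v' : Wd r, Good v → Good v' → fl v = fl v' → disp v = disp v' → v.length ≤ 12 →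
        v = v' := by
      intro v v' gv gv' hf hd' hl
      have hl' : v'.length ≤ 120 := by
        by_contra hcon
        have h1 := gv'.2.2.2 v' (List.infix_refl _) (by omega)
        rw [← hd'] at h1
        have := nrm_disp_le v
        omega
      exact coincidence _ v v' rfl gv.1 gv'.1 (gv.2.2.1 v (List.infix_refl _) (by omega))
        (gv'.2.2.1 v' (List.infix_refl _) hl') gv.2.1 gv'.2.1 hf
    by_cases s1 : w.length ≤ 12
    · exact short w w' gw gw' h hd s1
    by_cases s2 : w'.length ≤ 12
    · exact (short w' w gw' gw h.symm hd.symm s2).symm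
    -- a solo index
    have rT : rep (w.take 120) ≤ 4 :=
      gw.2.2.1 _ (List.take_prefix _ _).isInfix (by rw [List.length_take]; omega)
    have rT' : rep (w'.take 120) ≤ 4 :=
      gw'.2.2.1 _ (List.take_prefix _ _).isInfix (by rw [List.length_take]; omega)
    have rU : rep (w.take 13) ≤ 4 :=
      gw.2.2.1 _ (List.take_prefix _ _).isInfix (by rw [List.length_take]; omega)
    have hUT : idx (w.take 13) ⊆ idx (w.take 120) := by
      have : w.take 120 = w.take 13 ++ (w.take 120).drop 13 := by
        conv_lhs => rw [← List.take_append_drop 13 (w.take 120)]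
        rw [List.take_take]; simp
      rw [this, idx_append]
      exact subset_union_left
    obtain ⟨k, hkU, c1, c1'⟩ := exists_solo (T := w.take 120) (T' := w'.take 120) (U := w.take 13)
      (by rw [List.length_take]; omega) rU hUT rT rT'
    obtain ⟨P, a, Y, eU, hak, kP⟩ := exists_first hkU
    have hPl : P.length ≤ 12 := by
      have := congrArg List.length eU
      rw [List.length_take, List.length_append, List.length_cons] at this
      omega
    obtain ⟨Q, ew⟩ : ∃ Q, w = P ++ a :: Q := by
      refine ⟨Y ++ w.drop 13, ?_⟩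
      conv_lhs => rw [← List.take_append_drop 13 w, eU]
      simp
    rw [ew] at c1 gw
    have nP := nrm_disp_le P
    have nPa : nrm (disp P + step a) ≤ 13 := by
      have := nrm_add_le (disp P) (step a)
      rw [nrm_step] at this
      omega
    obtain ⟨f1, f2⟩ := fl_at_cut hak kP gw c1 (by omega) (by omega)
    rw [← ew, h] at f1 f2
    -- the other word runs through the same edge
    obtain ⟨P', Q', ew', hdP⟩ : ∃ P' Q', w' = P' ++ a :: Q' ∧ disp P' = disp P := by
      rcases exists_of_fl_ne (show fl w' (disp P) a ≠ 0 by omega) with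
        ⟨P', Q', e1, e2⟩ | ⟨P', Q', e1, e2⟩
      · exact ⟨P', Q', e1, e2⟩
      · exfalso
        have hl : P'.length < 120 := by
          by_contra hcon
          rw [e1] at gw'
          have := far' gw' (by omega)
          rw [e2, step_bar] at this
          have e : disp P + step a + -step a = disp P := by abel
          rw [e] at this
          omega
        have c2 : cnt k ((P' ++ bar a :: Q').take 120) = 1 ∧ k ∉ idx P' := by
          have e : (P' ++ bar a :: Q').take 120 = P' ++ bar a :: (Q'.take (119 - P'.length)) := by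
            rw [List.take_append, List.take_of_length_le (by omega)]
            have : 120 - P'.length = (119 - P'.length) + 1 := by omega
            rw [this, List.take_succ_cons]
          rw [e1, e] at c1'
          rw [cnt_append, cnt_cons, if_pos (by simpa using hak)] at c1'
          rw [e, cnt_append, cnt_cons, if_pos (by simpa using hak)]
          refine ⟨by omega, ?_⟩
          rw [← cnt_eq_zero]; omega
        rw [e1] at gw' f1
        obtain ⟨g1, g2⟩ := fl_at_cut (a := bar a) (by simpa using hak) c2.2 gw' c2.1
          (by rw [e2]; omega) (by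
            rw [e2, step_bar]
            have e : disp P + step a + -step a = disp P := by abel
            rw [e]; omega)
        rw [e2, step_bar, bar_bar] at g2
        have e : disp P + step a + -step a = disp P := by abel
        rw [e, f1] at g2
        omega
    have hl' : P'.length < 120 := by
      by_contra hcon
      rw [ew'] at gw'
      have := far' gw' (by omega)
      rw [hdP] at this
      omega
    have c2 : cnt k ((P' ++ a :: Q').take 120) = 1 ∧ k ∉ idx P' := by
      have e : (P' ++ a :: Q').take 120 = P' ++ a :: (Q'.take (119 - P'.length)) := by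
        rw [List.take_append, List.take_of_length_le (by omega)]
        have : 120 - P'.length = (119 - P'.length) + 1 := by omega
        rw [this, List.take_succ_cons]
      rw [ew', e] at c1'
      rw [cnt_append, cnt_cons, if_pos hak] at c1'
      rw [e, cnt_append, cnt_cons, if_pos hak]
      refine ⟨by omega, ?_⟩
      rw [← cnt_eq_zero]; omega
    have fP' : P' <:+: w' := ⟨[], a :: Q', by rw [ew']; simp⟩
    have fP : P <:+: w := ⟨[], a :: Q, by rw [ew]; simp⟩
    have rP' : rep P' ≤ 4 := gw'.2.2.1 P' fP' (by omega)
    have rP : rep P ≤ 4 := by rw [← ew] at gw; exact gw.2.2.1 P fP (by omega)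
    have hP'l : P'.length ≤ 20 := by
      have := length_le_nrm P'
      rw [hdP] at this
      omega
    rw [ew'] at gw'
    have hPP : fl P = fl P' := by
      funext p x
      by_cases hx : x.1 = k
      · rw [fl_eq_zero_of_idx kP _ hx, fl_eq_zero_of_idx c2.2 _ hx]
      by_cases hp : p k = 0
      · by_contra hne
        have hn12 : nrm p ≤ 20 ∧ nrm (p + step x) ≤ 20 := by
          by_cases hz : fl P p x = 0
          · have h1 := nrm_of_fl_ne (show fl P' p x ≠ 0 from fun e => hne (by rw [hz, e]))
            omega
          · have h1 := nrm_of_fl_ne hz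
            omega
        have q1 := fl_before hak kP gw c1 hx hp (by omega) (by omega)
        have q2 := fl_before hak c2.2 gw' c2.1 hx hp (by omega) (by omega)
        rw [← ew] at q1
        rw [← ew'] at q2
        apply hne
        rw [← q1, ← q2, h]
      · rw [fl_eq_zero_of_level kP _ hp, fl_eq_zero_of_level c2.2 _ hp]
    rw [← ew] at gw
    rw [← ew'] at gw'
    have hPeq : P = P' := coincidence _ P P' rfl (rd_factor gw.1 fP) (rd_factor gw'.1 fP') rP rP'
      (gw.2.1.of_factor fP) (gw'.2.1.of_factor fP') hPP
    subst hPeq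
    have fQ : Q <:+: w := ⟨P ++ [a], [], by rw [ew]; simp⟩
    have fQ' : Q' <:+: w' := ⟨P ++ [a], [], by rw [ew']; simp⟩
    have hQ : fl Q = fl Q' := by
      funext p x
      have := congrFun (congrFun h (p + step a + disp P)) x
      rw [ew, ew', fl_append, fl_append, fl_cons, fl_cons] at this
      have e : p + step a + disp P - disp P - step a = p := by abel
      rw [e] at this
      linarith
    have hQeq : Q = Q' := by
      apply ih (Q.length + Q'.length) _ Q Q' rfl (gw.of_factor fQ) (gw'.of_factor fQ') hQ
      rw [ew, ew'] at hn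
      simp at hn
      omega
    rw [ew, ew', hQeq]

end Pool.Agent.Helper62.FM
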