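import Pool.Agent.Helper62.FM.Weight

/-!
Few words of length 120 end near a prescribed point.
-/

namespace Pool.Agent.Helper62.FM

open Finset

variable {r : ℕ}

/-- Number of letters whose index lies in `S`. -/
def cS (S : Finset (Fin r)) (w : Wd r) : ℕ := w.countP fun a => decide (a.1 ∈ S)

/-- The letters whose index lies outside `S`. -/
def fS (S : Finset (Fin r)) (w : Wd r) : Wd r := w.filter fun a => decide (a.1 ∉ S)

lemma length_fS (S : Finset (Fin r)) (w : Wd r) : w.length = (fS S w).length + cS S w := by
  unfold fS cS
  induction w with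
  | nil => rfl
  | cons a w ih =>
    by_cases h : a.1 ∈ S
    · simp only [List.length_cons, List.filter_cons, List.countP_cons, h, not_true_eq_false,
        decide_false, decide_true, if_true] at ih ⊢
      simp only [Bool.false_eq_true, if_false]
      omega
    · simp only [List.length_cons, List.filter_cons, List.countP_cons, h, not_false_eq_true,
        decide_false, decide_true, if_true] at ih ⊢
      simp only [Bool.false_eq_true, if_false]
      omega

lemma fS_cons_mem {S : Finset (Fin r)} {a : Lt r} (h : a.1 ∈ S) (w : Wd r) :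
    fS S (a :: w) = fS S w := by
  simp [fS, h]

lemma fS_cons_not {S : Finset (Fin r)} {a : Lt r} (h : a.1 ∉ S) (w : Wd r) :
    fS S (a :: w) = a :: fS S w := by
  simp [fS, h]

lemma disp_fS (S : Finset (Fin r)) (w : Wd r) (k : Fin r) :
    disp (fS S w) k = if k ∈ S then 0 else disp w k := by
  induction w with
  | nil => simp [fS, disp]
  | cons a w ih =>
    by_cases h : a.1 ∈ S
    · rw [fS_cons_mem h, ih]
      by_cases hk : k ∈ S
      · rw [if_pos hk, if_pos hk]
      · rw [if_neg hk, if_neg hk]
        have : k ≠ a.1 := by rintro rfl; exact hk h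
        simp [disp, step_of_ne this]
    · rw [fS_cons_not h]
      by_cases hk : k ∈ S
      · rw [if_pos hk] at ih ⊢
        have : k ≠ a.1 := by rintro rfl; exact h hk
        simp [disp, step_of_ne this, ih]
      · rw [if_neg hk] at ih ⊢
        simp [disp, ih]

lemma idx_fS (S : Finset (Fin r)) (w : Wd r) : idx (fS S w) ⊆ idx w := by
  intro k hk
  unfold idx fS at *
  simp only [List.mem_toFinset, List.mem_map, List.mem_filter] at *
  obtain ⟨a, ⟨h1, _⟩, h2⟩ := hk
  exact ⟨a, h1, h2⟩

lemma rep_fS (S : Finset (Fin r)) (w : Wd r) : rep (fS S w) ≤ rep w := by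
  induction w with
  | nil => simp [fS]
  | cons a w ih =>
    by_cases h : a.1 ∈ S
    · rw [fS_cons_mem h, rep_cons]; omega
    · rw [fS_cons_not h, rep_cons, rep_cons]
      by_cases h2 : a.1 ∈ idx (fS S w)
      · rw [if_pos h2, if_pos (idx_fS S w h2)]; omega
      · rw [if_neg h2]; omega

lemma num_cS (S : Finset (Fin r)) (n m : ℕ) :
    num r n (fun w => m ≤ cS S w) * (2 * r) ^ m ≤ (2 * S.card + 1) ^ n * (2 * r) ^ n := by
  classical
  induction n generalizing m with
  | zero =>
    rw [num_def', W_zero]
    simp only [Finset.sum_singleton, pow_zero, mul_one]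
    have h0 : cS S ([] : Wd r) = 0 := by simp [cS]
    rw [h0]
    by_cases hm : m = 0
    · subst hm; simp
    · rw [if_neg (by omega)]; simp
  | succ n ih =>
    cases m with
    | zero =>
      have h1 := num_le (r := r) (n + 1) (fun w => 0 ≤ cS S w)
      have h2 : (1:ℝ) ≤ (2 * (S.card : ℝ) + 1) ^ (n + 1) :=
        one_le_pow₀ (by linarith [S.card.cast_nonneg (α := ℝ)])
      have h3 : (0:ℝ) ≤ (2 * r) ^ (n + 1) := by positivity
      rw [pow_zero, mul_one]
      nlinarith
    | succ m =>
      have key : num r (n + 1) (fun w => m + 1 ≤ cS S w)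
          ≤ 2 * S.card * num r n (fun w => m ≤ cS S w)
            + 2 * r * num r n (fun w => m + 1 ≤ cS S w) := by
        have e1 : num r (n + 1) (fun w => m + 1 ≤ cS S w)
            = ∑ v ∈ W r n, ∑ a : Lt r, (if m + 1 ≤ cS S (a :: v) then (1:ℝ) else 0) := by
          rw [num_def', sum_W_succ', Finset.sum_comm]
        rw [e1, num_def' n (fun w => m ≤ cS S w), num_def' n (fun w => m + 1 ≤ cS S w),
          Finset.mul_sum, Finset.mul_sum, ← Finset.sum_add_distrib]
        apply Finset.sum_le_sum
        intro v hv
        have h1 : ∀ a : Lt r, (if m + 1 ≤ cS S (a :: v) then (1:ℝ) else 0)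
            ≤ (if a.1 ∈ S then (if m ≤ cS S v then 1 else 0) else 0)
              + (if m + 1 ≤ cS S v then 1 else 0) := by
          intro a
          have e : cS S (a :: v) = cS S v + if a.1 ∈ S then 1 else 0 := by
            unfold cS
            rw [List.countP_cons]
            simp
          rw [e]
          by_cases ha : a.1 ∈ S
          · simp only [ha, if_true, add_le_add_iff_right]
            split_ifs <;> norm_num
          · simp only [ha, if_false, add_zero]
            split_ifs <;> norm_num
        have h2 : ∑ a : Lt r, (if a.1 ∈ S then (if m ≤ cS S v then (1:ℝ) else 0) else 0)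
            ≤ 2 * S.card * (if m ≤ cS S v then 1 else 0) := by
          rw [← Finset.sum_filter, Finset.sum_const, nsmul_eq_mul]
          apply mul_le_mul_of_nonneg_right
          · have : (Finset.univ.filter fun a : Lt r => a.1 ∈ S)
                = S ×ˢ (Finset.univ : Finset Bool) := by
              ext ⟨i, b⟩; simp
            rw [this, Finset.card_product]
            simp only [Finset.card_univ, Fintype.card_bool]
            push_cast
            linarith
          · split_ifs <;> norm_num
        calc ∑ a : Lt r, (if m + 1 ≤ cS S (a :: v) then (1:ℝ) else 0)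
            ≤ ∑ a : Lt r, ((if a.1 ∈ S then (if m ≤ cS S v then (1:ℝ) else 0) else 0)
              + (if m + 1 ≤ cS S v then 1 else 0)) := Finset.sum_le_sum fun a _ => h1 a
          _ = ∑ a : Lt r, (if a.1 ∈ S then (if m ≤ cS S v then (1:ℝ) else 0) else 0)
              + 2 * r * (if m + 1 ≤ cS S v then 1 else 0) := by
              rw [Finset.sum_add_distrib, Finset.sum_const, Finset.card_univ, card_letters,
                nsmul_eq_mul]
              push_cast; ring
          _ ≤ _ := by linarith
      have i1 := ih m
      have i2 := ih (m + 1)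
      have p0 : (0:ℝ) ≤ 2 * r := by positivity
      calc num r (n + 1) (fun w => m + 1 ≤ cS S w) * (2 * r) ^ (m + 1)
          ≤ (2 * S.card * num r n (fun w => m ≤ cS S w)
              + 2 * r * num r n (fun w => m + 1 ≤ cS S w))
            * (2 * r) ^ (m + 1) := mul_le_mul_of_nonneg_right key (by positivity)
        _ = 2 * S.card * (2 * r) * (num r n (fun w => m ≤ cS S w) * (2 * r) ^ m)
            + 2 * r * (num r n (fun w => m + 1 ≤ cS S w) * (2 * r) ^ (m + 1)) := by ring
        _ ≤ 2 * S.card * (2 * r) * ((2 * S.card + 1) ^ n * (2 * r) ^ n)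
            + 2 * r * ((2 * S.card + 1) ^ n * (2 * r) ^ n) := by
            apply add_le_add
            · exact mul_le_mul_of_nonneg_left i1 (by positivity)
            · exact mul_le_mul_of_nonneg_left i2 p0
        _ = (2 * S.card + 1) ^ (n + 1) * (2 * r) ^ (n + 1) := by ring

/-- Few words of length 120 end near a prescribed point. -/
lemma num_ret (hr : 1 ≤ r) (x : Pt r) :
    num r 120 (fun u => nrm (x + disp u) ≤ 21) ≤ (241 ^ 120 + 283 ^ 120) * (2 * r) ^ 87 := by
  classical
  have hr' : (1 : ℝ) ≤ r := by exact_mod_cast hr
  obtain ⟨S, hS⟩ : ∃ S : Finset (Fin r), S = Finset.univ.filter fun k => x k ≠ 0 := ⟨_, rfl⟩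
  have hp : (0 : ℝ) < 2 * r := by linarith
  by_cases hx : nrm x ≤ 141
  swap
  · have : num r 120 (fun u => nrm (x + disp u) ≤ 21) = 0 := by
      rw [num_def']
      apply Finset.sum_eq_zero
      intro u hu
      rw [mem_W] at hu
      rw [if_neg]
      intro h
      have h1 : x = (x + disp u) + disp (rv u) := by rw [disp_rv]; abel
      have h2 := nrm_add_le (x + disp u) (disp (rv u))
      rw [← h1] at h2
      have h3 := nrm_disp_le (rv u)
      have h4 : (rv u).length = u.length := by simp [rv]
      omega
    rw [this]; positivity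
  have hSc : S.card ≤ 141 := by
    refine le_trans ?_ hx
    unfold nrm
    rw [Finset.card_eq_sum_ones, hS]
    calc ∑ _k ∈ Finset.univ.filter (fun k => x k ≠ 0), 1
        ≤ ∑ k ∈ Finset.univ.filter (fun k => x k ≠ 0), (x k).natAbs := by
          apply Finset.sum_le_sum
          intro k hk
          have := (Finset.mem_filter.1 hk).2
          omega
      _ ≤ _ := Finset.sum_le_sum_of_subset (Finset.filter_subset _ _)
  have h1 : num r 120 (fun u => nrm (x + disp u) ≤ 21)
      ≤ num r 120 (fun u => 34 ≤ rep u) + num r 120 (fun u => 33 ≤ cS S u) := by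
    rw [num_def', num_def', num_def', ← Finset.sum_add_distrib]
    apply Finset.sum_le_sum
    intro u hu
    rw [mem_W] at hu
    by_cases h : nrm (x + disp u) ≤ 21
    swap
    · rw [if_neg h]; split_ifs <;> norm_num
    by_cases h2 : 34 ≤ rep u
    · rw [if_pos h, if_pos h2]; split_ifs <;> norm_num
    have h3 : 33 ≤ cS S u := by
      have e1 := length_fS S u
      have e2 := length_le_nrm (fS S u)
      have e3 := rep_fS S u
      have e4 : nrm (disp (fS S u)) ≤ nrm (x + disp u) := by
        unfold nrm
        apply Finset.sum_le_sum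
        intro k _
        rw [disp_fS]
        by_cases hk : k ∈ S
        · rw [if_pos hk]; simp
        · rw [if_neg hk]
          have : x k = 0 := by
            by_contra hc
            exact hk (by rw [hS]; simp [hc])
          simp [this]
      omega
    rw [if_pos h, if_neg h2, if_pos h3]; norm_num
  have h2 : num r 120 (fun u => 34 ≤ rep u) ≤ 241 ^ 120 * (2 * r) ^ 87 := by
    have := num_rep (r := r) 120 34
    have e : (2 * ((120 : ℕ) : ℝ) + 1) = 241 := by norm_num
    rw [e] at this
    have q : (2 * r : ℝ) ^ 120 = (2 * r) ^ 86 * (2 * r) ^ 34 := by ring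
    rw [q, ← mul_assoc] at this
    have h3 := le_of_mul_le_mul_right this (by positivity)
    refine h3.trans ?_
    apply mul_le_mul_of_nonneg_left _ (by positivity)
    exact pow_le_pow_right₀ (by linarith) (by norm_num)
  have h3 : num r 120 (fun u => 33 ≤ cS S u) ≤ 283 ^ 120 * (2 * r) ^ 87 := by
    have := num_cS S 120 33
    have q : (2 * r : ℝ) ^ 120 = (2 * r) ^ 87 * (2 * r) ^ 33 := by ring
    rw [q, ← mul_assoc] at this
    have h3 := le_of_mul_le_mul_right this (by positivity)
    refine h3.trans ?_
    apply mul_le_mul_of_nonneg_right _ (by positivity)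
    apply pow_le_pow_left₀ (by positivity)
    have : (S.card : ℝ) ≤ 141 := by exact_mod_cast hSc
    linarith
  calc _ ≤ _ := h1
    _ ≤ 241 ^ 120 * (2 * r) ^ 87 + 283 ^ 120 * (2 * r) ^ 87 := add_le_add h2 h3
    _ = _ := by ring

end Pool.Agent.Helper62.FM
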