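import Pool.Agent.Helper62.FM.Fekete
import Pool.Agent.Helper62.FM.Return

/-!
Good words: lower recursion.
-/

namespace Pool.Agent.Helper62.FM

open Finset

variable {r : ℕ}

lemma cls_good : Cls (fun w : Wd r => Good w) :=
  ⟨fun _ _ h => h.of_factor List.infix_append_left, fun _ h => h.1⟩

lemma Good.ll {w : Wd r} (h : Good w) : LL w := ⟨h.1, h.2.1⟩

/-- The suffix patterns that can destroy goodness. -/
def PP (p : Wd r) : Prop :=
  (p.length ≤ 120 ∧ 5 ≤ rep p) ∨ Forb p ∨ (120 < p.length ∧ nrm (disp p) ≤ 21 ∧ LL p.dropLast)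

lemma ext_good {n : ℕ} {u : Wd r} (hu : u.length = n + 1) (h : Ext (fun w : Wd r => Good w) u) :
    ∃ m ≤ n, Good (u.take m) ∧ PP (u.drop m) := by
  obtain ⟨hR, hG, hN⟩ := h
  rcases eq_nil_or_snoc u with rfl | ⟨w, a, rfl⟩
  · simp at hu
  simp only [List.dropLast_concat] at hG
  have hw : w.length = n := by simpa using hu
  have key : ∀ v : Wd r, v <:+ w ++ [a] → v ≠ [] → PP v →
      ∃ m ≤ n, Good ((w ++ [a]).take m) ∧ PP ((w ++ [a]).drop m) := by
    rintro v ⟨s, hs⟩ hv hP
    have hl := congrArg List.length hs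
    have hv' := List.length_pos_iff.2 hv
    rw [List.length_append, hu] at hl
    refine ⟨s.length, by omega, ?_, ?_⟩
    · rw [← hs, List.take_left']
      · apply hG.of_factor
        rcases eq_nil_or_snoc v with rfl | ⟨v', b, rfl⟩
        · exact absurd rfl hv
        · rw [← List.append_assoc] at hs
          have := (List.append_inj' hs rfl).1
          rw [← this]
          exact List.infix_append_left
      · rfl
    · rw [← hs, List.drop_left']
      · exact hP
      · rfl
  have suf : ∀ v : Wd r, v <:+: w ++ [a] → ¬ v <:+: w → v <:+ w ++ [a] := by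
    intro v h1 h2
    rw [List.infix_concat_iff] at h1
    exact h1.resolve_right h2
  have hN' : ¬ (AvF (w ++ [a]) ∧ (∀ u, u <:+: w ++ [a] → u.length ≤ 120 → rep u ≤ 4) ∧
    (∀ u, u <:+: w ++ [a] → 120 < u.length → 22 ≤ nrm (disp u))) := fun e => hN ⟨hR, e⟩
  by_cases c1 : AvF (w ++ [a])
  · by_cases c2 : ∀ u, u <:+: w ++ [a] → u.length ≤ 120 → rep u ≤ 4
    · have c3 : ¬ (∀ u, u <:+: w ++ [a] → 120 < u.length → 22 ≤ nrm (disp u)) :=
        fun e => hN' ⟨c1, c2, e⟩
      push Not at c3
      obtain ⟨v, v1, v2, v3⟩ := c3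
      have hs := suf v v1 (fun e => absurd (hG.2.2.2 v e v2) (by omega))
      refine key v hs (by rintro rfl; simp at v2) (Or.inr (Or.inr ⟨v2, by omega, ?_⟩))
      apply hG.ll.of_factor
      obtain ⟨s, hs⟩ := hs
      rcases eq_nil_or_snoc v with rfl | ⟨v', b, rfl⟩
      · simp at v2
      · rw [← List.append_assoc] at hs
        have := (List.append_inj' hs rfl).1
        rw [List.dropLast_concat, ← this]
        exact List.infix_append_right
    · push Not at c2
      obtain ⟨v, v1, v2, v3⟩ := c2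
      have hs := suf v v1 (fun e => absurd (hG.2.2.1 v e v2) (by omega))
      exact key v hs (by rintro rfl; simp [rep] at v3) (Or.inl ⟨v2, by omega⟩)
  · unfold AvF at c1
    push Not at c1
    obtain ⟨f, f1, f2⟩ := c1
    have hs := suf f f1 (fun e => hG.2.1 f e f2)
    exact key f hs f2.ne_nil (Or.inr (Or.inl f2))

/-- The constant in the bound for returns. -/
noncomputable def KM : ℝ := 241 ^ 120 + 283 ^ 120

lemma KM_pos : 0 < KM := by unfold KM; positivity

lemma num_long (hr : 1 ≤ r) (m : ℕ) :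
    num r (m + 120) (fun p => nrm (disp p) ≤ 21 ∧ LL p.dropLast)
      ≤ num r m LL * (KM * (2 * r) ^ 87) := by
  classical
  rw [num_def', num_def', sum_W_add, Finset.sum_mul]
  apply Finset.sum_le_sum
  intro v hv
  by_cases h : LL v
  · rw [if_pos h, one_mul]
    refine le_trans ?_ (num_ret hr (disp v))
    rw [num_def']
    apply Finset.sum_le_sum
    intro u hu
    rw [disp_append]
    by_cases h2 : nrm (disp v + disp u) ≤ 21
    · rw [if_pos h2]; split_ifs <;> norm_num
    · rw [if_neg h2, if_neg (fun e => h2 e.1)]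
  · rw [if_neg h, zero_mul]
    apply le_of_eq
    apply Finset.sum_eq_zero
    intro u hu
    rw [if_neg]
    rintro ⟨-, h2⟩
    apply h
    apply h2.of_factor
    rw [mem_W] at hu
    rw [List.dropLast_append_of_ne_nil (by rintro rfl; simp at hu)]
    exact List.infix_append_left

lemma cs_pp (t : ℝ) (ht : 0 < t) (j : ℕ) :
    cs t (j + 1) (PP (r := r)) ≤ (if j < 120 then cs t (j + 1) (fun u : Wd r => 5 ≤ rep u) else 0)
      + (if j = 6 then cs t 7 (Forb (r := r)) else 0) + (if j = 7 then cs t 8 (Forb (r := r)) else 0)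
      + (if 120 ≤ j then cs t (j + 1) (fun p : Wd r => nrm (disp p) ≤ 21 ∧ LL p.dropLast) else 0) := by
  classical
  have e1 : (if j < 120 then cs t (j + 1) (fun u : Wd r => 5 ≤ rep u) else 0)
      = ∑ u ∈ W r (j + 1), if j < 120 ∧ 5 ≤ rep u then wt t u else 0 := by
    by_cases h : j < 120
    · simp only [h, true_and, if_true]; rw [cs_def]
    · simp [h]
  have e2 : (if j = 6 then cs t 7 (Forb (r := r)) else 0)
      = ∑ u ∈ W r (j + 1), if j = 6 ∧ Forb u then wt t u else 0 := by
    by_cases h : j = 6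
    · subst h; simp only [true_and, if_true]; rw [cs_def]
    · simp [h]
  have e3 : (if j = 7 then cs t 8 (Forb (r := r)) else 0)
      = ∑ u ∈ W r (j + 1), if j = 7 ∧ Forb u then wt t u else 0 := by
    by_cases h : j = 7
    · subst h; simp only [true_and, if_true]; rw [cs_def]
    · simp [h]
  have e4 : (if 120 ≤ j then cs t (j + 1) (fun p : Wd r => nrm (disp p) ≤ 21 ∧ LL p.dropLast) else 0)
      = ∑ u ∈ W r (j + 1), if 120 ≤ j ∧ nrm (disp u) ≤ 21 ∧ LL u.dropLast then wt t u else 0 := by
    by_cases h : 120 ≤ j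
    · simp only [h, true_and, if_true]; rw [cs_def]
    · simp [h]
  rw [e1, e2, e3, e4, ← Finset.sum_add_distrib, ← Finset.sum_add_distrib,
    ← Finset.sum_add_distrib, cs_def]
  apply Finset.sum_le_sum
  intro u hu
  rw [mem_W] at hu
  have pos := (wt_pos ht u).le
  have n1 : 0 ≤ (if j < 120 ∧ 5 ≤ rep u then wt t u else 0) := by split_ifs <;> simp [pos]
  have n2 : 0 ≤ (if j = 6 ∧ Forb u then wt t u else 0) := by split_ifs <;> simp [pos]
  have n3 : 0 ≤ (if j = 7 ∧ Forb u then wt t u else 0) := by split_ifs <;> simp [pos]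
  have n4 : 0 ≤ (if 120 ≤ j ∧ nrm (disp u) ≤ 21 ∧ LL u.dropLast then wt t u else 0) := by
    split_ifs <;> simp [pos]
  by_cases h : PP u
  · rw [if_pos h]
    rcases h with h | h | h
    · rw [if_pos (show j < 120 ∧ 5 ≤ rep u from ⟨by omega, h.2⟩)] at n1 ⊢
      linarith
    · rcases h.length with hl | hl
      · rw [if_pos (show j = 6 ∧ Forb u from ⟨by omega, h⟩)] at n2 ⊢
        linarith
      · rw [if_pos (show j = 7 ∧ Forb u from ⟨by omega, h⟩)] at n3 ⊢
        linarith
    · rw [if_pos (show 120 ≤ j ∧ nrm (disp u) ≤ 21 ∧ LL u.dropLast from ⟨by omega, h.2⟩)] at n4 ⊢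
      linarith
  · rw [if_neg h]
    linarith

lemma geom_tail {x : ℝ} (hx0 : 0 ≤ x) (hx1 : x < 1) (N : ℕ) :
    ∑ j ∈ range N, (if 120 ≤ j then x ^ (j - 119) else 0) ≤ 1 / (1 - x) := by
  have h : ∀ N : ℕ, (1 - x) * ∑ j ∈ range N, (if 120 ≤ j then x ^ (j - 119) else 0)
      ≤ 1 - x ^ (N - 119) := by
    intro N
    induction N with
    | zero => simp
    | succ N ih =>
      rw [Finset.sum_range_succ, mul_add]
      by_cases hN : 120 ≤ N
      · rw [if_pos hN]
        have e : N + 1 - 119 = (N - 119) + 1 := by omega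
        rw [e, pow_succ]
        generalize x ^ (N - 119) = X at ih ⊢
        generalize (∑ j ∈ range N, (if 120 ≤ j then x ^ (j - 119) else 0) : ℝ) = S at ih ⊢
        linarith
      · rw [if_neg hN, mul_zero, add_zero]
        refine ih.trans ?_
        have : x ^ (N + 1 - 119) ≤ x ^ (N - 119) :=
          pow_le_pow_of_le_one hx0 hx1.le (by omega)
        linarith
  rw [le_div_iff₀ (by linarith), mul_comm]
  refine (h N).trans ?_
  have : 0 ≤ x ^ (N - 119) := by positivity
  linarith

/-- The total weight of the patterns. -/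
noncomputable def TT (t q : ℝ) (r : ℕ) : ℝ :=
  120 * (t ^ 120 * 241 ^ 120 * 2 ^ 120 / (2 * r) ^ 4) + t ^ 7 * (28 * r ^ 3) * q ^ 6
    + t ^ 8 * (32 * r ^ 4) * q ^ 7
    + t ^ 21 * ((2 * r) ^ 14 * (KM * (2 * r) ^ 87)) * q ^ 119 / (1 - al r * q)

lemma pp_sum (hr : 14 ≤ r) (hr2 : 84 + 7 * (241 ^ 120 * 2 ^ 9) ≤ 28 * (r:ℝ))
    (hr3 : 192 + 7 * (241 ^ 120 * 2 ^ 10) ≤ 32 * (r:ℝ)) {t q : ℝ} (ht : 1 ≤ t) (hq : 0 < q)
    (hq2 : q * r ≤ 1) (hq3 : al r * q < 1) (N : ℕ) :
    ∑ j ∈ range N, q ^ j * cs t (j + 1) (PP (r := r)) ≤ TT t q r := by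
  have hr' : (14 : ℝ) ≤ r := by exact_mod_cast hr
  have t0 : 0 < t := by linarith
  have al0 : 0 < al r := by linarith [al_ge hr]
  have hP := fun j => cs_pp (r := r) t t0 j
  have s1 : ∑ j ∈ range N, q ^ j * (if j < 120 then cs t (j + 1) (fun u : Wd r => 5 ≤ rep u) else 0)
      ≤ 120 * (t ^ 120 * 241 ^ 120 * 2 ^ 120 / (2 * r) ^ 4) := by
    have b : ∀ j ∈ (range N).filter (fun j => j < 120),
        q ^ j * cs t (j + 1) (fun u : Wd r => 5 ≤ rep u)
          ≤ t ^ 120 * 241 ^ 120 * 2 ^ 120 / (2 * r) ^ 4 := by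
      intro j hj
      have hj' := (Finset.mem_filter.1 hj).2
      have h1 := cs_le_num ht (j + 1) (fun u : Wd r => 5 ≤ rep u)
      have h2 := num_rep5 (r := r) (by omega) (show j + 1 ≤ 120 by omega)
      have h3 : num r (j + 1) (fun u => 5 ≤ rep u) * (2 * r) ^ 4 ≤ 241 ^ 120 * (2 * r) ^ j := by
        have e1 : num r (j + 1) (fun u => 5 ≤ rep u) * (2 * (r:ℝ)) ^ 5
            = (num r (j + 1) (fun u => 5 ≤ rep u) * (2 * r) ^ 4) * (2 * r) := by ring
        have e2 : (241 : ℝ) ^ 120 * (2 * r) ^ (j + 1) = (241 ^ 120 * (2 * r) ^ j) * (2 * r) := by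
          rw [pow_succ]; ring
        rw [e1, e2] at h2
        exact le_of_mul_le_mul_right h2 (by linarith)
      have h4 : t ^ (j + 1) ≤ t ^ 120 := pow_le_pow_right₀ ht (by omega)
      have h5 : (q * (2 * r)) ^ j ≤ 2 ^ 120 := by
        calc (q * (2 * r)) ^ j ≤ 2 ^ j := pow_le_pow_left₀ (by positivity) (by linarith) _
          _ ≤ 2 ^ 120 := pow_le_pow_right₀ (by norm_num) (by omega)
      rw [le_div_iff₀ (by positivity)]
      calc q ^ j * cs t (j + 1) (fun u : Wd r => 5 ≤ rep u) * (2 * r) ^ 4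
          ≤ q ^ j * (t ^ (j + 1) * num r (j + 1) (fun u : Wd r => 5 ≤ rep u)) * (2 * r) ^ 4 := by
            apply mul_le_mul_of_nonneg_right _ (by positivity)
            exact mul_le_mul_of_nonneg_left h1 (by positivity)
        _ = q ^ j * t ^ (j + 1) * (num r (j + 1) (fun u : Wd r => 5 ≤ rep u) * (2 * r) ^ 4) := by
            ring
        _ ≤ q ^ j * t ^ (j + 1) * (241 ^ 120 * (2 * r) ^ j) :=
            mul_le_mul_of_nonneg_left h3 (by positivity)
        _ = t ^ (j + 1) * 241 ^ 120 * (q * (2 * r)) ^ j := by rw [mul_pow]; ring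
        _ ≤ t ^ 120 * 241 ^ 120 * 2 ^ 120 := by
            apply mul_le_mul _ h5 (by positivity) (by positivity)
            exact mul_le_mul_of_nonneg_right h4 (by positivity)
    calc ∑ j ∈ range N, q ^ j * (if j < 120 then cs t (j + 1) (fun u : Wd r => 5 ≤ rep u) else 0)
        = ∑ j ∈ (range N).filter (fun j => j < 120),
            q ^ j * cs t (j + 1) (fun u : Wd r => 5 ≤ rep u) := by
          rw [Finset.sum_filter]
          apply Finset.sum_congr rfl
          intro j _
          split_ifs <;> simp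
      _ ≤ ∑ _j ∈ (range N).filter (fun j => j < 120),
            t ^ 120 * 241 ^ 120 * 2 ^ 120 / (2 * (r:ℝ)) ^ 4 := Finset.sum_le_sum b
      _ = ((range N).filter (fun j => j < 120)).card
            * (t ^ 120 * 241 ^ 120 * 2 ^ 120 / (2 * r) ^ 4) := by
          rw [Finset.sum_const, nsmul_eq_mul]
      _ ≤ 120 * (t ^ 120 * 241 ^ 120 * 2 ^ 120 / (2 * r) ^ 4) := by
          apply mul_le_mul_of_nonneg_right _ (by positivity)
          have h1 : ((range N).filter (fun j => j < 120)).card ≤ (range 120).card := by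
            apply Finset.card_le_card
            intro j hj
            exact Finset.mem_range.2 (Finset.mem_filter.1 hj).2
          rw [Finset.card_range] at h1
          exact_mod_cast h1
  have n7 : 0 ≤ cs t 7 (Forb (r := r)) := cs_nonneg t0 _ _
  have n8 : 0 ≤ cs t 8 (Forb (r := r)) := cs_nonneg t0 _ _
  have hr0 : (0:ℝ) ≤ r := by linarith
  have f7 : cs t 7 (Forb (r := r)) ≤ t ^ 7 * (28 * r ^ 3) := by
    refine (cs_le_num ht 7 _).trans ?_
    apply mul_le_mul_of_nonneg_left _ (by positivity)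
    rw [num_forb7 (by omega)]
    nlinarith [mul_nonneg hr0 hr0]
  have f8 : cs t 8 (Forb (r := r)) ≤ t ^ 8 * (32 * r ^ 4) := by
    refine (cs_le_num ht 8 _).trans ?_
    apply mul_le_mul_of_nonneg_left _ (by positivity)
    rw [num_forb8 (by omega)]
    have e : 32 * (r:ℝ) * (r - 1) * (r - 2) * (r - 3)
        = 32 * r ^ 4 - 32 * r * (6 * r * (r - 3) + 7 * r + 6) := by ring
    rw [e]
    have : 0 ≤ 32 * (r:ℝ) * (6 * r * (r - 3) + 7 * r + 6) := by
      have : (0:ℝ) ≤ r - 3 := by linarith
      positivity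
    linarith
  have s2 : ∑ j ∈ range N, q ^ j * (if j = 6 then cs t 7 (Forb (r := r)) else 0)
      ≤ t ^ 7 * (28 * r ^ 3) * q ^ 6 := by
    have e : ∀ j ∈ range N, q ^ j * (if j = 6 then cs t 7 (Forb (r := r)) else 0)
        = if j = 6 then q ^ 6 * cs t 7 (Forb (r := r)) else 0 := by
      intro j _
      by_cases h : j = 6
      · subst h; simp
      · simp [h]
    rw [Finset.sum_congr rfl e, Finset.sum_ite_eq']
    have : q ^ 6 * cs t 7 (Forb (r := r)) ≤ t ^ 7 * (28 * r ^ 3) * q ^ 6 := by
      rw [mul_comm]; exact mul_le_mul_of_nonneg_right f7 (by positivity)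
    split_ifs
    · exact this
    · positivity
  have s3 : ∑ j ∈ range N, q ^ j * (if j = 7 then cs t 8 (Forb (r := r)) else 0)
      ≤ t ^ 8 * (32 * r ^ 4) * q ^ 7 := by
    have e : ∀ j ∈ range N, q ^ j * (if j = 7 then cs t 8 (Forb (r := r)) else 0)
        = if j = 7 then q ^ 7 * cs t 8 (Forb (r := r)) else 0 := by
      intro j _
      by_cases h : j = 7
      · subst h; simp
      · simp [h]
    rw [Finset.sum_congr rfl e, Finset.sum_ite_eq']
    have : q ^ 7 * cs t 8 (Forb (r := r)) ≤ t ^ 8 * (32 * r ^ 4) * q ^ 7 := by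
      rw [mul_comm]; exact mul_le_mul_of_nonneg_right f8 (by positivity)
    split_ifs
    · exact this
    · positivity
  have s4 : ∑ j ∈ range N, q ^ j * (if 120 ≤ j then
      cs t (j + 1) (fun p : Wd r => nrm (disp p) ≤ 21 ∧ LL p.dropLast) else 0)
      ≤ t ^ 21 * ((2 * r) ^ 14 * (KM * (2 * r) ^ 87)) * q ^ 119 / (1 - al r * q) := by
    have b : ∀ j ∈ range N, q ^ j * (if 120 ≤ j then
        cs t (j + 1) (fun p : Wd r => nrm (disp p) ≤ 21 ∧ LL p.dropLast) else 0)
        ≤ t ^ 21 * ((2 * r) ^ 14 * (KM * (2 * r) ^ 87)) * q ^ 119 *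
          (if 120 ≤ j then (al r * q) ^ (j - 119) else 0) := by
      intro j _
      by_cases hj : 120 ≤ j
      · rw [if_pos hj, if_pos hj]
        obtain ⟨i, rfl⟩ : ∃ i, j = i + 119 := ⟨j - 119, by omega⟩
        have e1 : i + 119 + 1 = i + 120 := by omega
        have e2 : i + 119 - 119 = i := by omega
        rw [e1, e2]
        have h1 := cs_le_num' (r := r) ht (i + 120) 21
          (fun p : Wd r => nrm (disp p) ≤ 21 ∧ LL p.dropLast) (fun w _ h => h.1)
        have h2 := num_long (r := r) (by omega) i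
        have h3 := upper_bound hr hr2 hr3 i
        have k0 := KM_pos
        calc q ^ (i + 119) * cs t (i + 120) (fun p : Wd r => nrm (disp p) ≤ 21 ∧ LL p.dropLast)
            ≤ q ^ (i + 119) * (t ^ 21 * (((2 * r) ^ 14 * al r ^ i) * (KM * (2 * r) ^ 87))) := by
              apply mul_le_mul_of_nonneg_left _ (by positivity)
              refine h1.trans ?_
              apply mul_le_mul_of_nonneg_left _ (by positivity)
              refine h2.trans ?_
              exact mul_le_mul_of_nonneg_right h3 (by positivity)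
          _ = _ := by rw [mul_pow]; ring
      · rw [if_neg hj, if_neg hj]; simp
    have k0 := KM_pos
    calc _ ≤ ∑ j ∈ range N, t ^ 21 * ((2 * r) ^ 14 * (KM * (2 * r) ^ 87)) * q ^ 119 *
          (if 120 ≤ j then (al r * q) ^ (j - 119) else 0) := Finset.sum_le_sum b
      _ = t ^ 21 * ((2 * r) ^ 14 * (KM * (2 * r) ^ 87)) * q ^ 119 *
          ∑ j ∈ range N, (if 120 ≤ j then (al r * q) ^ (j - 119) else 0) := by
            rw [Finset.mul_sum]
      _ ≤ t ^ 21 * ((2 * r) ^ 14 * (KM * (2 * r) ^ 87)) * q ^ 119 * (1 / (1 - al r * q)) := by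
            apply mul_le_mul_of_nonneg_left (geom_tail (by positivity) hq3 N) (by positivity)
      _ = _ := by ring
  calc ∑ j ∈ range N, q ^ j * cs t (j + 1) (PP (r := r))
      ≤ ∑ j ∈ range N, q ^ j * ((if j < 120 then cs t (j + 1) (fun u : Wd r => 5 ≤ rep u) else 0)
      + (if j = 6 then cs t 7 (Forb (r := r)) else 0) + (if j = 7 then cs t 8 (Forb (r := r)) else 0)
      + (if 120 ≤ j then cs t (j + 1) (fun p : Wd r => nrm (disp p) ≤ 21 ∧ LL p.dropLast) else 0)) :=
        Finset.sum_le_sum fun j _ => mul_le_mul_of_nonneg_left (hP j) (by positivity)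
    _ = ∑ j ∈ range N, q ^ j * (if j < 120 then cs t (j + 1) (fun u : Wd r => 5 ≤ rep u) else 0)
        + ∑ j ∈ range N, q ^ j * (if j = 6 then cs t 7 (Forb (r := r)) else 0)
        + ∑ j ∈ range N, q ^ j * (if j = 7 then cs t 8 (Forb (r := r)) else 0)
        + ∑ j ∈ range N, q ^ j * (if 120 ≤ j then
            cs t (j + 1) (fun p : Wd r => nrm (disp p) ≤ 21 ∧ LL p.dropLast) else 0) := by
        simp only [mul_add, Finset.sum_add_distrib]
    _ ≤ TT t q r := by unfold TT; linarith

/-- The lower recursion. -/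
lemma lower_growth (hr : 14 ≤ r) (hr2 : 84 + 7 * (241 ^ 120 * 2 ^ 9) ≤ 28 * (r:ℝ))
    (hr3 : 192 + 7 * (241 ^ 120 * 2 ^ 10) ≤ 32 * (r:ℝ)) {t b : ℝ} (ht : 1 ≤ t)
    (hb1 : (r:ℝ) ≤ b) (hb2 : b ≤ 2 * r - 1) (hb3 : al r < b)
    (hcond : b + (2 * r - 1) / b + TT t b⁻¹ r ≤ r * (t + t⁻¹)) (n : ℕ) :
    b * cs t n (Good (r := r)) ≤ cs t (n + 1) (Good (r := r)) := by
  have hr' : (14 : ℝ) ≤ r := by exact_mod_cast hr
  have t0 : 0 < t := by linarith
  have b0 : 0 < b := by linarith
  have al0 : 0 < al r := by linarith [al_ge hr]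
  have hbase : (r:ℝ) * (t + t⁻¹) = 2 * r + r * (t + t⁻¹ - 2) := by ring
  have hs2 : 2 * (r:ℝ) ≤ r * (t + t⁻¹) := by
    rw [hbase]
    have := mul_nonneg (show (0:ℝ) ≤ r by linarith) (theta_nonneg t0)
    linarith
  have g0 : cs t 0 (Good (r := r)) = 1 := cs_zero (by
    refine ⟨FreeGroup.IsReduced.nil, ?_, ?_, ?_⟩
    · intro f hf hF
      rw [List.infix_nil] at hf
      exact hF.ne_nil hf
    · intro u hu _
      rw [List.infix_nil] at hu
      subst hu; simp [rep]
    · intro u hu h
      rw [List.infix_nil] at hu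
      subst hu; simp at h)
  have g1 : cs t 1 (Good (r := r)) = r * (t + t⁻¹) := cs_one_letter (fun a => by
    refine ⟨FreeGroup.IsReduced.singleton, ?_, ?_, ?_⟩
    · intro f hf hF
      have := hf.length_le
      rcases hF.length with h | h <;> (rw [h] at this; simp at this)
    · intro u hu _
      have h1 := hu.length_le
      have h2 : rep u ≤ u.length := by unfold rep; omega
      simp at h1
      omega
    · intro u hu h
      have h1 := hu.length_le
      simp at h1
      omega)
  have hq3 : al r * b⁻¹ < 1 := by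
    rw [← div_eq_mul_inv, div_lt_one b0]; exact hb3
  have hTT : 0 ≤ TT t b⁻¹ r := by
    have := pp_sum hr hr2 hr3 ht (inv_pos.2 b0) (by rw [inv_mul_le_iff₀ b0]; linarith) hq3 0
    simpa using this
  induction n using Nat.strong_induction_on with
  | _ n ih =>
    cases n with
    | zero =>
      rw [g0, zero_add, g1, mul_one]
      have : 0 ≤ (2 * (r:ℝ) - 1) / b := div_nonneg (by linarith) b0.le
      linarith
    | succ k =>
      have hrec := rec_main t0 (cls_good (r := r)) k
      obtain ⟨Wk, hWk⟩ : ∃ Wk, Wk = cs t (k + 1) (Good (r := r)) := ⟨_, rfl⟩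
      have Wk0 : 0 ≤ Wk := by rw [hWk]; exact cs_nonneg t0 _ _
      -- iterated induction hypothesis
      have iter : ∀ i ≤ k + 1, cs t (k + 1 - i) (Good (r := r)) ≤ b⁻¹ ^ i * Wk := by
        intro i
        induction i with
        | zero => intro _; simp [hWk]
        | succ i ih2 =>
          intro hi
          have h1 := ih2 (by omega)
          have h2 := ih (k + 1 - (i + 1)) (by omega)
          rw [show k + 1 - (i + 1) + 1 = k + 1 - i by omega] at h2
          have h3 : cs t (k + 1 - (i + 1)) (Good (r := r)) ≤ b⁻¹ * cs t (k + 1 - i) (Good (r := r)) := by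
            rw [← div_eq_inv_mul, le_div_iff₀ b0]; linarith
          refine h3.trans ?_
          calc b⁻¹ * cs t (k + 1 - i) (Good (r := r)) ≤ b⁻¹ * (b⁻¹ ^ i * Wk) :=
                mul_le_mul_of_nonneg_left h1 (by positivity)
            _ = _ := by rw [pow_succ]; ring
      -- the correction term
      have hd : dsum t k (fun w : Wd r => Good w) ≤ (2 * r - 1) / b * Wk := by
        cases k with
        | zero =>
          refine dsum_zero.trans ?_
          rw [hWk, zero_add, g1]
          have h1 : 1 ≤ (2 * (r:ℝ) - 1) / b := by rw [le_div_iff₀ b0]; linarith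
          nlinarith
        | succ k =>
          refine (dsum_le t0 cls_good k).trans ?_
          have h1 := iter 1 (by omega)
          rw [pow_one, show k + 1 + 1 - 1 = k + 1 by omega] at h1
          calc (2 * (r:ℝ) - 1) * cs t (k + 1) (fun w : Wd r => Good w)
              ≤ (2 * (r:ℝ) - 1) * (b⁻¹ * Wk) := mul_le_mul_of_nonneg_left h1 (by linarith)
            _ = _ := by rw [div_eq_mul_inv]; ring
      -- the patterns
      have hp : cs t (k + 2) (Ext (fun w : Wd r => Good w)) ≤ TT t b⁻¹ r * Wk := by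
        have h1 := cs_ext_le t0 (C := fun w : Wd r => Good w) (PP (r := r)) (k + 1)
          (fun u hu hx => ext_good hu hx)
        refine h1.trans ?_
        rw [← Finset.sum_range_reflect]
        calc ∑ j ∈ range (k + 1 + 1), cs t (k + 1 + 1 - 1 - j) (fun w : Wd r => Good w)
              * cs t (k + 1 + 1 - (k + 1 + 1 - 1 - j)) (PP (r := r))
            ≤ ∑ j ∈ range (k + 1 + 1), b⁻¹ ^ j * cs t (j + 1) (PP (r := r)) * Wk := by
              apply Finset.sum_le_sum
              intro j hj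
              have hj' := Finset.mem_range.1 hj
              have h2 := iter j (by omega)
              rw [show k + 1 + 1 - 1 - j = k + 1 - j by omega,
                show k + 1 + 1 - (k + 1 - j) = j + 1 by omega]
              calc cs t (k + 1 - j) (fun w : Wd r => Good w) * cs t (j + 1) (PP (r := r))
                  ≤ (b⁻¹ ^ j * Wk) * cs t (j + 1) (PP (r := r)) :=
                    mul_le_mul_of_nonneg_right h2 (cs_nonneg t0 _ _)
                _ = _ := by ring
          _ = (∑ j ∈ range (k + 1 + 1), b⁻¹ ^ j * cs t (j + 1) (PP (r := r))) * Wk := by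
              rw [Finset.sum_mul]
          _ ≤ TT t b⁻¹ r * Wk := by
              apply mul_le_mul_of_nonneg_right _ Wk0
              exact pp_sum hr hr2 hr3 ht (inv_pos.2 b0) (by rw [inv_mul_le_iff₀ b0]; linarith) hq3 _
      rw [← hWk] at hrec ⊢
      have e : cs t (k + 1 + 1) (Good (r := r)) = cs t (k + 2) (fun w : Wd r => Good w) := rfl
      rw [e]
      have hh : r * (t + t⁻¹) * Wk ≥ (b + (2 * r - 1) / b + TT t b⁻¹ r) * Wk :=
        mul_le_mul_of_nonneg_right hcond Wk0
      nlinarith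

end Pool.Agent.Helper62.FM
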