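import Pool.Agent.Helper62.FM.Upper

/-!
Spheres in the free metabelian group: comparison with classes of words, submultiplicativity.
-/

namespace Pool.Agent.Helper62.FM

open Finset

variable {r : ℕ}

lemma len_le (w : Wd r) : len (el w) ≤ w.length := Nat.sInf_le ⟨w, rfl, rfl⟩

lemma exists_geo (g : FMet r) : ∃ w : Wd r, w.length = len g ∧ el w = g := by
  have : (sInf {n | ∃ w : Wd r, w.length = n ∧ el w = g}) ∈ {n | ∃ w : Wd r, w.length = n ∧ el w = g} := by
    apply Nat.sInf_mem
    obtain ⟨w, hw⟩ := el_surj g
    exact ⟨w.length, w, rfl, hw⟩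
  exact this

lemma len_mul (g h : FMet r) : len (g * h) ≤ len g + len h := by
  obtain ⟨u, hu, rfl⟩ := exists_geo g
  obtain ⟨v, hv, rfl⟩ := exists_geo h
  rw [← el_append, ← hu, ← hv, ← List.length_append]
  exact len_le _

lemma finite_sph (r n : ℕ) : Finite {g : FMet r // len g = n} := by
  choose f hf using fun g : FMet r => exists_geo g
  refine Finite.of_injective (β := {w : Wd r // w ∈ W r n})
    (fun g => ⟨f g.1, mem_W.2 ((hf g.1).1.trans g.2)⟩) ?_
  intro g h e
  have e' : f g.1 = f h.1 := by simpa using e
  apply Subtype.ext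
  rw [← (hf g.1).2, ← (hf h.1).2, e']

lemma FP.length_eq {f f' : Wd r} (h : FP f f') : f'.length = f.length := by
  cases h <;> rfl

lemma FP.heads {f f' : Wd r} (h : FP f f') (s t : Wd r) :
    (s ++ f' ++ t).map Prod.fst < (s ++ f ++ t).map Prod.fst := by
  rw [List.append_assoc, List.append_assoc, List.map_append, List.map_append (l₁ := s)]
  apply List.append_left_lt
  cases h <;> (simp only [List.cons_append, List.map_cons]; rw [List.cons_lt_cons_iff]; left; assumption)

/-- Every element has a geodesic word which is reduced and has no forbidden factor. -/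
lemma exists_LL (g : FMet r) : ∃ w : Wd r, w.length = len g ∧ el w = g ∧ LL w := by
  classical
  obtain ⟨w0, h0, h0'⟩ := exists_geo g
  obtain ⟨w, hw, hmin⟩ := Finset.exists_min_image ((W r (len g)).filter fun w => el w = g)
    (fun w => w.map Prod.fst) ⟨w0, by simp [h0, h0']⟩
  rw [Finset.mem_filter, mem_W] at hw
  refine ⟨w, hw.1, hw.2, ?_, ?_⟩
  · rw [Rd, FreeGroup.isReduced_iff_not_step]
    intro v hv
    have h1 := hv.length
    have h2 : el v = g := by
      rw [← hw.2]
      unfold el
      congr 1
      exact (Quot.sound hv).symm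
    have h3 := len_le v
    rw [h2] at h3
    omega
  · rintro f ⟨s, t, rfl⟩ ⟨f', hf⟩
    have h1 := hmin (s ++ f' ++ t) (by
      rw [Finset.mem_filter, mem_W]
      refine ⟨?_, ?_⟩
      · rw [← hw.1]; simp [hf.length_eq]
      · rw [← hw.2, el_append, el_append, el_append, el_append, el_eq_of_FP hf])
    exact absurd h1 (not_le.2 (hf.heads s t))

lemma sph_le (n : ℕ) : (sph r n : ℝ) ≤ num r n LL := by
  classical
  choose f hf using fun g : FMet r => exists_LL g
  rw [num_eq_card, ← Nat.card_eq_finsetCard]
  unfold sph
  have : Nat.card {g : FMet r // len g = n} ≤ Nat.card ((W r n).filter LL) := by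
    apply Nat.card_le_card_of_injective
      (fun g => (⟨f g.1, by
        rw [Finset.mem_filter, mem_W]
        exact ⟨(hf g.1).1.trans g.2, (hf g.1).2.2⟩⟩ : ((W r n).filter LL : Finset (Wd r))))
    intro g h e
    have e' : f g.1 = f h.1 := by simpa using e
    apply Subtype.ext
    rw [← (hf g.1).2.1, ← (hf h.1).2.1, e']
  exact_mod_cast this

/-- Good words represent distinct elements. -/
lemma good_el_inj {w w' : Wd r} (h : Good w) (h' : Good w') (e : el w = el w') : w = w' :=
  good_inj _ w w' rfl h h' (fl_eq_of_el_eq e)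

lemma num_good_le (n : ℕ) : num r n Good ≤ ∑ k ∈ range (n + 1), (sph r k : ℝ) := by
  classical
  rw [num_eq_card]
  have h1 : ((W r n).filter Good).card
      = ∑ k ∈ range (n + 1), (((W r n).filter Good).filter fun w => len (el w) = k).card := by
    apply Finset.card_eq_sum_card_fiberwise
    intro w hw
    have h := Finset.mem_filter.1 (Finset.mem_coe.1 hw)
    have h2 := len_le w
    rw [mem_W] at h
    rw [h.1] at h2
    exact Finset.mem_coe.2 (Finset.mem_range.2 (Nat.lt_succ_of_le h2))
  rw [h1]
  push_cast
  apply Finset.sum_le_sum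
  intro k _
  have := finite_sph r k
  have h2 : (((W r n).filter Good).filter fun w => len (el w) = k).card ≤ sph r k := by
    rw [← Nat.card_eq_finsetCard]
    unfold sph
    apply Nat.card_le_card_of_injective
      (fun w : (((W r n).filter Good).filter fun w => len (el w) = k : Finset (Wd r)) =>
        (⟨el w.1, (Finset.mem_filter.1 w.2).2⟩ : {g : FMet r // len g = k}))
    intro w w' e
    have e' : el w.1 = el w'.1 := by simpa using e
    have g1 := (Finset.mem_filter.1 (Finset.mem_filter.1 w.2).1).2
    have g2 := (Finset.mem_filter.1 (Finset.mem_filter.1 w'.2).1).2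
    exact Subtype.ext (good_el_inj g1 g2 e')
  exact_mod_cast h2

lemma exists_factor {m n : ℕ} (g : FMet r) (h : len g = m + n) :
    ∃ g1 g2 : FMet r, len g1 = m ∧ len g2 = n ∧ g1 * g2 = g := by
  obtain ⟨w, hw, rfl⟩ := exists_geo g
  rw [h] at hw
  have e : el (w.take m) * el (w.drop m) = el w := by
    rw [← el_append, List.take_append_drop]
  have h1 := len_le (w.take m)
  have h2 := len_le (w.drop m)
  have h3 := len_mul (el (w.take m)) (el (w.drop m))
  rw [e, h] at h3
  rw [List.length_take] at h1
  rw [List.length_drop] at h2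
  exact ⟨_, _, by omega, by omega, e⟩

lemma sph_mul (m n : ℕ) : sph r (m + n) ≤ sph r m * sph r n := by
  unfold sph
  rw [← Nat.card_prod]
  have := finite_sph r m
  have := finite_sph r n
  choose g1 g2 h using fun g : {g : FMet r // len g = m + n} => exists_factor g.1 g.2
  apply Nat.card_le_card_of_injective
    (fun g => ((⟨g1 g, (h g).1⟩, ⟨g2 g, (h g).2.1⟩) :
      {g : FMet r // len g = m} × {g : FMet r // len g = n}))
  intro x y e
  simp only [Prod.mk.injEq, Subtype.mk.injEq] at e
  apply Subtype.ext
  rw [← (h x).2.2, ← (h y).2.2, e.1, e.2]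

lemma disp_replicate (a : Lt r) (n : ℕ) : disp (List.replicate n a) = n • step a := by
  induction n with
  | zero => simp
  | succ n ih => rw [List.replicate_succ, disp, ih, succ_nsmul, add_comm]

lemma nrm_replicate (a : Lt r) (n : ℕ) : nrm (disp (List.replicate n a)) = n := by
  rw [disp_replicate]
  unfold nrm
  rw [Finset.sum_eq_single a.1]
  · simp only [Pi.smul_apply, step_self, nsmul_eq_mul]
    rcases sgn_eq a with h | h <;> rw [h] <;> simp
  · intro k _ hk
    simp [step_of_ne hk]
  · intro h; exact absurd (Finset.mem_univ _) h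

lemma sph_pos (hr : 1 ≤ r) (n : ℕ) : 1 ≤ sph r n := by
  have hfin := finite_sph r n
  have a : Lt r := (⟨0, hr⟩, true)
  have h : len (el (List.replicate n a)) = n := by
    apply le_antisymm
    · refine (len_le _).trans ?_
      simp
    · obtain ⟨w, hw, he⟩ := exists_geo (el (List.replicate n a))
      rw [← hw]
      have h1 := disp_eq_of_fl_eq (fl_eq_of_el_eq he)
      have h2 := nrm_disp_le w
      rw [h1, nrm_replicate] at h2
      exact h2
  unfold sph
  have : Nonempty {g : FMet r // len g = n} := ⟨⟨_, h⟩⟩
  exact Nat.card_pos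

end Pool.Agent.Helper62.FM
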