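import Pool.Agent.Helper62.FM.Group

/-!
Short words with vanishing flow: a nonempty freely reduced word with vanishing flow has length at
least fourteen.
-/

namespace Pool.Agent.Helper62.FM

open Finset

variable {r : ℕ}

lemma rd_append_left {u v : Wd r} (h : Rd (u ++ v)) : Rd u := (List.isChain_append.1 h).1
lemma rd_append_right {u v : Wd r} (h : Rd (u ++ v)) : Rd v := (List.isChain_append.1 h).2.1
lemma rd_factor {u w : Wd r} (h : Rd w) (hu : u <:+: w) : Rd u := by
  obtain ⟨s, t, rfl⟩ := hu
  exact rd_append_right (rd_append_left h)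
lemma rd_tail {a : Lt r} {v : Wd r} (h : Rd (a :: v)) : Rd v := rd_factor h ⟨[a], [], by simp⟩

lemma not_rd {u v : Wd r} {a : Lt r} (h : Rd (u ++ a :: bar a :: v)) : False := by
  have h1 : Rd (a :: bar a :: v) := rd_append_right h
  rw [Rd, FreeGroup.isReduced_cons_cons] at h1
  have := h1.1 rfl
  obtain ⟨i, b⟩ := a
  cases b <;> simp [bar] at this

lemma rd_cons_cons {a b : Lt r} {v : Wd r} : Rd (a :: b :: v) ↔ b ≠ bar a ∧ Rd (b :: v) := by
  rw [Rd, FreeGroup.isReduced_cons_cons]
  refine and_congr_left fun _ => ?_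
  obtain ⟨i, x⟩ := a
  obtain ⟨j, y⟩ := b
  cases x <;> cases y <;> simp [bar, eq_comm]

lemma rd_append_iff {u v : Wd r} {a b : Lt r} :
    Rd ((u ++ [a]) ++ (b :: v)) ↔ Rd (u ++ [a]) ∧ Rd (b :: v) ∧ b ≠ bar a := by
  constructor
  · intro h
    refine ⟨rd_append_left h, rd_append_right h, ?_⟩
    rintro rfl
    rw [List.append_assoc] at h
    exact not_rd h
  · rintro ⟨h1, h2, h3⟩
    have h4 : Rd ([a] ++ (b :: v)) := by
      simpa using rd_cons_cons.2 ⟨h3, h2⟩
    exact FreeGroup.IsReduced.append_overlap h1 h4 (by simp)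

lemma rd_rv {w : Wd r} (h : Rd w) : Rd (rv w) := by
  rw [Rd, FreeGroup.isReduced_iff_reduce_eq] at h ⊢
  rw [rv_eq_invRev, FreeGroup.reduce_invRev, h]

/-- Cyclically reduced words. -/
def CR (w : Wd r) : Prop := Rd (w ++ w)

lemma CR.rd {w : Wd r} (h : CR w) : Rd w := rd_append_left h

lemma CR.rot {u v : Wd r} (h : CR (u ++ v)) : CR (v ++ u) := by
  by_cases hn : u ++ v = []
  · rw [List.append_eq_nil_iff] at hn
    rw [hn.1, hn.2] at h ⊢
    exact h
  · have h1 : Rd (v ++ (u ++ v)) := rd_factor h ⟨u, [], by simp⟩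
    have h2 : Rd ((u ++ v) ++ u) := rd_factor h ⟨[], v, by simp⟩
    have h3 := FreeGroup.IsReduced.append_overlap h1 h2 hn
    unfold CR
    simpa using h3

lemma fl_rot {u v : Wd r} (h : fl (u ++ v) = 0) : fl (v ++ u) = 0 := by
  funext p a
  have hd := fl_zero_disp h
  rw [disp_append] at hd
  have h1 := congrFun (congrFun h (p + disp u)) a
  rw [fl_append] at h1 ⊢
  have e1 : p - disp v = p + disp u := by
    rw [eq_neg_of_add_eq_zero_right hd]; abel
  have e2 : p + disp u - disp u = p := by abel
  rw [e1]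
  rw [e2] at h1
  simpa [add_comm] using h1

lemma sum_disp_parity (w : Wd r) : (∑ k, disp w k) % 2 = (w.length : ℤ) % 2 := by
  induction w with
  | nil => simp
  | cons a w ih =>
    have : ∑ k, disp (a :: w) k = sgn a + ∑ k, disp w k := by
      simp only [disp_cons, Pi.add_apply, Finset.sum_add_distrib]
      congr 1
      simp [step_apply]
    rw [this, List.length_cons]
    push_cast
    rcases sgn_eq a with h | h <;> rw [h] <;> omega

lemma even_of_closed {w : Wd r} (h : disp w = 0) : w.length % 2 = 0 := by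
  have := sum_disp_parity w
  rw [h] at this
  simp at this
  omega

lemma cnt_even {w : Wd r} (h : disp w = 0) (k : Fin r) : cnt k w % 2 = 0 := by
  have := disp_parity k w
  rw [h] at this
  simp at this
  omega

/-- A closed nonempty reduced word has length at least four. -/
lemma four_le {w : Wd r} (h1 : Rd w) (h2 : disp w = 0) (h3 : w ≠ []) : 4 ≤ w.length := by
  have h4 := even_of_closed h2
  have h5 : w.length ≠ 0 := by simpa using h3
  by_contra h6
  have h7 : w.length = 2 := by omega
  obtain ⟨a, b, rfl⟩ := List.length_eq_two.1 h7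
  have h8 : step a + step b = 0 := by simpa using h2
  have h9 : step b = step (bar a) := by
    rw [step_bar]; exact eq_neg_of_add_eq_zero_right h8
  have h10 := step_inj h9
  subst h10
  exact not_rd (u := []) (v := []) h1

/-- The first letter with index `k`. -/
lemma exists_first {k : Fin r} {w : Wd r} (h : k ∈ idx w) :
    ∃ u a v, w = u ++ a :: v ∧ a.1 = k ∧ k ∉ idx u := by
  induction w with
  | nil => simp at h
  | cons b w ih =>
    by_cases hb : b.1 = k
    · exact ⟨[], b, w, rfl, hb, by simp⟩
    · have : k ∈ idx w := by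
        rw [idx_cons, Finset.mem_insert] at h
        exact h.resolve_left fun e => hb e.symm
      obtain ⟨u, a, v, h1, h2, h3⟩ := ih this
      refine ⟨b :: u, a, v, by rw [h1]; rfl, h2, ?_⟩
      rw [idx_cons, Finset.mem_insert, not_or]
      exact ⟨fun e => hb e.symm, h3⟩

lemma fl_cons_ne {a b : Lt r} (h : a.1 ≠ b.1) (w : Wd r) (p : Pt r) :
    fl (b :: w) p a = fl w (p - step b) a := by
  rw [fl_cons, if_neg, if_neg]
  · ring
  · rintro ⟨_, rfl⟩; exact h rfl
  · rintro ⟨_, rfl⟩; exact h rfl

/-- A word without `k` with vanishing flow in the level zero off the direction `k` has vanishing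
flow. -/
lemma fl_zero_of_level {k : Fin r} {w : Wd r} (h : k ∉ idx w)
    (h0 : ∀ p a, p k = 0 → a.1 ≠ k → fl w p a = 0) : fl w = 0 := by
  funext p a
  by_cases h1 : p k = 0
  · by_cases h2 : a.1 = k
    · exact fl_eq_zero_of_idx h p h2
    · exact h0 p a h1 h2
  · exact fl_eq_zero_of_level h a h1

lemma exists_reduced (w : Wd r) : ∃ v, Rd v ∧ v.length ≤ w.length ∧ FreeGroup.mk v = FreeGroup.mk w := by
  refine ⟨FreeGroup.reduce w, FreeGroup.IsReduced.of_reduce_eq FreeGroup.reduce.idem, ?_,
    FreeGroup.reduce.self⟩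
  exact FreeGroup.Red.length_le FreeGroup.reduce.red

lemma eq_rv_of_mk {u v : Wd r} (hu : Rd u) (hv : Rd v) (h : FreeGroup.mk (u ++ v) = 1) :
    v = rv u := by
  have h1 : FreeGroup.mk v = FreeGroup.mk (rv u) := by
    rw [← FreeGroup.mul_mk] at h
    rw [rv_eq_invRev, ← FreeGroup.inv_mk]
    exact eq_inv_of_mul_eq_one_right h
  have h2 := FreeGroup.reduce.sound h1
  rw [FreeGroup.isReduced_iff_reduce_eq.1 hv, FreeGroup.isReduced_iff_reduce_eq.1 (rd_rv hu)] at h2
  exact h2

lemma split_first {k : Fin r} {n : ℕ} {w : Wd r} (h : cnt k w = n + 1) :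
    ∃ u a v, w = u ++ a :: v ∧ a.1 = k ∧ k ∉ idx u ∧ cnt k v = n := by
  obtain ⟨u, a, v, h1, h2, h3⟩ := exists_first (k := k) (w := w) (cnt_pos.1 (by omega))
  refine ⟨u, a, v, h1, h2, h3, ?_⟩
  rw [h1, cnt_append, cnt_cons, if_pos h2, cnt_eq_zero.2 h3] at h
  omega

/-- Rotate a word so that it starts with a letter of index `k`. -/
lemma rot_first {k : Fin r} {n : ℕ} {w : Wd r} (hw : CR w) (hz : fl w = 0) (hk : cnt k w = n + 1) :
    ∃ u v g X, w = u ++ v ∧ v ++ u = g :: X ∧ g.1 = k ∧ CR (g :: X) ∧ fl (g :: X) = 0 ∧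
      cnt k X = n ∧ X.length + 1 = w.length := by
  obtain ⟨A, g, B, h1, h2, h3⟩ := exists_first (k := k) (w := w) (cnt_pos.1 (by omega))
  have e : (g :: B) ++ A = g :: (B ++ A) := rfl
  refine ⟨A, g :: B, g, B ++ A, h1, e, h2, ?_, ?_, ?_, ?_⟩
  · rw [← e]; rw [h1] at hw; exact hw.rot
  · rw [← e]; rw [h1] at hz; exact fl_rot hz
  · rw [h1, cnt_append, cnt_cons, if_pos h2] at hk
    rw [cnt_append]; omega
  · rw [h1]; simp; omega

lemma two_absurd {k : Fin r} {w : Wd r} (hw : CR w) (hz : fl w = 0) (hk : cnt k w = 2)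
    (H : ∀ v : Wd r, Rd v → fl v = 0 → v.length + 3 ≤ w.length → v = []) : False := by
  obtain ⟨u, v, g, X, h1, h2, h3, h4, h5, h6, h7⟩ := rot_first hw hz hk
  obtain ⟨V1, h, V2, rfl, e2, e3, e4⟩ := split_first (n := 0) h6
  have e5 : k ∉ idx V2 := cnt_eq_zero.1 e4
  have hd := fl_zero_disp h5
  have hdk := congrFun hd k
  simp only [disp_cons, disp_append, Pi.add_apply, disp_of_not_mem e3, disp_of_not_mem e5,
    Pi.zero_apply] at hdk
  have hgh : g.1 = h.1 := by rw [h3, e2]
  have hh : h = bar g := by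
    rcases eq_or_eq_bar hgh with e | e
    · exfalso
      rw [← e] at hdk
      have : step g k = sgn g := by rw [← h3]; exact step_self g
      rw [this] at hdk
      rcases sgn_eq g with hs | hs <;> rw [hs] at hdk <;> omega
    · rw [e, bar_bar]
  subst hh
  have hgk : step g k = sgn g := by rw [← h3]; exact step_self g
  have hg0 := sgn_ne g
  have z1 : fl V1 = 0 := by
    apply fl_zero_of_level e3
    intro p a hp ha
    have hag : a.1 ≠ g.1 := by rw [h3]; exact ha
    have := congrFun (congrFun h5 (p + step g)) a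
    rw [fl_cons_ne hag, fl_append, fl_cons_ne (by simpa using hag)] at this
    rw [fl_eq_zero_of_level e5 a (p := p + step g - step g - disp V1 - step (bar g))] at this
    · simpa using this
    · simp [hp, disp_of_not_mem e3, hgk, hg0]
  have n1 : V1 ≠ [] := by
    rintro rfl
    exact not_rd (u := []) (v := V2) h4.rd
  have n2 : V2 ≠ [] := by
    rintro rfl
    have h8 : Rd ((g :: (V1 ++ [bar g])) ++ (g :: (V1 ++ [bar g]))) := h4
    have h9 : (g :: (V1 ++ [bar g])) ++ (g :: (V1 ++ [bar g]))
        = (g :: V1) ++ bar g :: bar (bar g) :: (V1 ++ [bar g]) := by simp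
    rw [h9] at h8
    exact not_rd h8
  apply n1
  apply H V1 _ z1
  · have : 1 ≤ V2.length := List.length_pos_iff.2 n2
    simp at h7
    omega
  · have h10 : Rd (([g] ++ V1) ++ (bar g :: V2)) := by simpa using h4.rd
    exact rd_append_right (rd_append_left h10)

/-- The main alternative for four letters with alternating signs. -/
lemma four_alt {k : Fin r} {g : Lt r} {V1 V2 V3 V4 : Wd r} (hg : g.1 = k) (h1 : k ∉ idx V1)
    (h2 : k ∉ idx V2) (h3 : k ∉ idx V3) (h4 : k ∉ idx V4)
    (hz : fl (g :: (V1 ++ bar g :: (V2 ++ g :: (V3 ++ bar g :: V4)))) = 0) :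
    (disp V1 = 0 ∧ disp V3 = 0) ∨ (disp V2 = 0 ∧ disp V4 = 0) := by
  have key : ∀ p, (if p = 0 then (1:ℤ) else 0) - (if p = disp V1 then 1 else 0)
      + (if p = disp V1 + disp V2 then 1 else 0)
      - (if p = disp V1 + disp V2 + disp V3 then 1 else 0) = 0 := by
    intro p
    have := congrFun (congrFun hz p) g
    rw [fl_cons, fl_append, fl_cons, fl_append, fl_cons, fl_append, fl_cons,
      fl_eq_zero_of_idx h1 _ hg, fl_eq_zero_of_idx h2 _ hg, fl_eq_zero_of_idx h3 _ hg,
      fl_eq_zero_of_idx h4 _ hg] at this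
    simp only [(bar_ne g).symm, and_false, if_false, bar_bar, and_true, step_bar, Pi.zero_apply,
      sub_zero, add_zero, zero_sub, zero_add] at this
    have e1 : (p - step g - disp V1 = -step g) ↔ p = disp V1 := by
      rw [show p - step g - disp V1 = (p - disp V1) + -step g by abel, add_eq_right, sub_eq_zero]
    have e2 : (p - step g - disp V1 - -step g - disp V2 = 0) ↔ p = disp V1 + disp V2 := by
      rw [show p - step g - disp V1 - -step g - disp V2 = p - (disp V1 + disp V2) by abel,
        sub_eq_zero]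
    have e3 : (p - step g - disp V1 - -step g - disp V2 - step g - disp V3 = -step g) ↔
        p = disp V1 + disp V2 + disp V3 := by
      rw [show p - step g - disp V1 - -step g - disp V2 - step g - disp V3
        = p - (disp V1 + disp V2 + disp V3) + -step g by abel, add_eq_right, sub_eq_zero]
    simp only [e1, e2, e3] at this
    linarith
  have hd := fl_zero_disp hz
  have hd' : disp V1 + disp V2 + disp V3 + disp V4 = 0 := by
    have : disp (g :: (V1 ++ bar g :: (V2 ++ g :: (V3 ++ bar g :: V4))))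
        = disp V1 + disp V2 + disp V3 + disp V4 := by
      simp only [disp_cons, disp_append, step_bar]; abel
    rw [← this, hd]
  by_cases c1 : disp V1 = 0
  · left
    refine ⟨c1, ?_⟩
    have k2 := key (disp V2)
    by_contra c3
    have c4 : ¬ (disp V2 = disp V2 + disp V3) := fun e => c3 (by simpa using e)
    simp only [c1, zero_add, if_true, c4, if_false] at k2
    by_cases h : disp V2 = 0 <;> simp [h] at k2
  · right
    have k0 := key 0
    rw [if_pos rfl, if_neg (fun e => c1 e.symm)] at k0
    have k3 : (0 : Pt r) = disp V1 + disp V2 + disp V3 := by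
      by_contra c
      rw [if_neg c] at k0
      by_cases h : (0 : Pt r) = disp V1 + disp V2
      · rw [if_pos h] at k0; omega
      · rw [if_neg h] at k0; omega
    have k1 := key (disp V1)
    rw [if_neg c1, if_pos rfl, ← k3, if_neg c1] at k1
    have k4 : disp V1 = disp V1 + disp V2 := by
      by_contra c
      rw [if_neg c] at k1
      omega
    refine ⟨by simpa using k4.symm, ?_⟩
    rw [← k3, zero_add] at hd'
    exact hd'

lemma four_core {k : Fin r} {g : Lt r} {V1 V2 V3 V4 : Wd r} (hg : g.1 = k) (h1 : k ∉ idx V1)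
    (h2 : k ∉ idx V2) (h3 : k ∉ idx V3) (h4 : k ∉ idx V4)
    (hc : CR (g :: (V1 ++ bar g :: (V2 ++ g :: (V3 ++ bar g :: V4)))))
    (hz : fl (g :: (V1 ++ bar g :: (V2 ++ g :: (V3 ++ bar g :: V4)))) = 0)
    (d1 : disp V1 = 0) (d3 : disp V3 = 0)
    (H : ∀ v : Wd r, Rd v → fl v = 0 →
      v.length + 3 ≤ (g :: (V1 ++ bar g :: (V2 ++ g :: (V3 ++ bar g :: V4)))).length → v = []) :
    V4 = rv V2 ∧ V1 ≠ [] ∧ V2 ≠ [] ∧ V3 ≠ [] ∧
      ∀ p a, fl V1 p a + fl V3 (p - disp V2) a = 0 := by
  have hgk : step g k = sgn g := by rw [← hg]; exact step_self g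
  have hg0 := sgn_ne g
  have hr := hc.rd
  have n1 : V1 ≠ [] := by
    rintro rfl
    exact not_rd (u := []) hr
  have n3 : V3 ≠ [] := by
    rintro rfl
    have : g :: (V1 ++ bar g :: (V2 ++ g :: ([] ++ bar g :: V4)))
        = (g :: (V1 ++ bar g :: V2)) ++ g :: bar g :: V4 := by simp
    rw [this] at hr
    exact not_rd hr
  have r4 : Rd V4 := by
    have : g :: (V1 ++ bar g :: (V2 ++ g :: (V3 ++ bar g :: V4)))
        = (g :: (V1 ++ bar g :: (V2 ++ g :: (V3 ++ [bar g])))) ++ V4 := by simp
    rw [this] at hr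
    exact rd_append_right hr
  have r2 : Rd V2 := by
    have : g :: (V1 ++ bar g :: (V2 ++ g :: (V3 ++ bar g :: V4)))
        = (g :: (V1 ++ [bar g])) ++ (V2 ++ (g :: (V3 ++ bar g :: V4))) := by simp
    rw [this] at hr
    exact rd_append_left (rd_append_right hr)
  have gen : ∀ p a, a.1 ≠ k → fl V1 (p - step g) a + (fl V2 p a +
      (fl V3 (p - disp V2 - step g) a + fl V4 (p - disp V2) a)) = 0 := by
    intro p a ha
    have hag : a.1 ≠ g.1 := by rw [hg]; exact ha
    have hag' : a.1 ≠ (bar g).1 := hag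
    have := congrFun (congrFun hz p) a
    rw [fl_cons_ne hag, fl_append, fl_cons_ne hag', fl_append, fl_cons_ne hag, fl_append,
      fl_cons_ne hag', d1, d3, step_bar] at this
    have e1 : p - step g - 0 - -step g = p := by abel
    have e2 : p - disp V2 - step g - 0 - -step g = p - disp V2 := by abel
    rw [e1, e2] at this
    exact this
  have zz : fl (V2 ++ V4) = 0 := by
    apply fl_zero_of_level (k := k)
    · rw [idx_append, Finset.mem_union, not_or]; exact ⟨h2, h4⟩
    · intro p a hp ha
      have := gen p a ha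
      rw [fl_eq_zero_of_level h1 a (by simp [hp, hgk, hg0]),
        fl_eq_zero_of_level h3 a (by simp [hp, hgk, hg0, disp_of_not_mem h2])] at this
      rw [fl_append]
      simpa using this
  have hV1 : 1 ≤ V1.length := List.length_pos_iff.2 n1
  have hv4 : V4 = rv V2 := by
    obtain ⟨R, R1, R2, R3⟩ := exists_reduced (V2 ++ V4)
    have hR : R = [] := by
      apply H R R1
      · rw [fl_eq_of_mk_eq R3]; exact zz
      · simp only [List.length_append, List.length_cons] at R2 ⊢
        omega
    rw [hR] at R3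
    exact eq_rv_of_mk r2 r4 (by rw [← R3]; rfl)
  refine ⟨hv4, n1, ?_, n3, ?_⟩
  · rintro rfl
    have : g :: (V1 ++ bar g :: ([] ++ g :: (V3 ++ bar g :: V4)))
        = (g :: V1) ++ bar g :: bar (bar g) :: (V3 ++ bar g :: V4) := by simp
    rw [this] at hr
    exact not_rd hr
  · intro p a
    by_cases ha : a.1 = k
    · rw [fl_eq_zero_of_idx h1 _ ha, fl_eq_zero_of_idx h3 _ ha]; rfl
    by_cases hp : p k = 0
    · have := gen (p + step g) a ha
      rw [fl_eq_zero_of_level h2 a (by simp [hp, hgk, hg0]),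
        fl_eq_zero_of_level h4 a (by simp [hp, hgk, hg0, disp_of_not_mem h2])] at this
      have e1 : p + step g - step g = p := by abel
      have e2 : p + step g - disp V2 - step g = p - disp V2 := by abel
      rw [e1, e2] at this
      simpa using this
    · rw [fl_eq_zero_of_level h1 a hp,
        fl_eq_zero_of_level h3 a (by simpa [disp_of_not_mem h2] using hp)]; rfl

/-- Concatenation of blocks `g :: V`. -/
def catW (L : List (Lt r × Wd r)) : Wd r := (L.map fun x => x.1 :: x.2).flatten

@[simp] lemma catW_nil : catW ([] : List (Lt r × Wd r)) = [] := rfl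
@[simp] lemma catW_cons (x : Lt r × Wd r) (L : List (Lt r × Wd r)) :
    catW (x :: L) = x.1 :: (x.2 ++ catW L) := rfl

lemma catW_append (L M : List (Lt r × Wd r)) : catW (L ++ M) = catW L ++ catW M := by
  simp [catW]

/-- Blocks of index `k`. -/
def Blk (k : Fin r) (L : List (Lt r × Wd r)) : Prop := ∀ x ∈ L, x.1.1 = k ∧ k ∉ idx x.2

/-- The levels of the blocks, seen from the coordinate `c`, avoid zero. -/
def av : ℤ → List (Lt r × Wd r) → Prop
  | _, [] => True
  | c, y :: L => c - sgn y.1 ≠ 0 ∧ av (c - sgn y.1) L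

lemma cat_zero {k : Fin r} {L : List (Lt r × Wd r)} (hL : Blk k L) {p : Pt r} {a : Lt r}
    (ha : a.1 ≠ k) (h : av (p k) L) : fl (catW L) p a = 0 := by
  induction L generalizing p with
  | nil => simp
  | cons y L ih =>
    have hy := hL y (by simp)
    have hL' : Blk k L := fun x hx => hL x (by simp [hx])
    have hs : step y.1 k = sgn y.1 := by rw [← hy.1]; exact step_self _
    rw [catW_cons, fl_cons_ne (by rw [hy.1]; exact ha), fl_append]
    have h1 : (p - step y.1) k = p k - sgn y.1 := by rw [Pi.sub_apply, hs]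
    rw [fl_eq_zero_of_level hy.2 a (by rw [h1]; exact h.1), zero_add]
    apply ih hL'
    rw [Pi.sub_apply, disp_of_not_mem hy.2, h1, sub_zero]
    exact h.2

lemma alone {k : Fin r} {L1 L2 : List (Lt r × Wd r)} {x : Lt r × Wd r}
    (hL : Blk k (L1 ++ x :: L2)) (hz : fl (catW (L1 ++ x :: L2)) = 0) (h : av 0 (L2 ++ L1)) :
    fl x.2 = 0 := by
  rw [catW_append] at hz
  have hz' := fl_rot hz
  rw [← catW_append] at hz'
  have hx := hL x (by simp)
  have hL' : Blk k (L2 ++ L1) := by
    intro y hy
    apply hL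
    simp only [List.mem_append, List.mem_cons] at hy ⊢
    tauto
  apply fl_zero_of_level hx.2
  intro p a hp ha
  have := congrFun (congrFun hz' (p + step x.1)) a
  rw [List.cons_append, catW_cons, fl_cons_ne (by rw [hx.1]; exact ha), fl_append,
    add_sub_cancel_right, cat_zero hL' ha (p := p - disp x.2)] at this
  · simpa using this
  · rw [Pi.sub_apply, hp, disp_of_not_mem hx.2, sub_zero]; exact h

lemma CR_cat_rot {L1 L2 : List (Lt r × Wd r)} (h : CR (catW (L1 ++ L2))) :
    CR (catW (L2 ++ L1)) := by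
  rw [catW_append] at h ⊢; exact h.rot

lemma length_catW_rot (L1 L2 : List (Lt r × Wd r)) :
    (catW (L2 ++ L1)).length = (catW (L1 ++ L2)).length := by
  rw [catW_append, catW_append, List.length_append, List.length_append, add_comm]

lemma no_alone {k : Fin r} (L1 : List (Lt r × Wd r)) (x : Lt r × Wd r)
    (L2 : List (Lt r × Wd r)) (y : Lt r × Wd r) (L3 : List (Lt r × Wd r))
    (hL : Blk k (L1 ++ x :: L2)) (hc : CR (catW (L1 ++ x :: L2)))
    (hz : fl (catW (L1 ++ x :: L2)) = 0) (h : av 0 (L2 ++ L1))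
    (hy : L2 ++ L1 = y :: L3) (hxy : y.1 = bar x.1) (h3 : 1 ≤ L3.length)
    (H : ∀ v : Wd r, Rd v → fl v = 0 → v.length + 3 ≤ (catW (L1 ++ x :: L2)).length → v = []) :
    False := by
  have z := alone hL hz h
  have hc' := CR_cat_rot hc
  have hl := length_catW_rot L1 (x :: L2)
  rw [List.cons_append, hy] at hc' hl
  rw [catW_cons, catW_cons] at hc' hl
  obtain ⟨w, L4, rfl⟩ : ∃ w L4, L3 = w :: L4 := by
    cases L3 with
    | nil => simp at h3
    | cons w L4 => exact ⟨w, L4, rfl⟩
  have hV : x.2 = [] := by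
    apply H x.2 _ z
    · rw [← hl]; simp; omega
    · have := rd_tail hc'.rd
      exact rd_append_left this
  have := hc'.rd
  rw [hV, hxy] at this
  exact not_rd (u := []) this

/-- The structure of a cyclically reduced word of vanishing flow with four letters of index `k`. -/
theorem four_struct {k : Fin r} {w : Wd r} (hw : CR w) (hz : fl w = 0) (hk : cnt k w = 4)
    (H : ∀ v : Wd r, Rd v → fl v = 0 → v.length + 3 ≤ w.length → v = []) :
    ∃ u v, w = u ++ v ∧ ∃ g V1 V2 V3, g.1 = k ∧ k ∉ idx V1 ∧ k ∉ idx V2 ∧ k ∉ idx V3 ∧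
      v ++ u = g :: (V1 ++ bar g :: (V2 ++ g :: (V3 ++ bar g :: rv V2))) ∧
      disp V1 = 0 ∧ disp V3 = 0 ∧ V1 ≠ [] ∧ V2 ≠ [] ∧ V3 ≠ [] ∧
      ∀ p a, fl V1 p a + fl V3 (p - disp V2) a = 0 := by
  obtain ⟨u, v, g, X, h1, h2, h3, h4, h5, h6, h7⟩ := rot_first hw hz hk
  obtain ⟨V1, c2, X2, rfl, g2, k1, m2⟩ := split_first (n := 2) h6
  obtain ⟨V2, c3, X3, rfl, g3, k2, m3⟩ := split_first (n := 1) m2
  obtain ⟨V3, c4, V4, rfl, g4, k3, m4⟩ := split_first (n := 0) m3
  have k4 : k ∉ idx V4 := cnt_eq_zero.1 m4
  set L : List (Lt r × Wd r) := [(g, V1), (c2, V2), (c3, V3), (c4, V4)] with hLdef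
  have hcat : catW L = g :: (V1 ++ c2 :: (V2 ++ c3 :: (V3 ++ c4 :: V4))) := by simp [L]
  have hB : Blk k L := by
    intro x hx
    simp only [L, List.mem_cons, List.not_mem_nil, or_false] at hx
    rcases hx with rfl | rfl | rfl | rfl
    · exact ⟨h3, k1⟩
    · exact ⟨g2, k2⟩
    · exact ⟨g3, k3⟩
    · exact ⟨g4, k4⟩
  rw [← hcat] at h4 h5
  have hlen : (catW L).length = w.length := by rw [hcat]; simpa using h7
  have H' : ∀ v : Wd r, Rd v → fl v = 0 → v.length + 3 ≤ (catW L).length → v = [] := by
    rw [hlen]; exact H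
  have hd := congrFun (fl_zero_disp h5) k
  have sg : ∀ c : Lt r, c.1 = k → step c k = sgn c := by
    intro c hc; rw [← hc]; exact step_self c
  rw [hcat] at hd
  simp only [disp_cons, disp_append, Pi.add_apply, disp_of_not_mem k1, disp_of_not_mem k2,
    disp_of_not_mem k3, disp_of_not_mem k4, Pi.zero_apply, sg _ h3, sg _ g2, sg _ g3, sg _ g4] at hd
  have a2 : c2 = g ∨ c2 = bar g := eq_or_eq_bar (by rw [g2, h3])
  have a3 : c3 = g ∨ c3 = bar g := eq_or_eq_bar (by rw [g3, h3])
  have a4 : c4 = g ∨ c4 = bar g := eq_or_eq_bar (by rw [g4, h3])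
  have hs := sgn_eq g
  have fin : c2 = bar g ∧ c3 = g ∧ c4 = bar g := by
    rcases a2 with rfl | rfl <;> rcases a3 with rfl | rfl <;> rcases a4 with rfl | rfl <;>
      (try simp only [sgn_bar] at hd)
    · exfalso; rcases hs with hs | hs <;> rw [hs] at hd <;> omega
    · exfalso; rcases hs with hs | hs <;> rw [hs] at hd <;> omega
    · exfalso; rcases hs with hs | hs <;> rw [hs] at hd <;> omega
    · exfalso
      refine no_alone [(c2, V1)] (c2, V2) [(bar c2, V3), (bar c2, V4)] (bar c2, V3)
        [(bar c2, V4), (c2, V1)] hB h4 h5 ?_ rfl rfl (by simp) H'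
      rcases hs with hs | hs <;> simp [av, sgn_bar, hs]
    · exfalso; rcases hs with hs | hs <;> rw [hs] at hd <;> omega
    · exact ⟨rfl, rfl, rfl⟩
    · exfalso
      refine no_alone [] (c4, V1) [(bar c4, V2), (bar c4, V3), (c4, V4)] (bar c4, V2)
        [(bar c4, V3), (c4, V4)] hB h4 h5 ?_ rfl rfl (by simp) H'
      rcases hs with hs | hs <;> simp [av, sgn_bar, hs]
    · exfalso; rcases hs with hs | hs <;> rw [hs] at hd <;> omega
  obtain ⟨rfl, rfl, rfl⟩ := fin
  rw [hcat] at h4 h5 hlen
  rcases four_alt h3 k1 k2 k3 k4 h5 with ⟨d1, d3⟩ | ⟨d2, d4⟩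
  · obtain ⟨e1, e2, e3, e4, e5⟩ := four_core h3 k1 k2 k3 k4 h4 h5 d1 d3 (by rw [hlen]; exact H)
    subst e1
    exact ⟨u, v, h1, c3, V1, V2, V3, h3, k1, k2, k3, h2, d1, d3, e2, e3, e4, e5⟩
  · have er : (bar c3 :: (V2 ++ c3 :: (V3 ++ bar c3 :: V4))) ++ (c3 :: V1)
        = bar c3 :: (V2 ++ bar (bar c3) :: (V3 ++ bar c3 :: (V4 ++ bar (bar c3) :: V1))) := by
      simp
    have ew : c3 :: (V1 ++ bar c3 :: (V2 ++ c3 :: (V3 ++ bar c3 :: V4)))
        = (c3 :: V1) ++ (bar c3 :: (V2 ++ c3 :: (V3 ++ bar c3 :: V4))) := by simp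
    have h4' := h4
    have h5' := h5
    rw [ew] at h4' h5'
    have h4'' := h4'.rot
    have h5'' := fl_rot h5'
    rw [er] at h4'' h5''
    have hlen' : (bar c3 :: (V2 ++ bar (bar c3) :: (V3 ++ bar c3 :: (V4 ++ bar (bar c3) :: V1)))).length
        = w.length := by
      rw [← hlen]; simp; omega
    obtain ⟨e1, e2, e3, e4, e5⟩ := four_core (g := bar c3) (by simpa using h3) k2 k3 k4 k1 h4'' h5''
      d2 d4 (by rw [hlen']; exact H)
    subst e1
    -- w = u ++ v, v ++ u = (c3 :: V1) ++ B
    rw [ew] at h2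
    obtain ⟨u', v', q1, q2⟩ : ∃ u' v', w = u' ++ v' ∧
        v' ++ u' = (bar c3 :: (V2 ++ c3 :: (V3 ++ bar c3 :: V4))) ++ (c3 :: rv V3) := by
      have hrot : w.rotate u.length = v ++ u := by rw [h1]; simp
      rw [h2] at hrot
      have : w.rotate (u.length + (c3 :: rv V3).length)
          = (bar c3 :: (V2 ++ c3 :: (V3 ++ bar c3 :: V4))) ++ (c3 :: rv V3) := by
        rw [← List.rotate_rotate, hrot, List.rotate_append_length_eq]
      have h10 : w.rotate ((u.length + (c3 :: rv V3).length) % w.length)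
          = (bar c3 :: (V2 ++ c3 :: (V3 ++ bar c3 :: V4))) ++ (c3 :: rv V3) := by
        rw [List.rotate_mod]; exact this
      have hwl : 0 < w.length := by rw [← hlen]; simp
      rw [List.rotate_eq_drop_append_take (Nat.mod_lt _ hwl).le] at h10
      exact ⟨_, _, (List.take_append_drop _ w).symm, h10⟩
    refine ⟨u', v', q1, bar c3, V2, V3, V4, by simpa using h3, k2, k3, k4, ?_, d2, d4, e2, e3, e4, e5⟩
    rw [q2, er]

lemma blk_ne {A B V : Wd r} {c : Lt r} (h : Rd (A ++ c :: (V ++ bar c :: B))) : V ≠ [] := by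
  rintro rfl
  exact not_rd h

lemma fl_single (v : Lt r) (p : Pt r) (a : Lt r) :
    fl [v] p a = (if p = 0 ∧ a = v then 1 else 0) - (if p = step v ∧ a = bar v then 1 else 0) := by
  rw [fl_cons, fl_nil, add_zero]

lemma sum_fl_single (v : Lt r) (s : Pt r) (S : Finset (Pt r)) (h1 : s ∈ S) (h2 : s + step v ∈ S) :
    ∑ p ∈ S, ∑ i : Fin r, fl [v] (p - s) (i, true) = sgn v := by
  have h3 : ∀ p : Pt r, ∑ i : Fin r, fl [v] (p - s) (i, true)
      = if p = (if v.2 then s else s + step v) then sgn v else 0 := by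
    intro p
    obtain ⟨j, b⟩ := v
    cases b
    · have : ∀ i : Fin r, fl [((j, false) : Lt r)] (p - s) (i, true)
          = if i = j then (if p = s + step (j, false) then -1 else 0) else 0 := by
        intro i
        rw [fl_single, if_neg (by simp)]
        by_cases hi : i = j
        · subst hi
          have : (p - s = step ((i, false) : Lt r)) ↔ p = s + step (i, false) := by
            rw [sub_eq_iff_eq_add, add_comm]
          rw [if_pos rfl]
          by_cases hp : p = s + step (i, false)
          · rw [if_pos hp, if_pos ⟨this.2 hp, rfl⟩]; rfl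
          · rw [if_neg hp, if_neg (fun e => hp (this.1 e.1))]; rfl
        · rw [if_neg, if_neg hi]; rfl
          rintro ⟨_, e⟩
          simp [bar] at e
          exact hi e
      rw [Finset.sum_congr rfl fun i _ => this i]
      simp [sgn]
    · have : ∀ i : Fin r, fl [((j, true) : Lt r)] (p - s) (i, true)
          = if i = j then (if p = s then 1 else 0) else 0 := by
        intro i
        rw [fl_single, if_neg (c := (p - s = step (j, true) ∧ _)) (by simp [bar])]
        by_cases hi : i = j
        · subst hi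
          simp [sub_eq_zero]
        · rw [if_neg, if_neg hi]; rfl
          rintro ⟨_, e⟩
          simp at e
          exact hi e
      rw [Finset.sum_congr rfl fun i _ => this i]
      simp [sgn]
  rw [Finset.sum_congr rfl fun p _ => h3 p, Finset.sum_ite_eq', if_pos]
  split_ifs
  · exact h1
  · exact h2

/-- Three signed unit edges never cancel. -/
lemma three_single {v1 v3 v5 : Lt r} {s t : Pt r}
    (h : ∀ p a, fl [v1] p a + fl [v3] (p - s) a + fl [v5] (p - t) a = 0) : False := by
  classical
  set S : Finset (Pt r) := {0, 0 + step v1, s, s + step v3, t, t + step v5}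
  have e1 := sum_fl_single v1 0 S (by simp [S]) (by simp [S])
  have e3 := sum_fl_single v3 s S (by simp [S]) (by simp [S])
  have e5 := sum_fl_single v5 t S (by simp [S]) (by simp [S])
  have : ∑ p ∈ S, ∑ i : Fin r, (fl [v1] (p - 0) (i, true) + fl [v3] (p - s) (i, true)
      + fl [v5] (p - t) (i, true)) = 0 := by
    apply Finset.sum_eq_zero; intro p _
    apply Finset.sum_eq_zero; intro i _
    rw [sub_zero]; exact h p _
  simp only [Finset.sum_add_distrib] at this
  rw [e1, e3, e5] at this
  rcases sgn_eq v1 with a | a <;> rcases sgn_eq v3 with b | b <;> rcases sgn_eq v5 with c | c <;>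
    rw [a, b, c] at this <;> omega

/-- A cyclically reduced word of length twelve with vanishing flow has no index occurring exactly
six times. -/
lemma six_absurd {k : Fin r} {w : Wd r} (hw : CR w) (hz : fl w = 0)
    (hk : cnt k w = 6) (hlen : w.length = 12)
    (H : ∀ v : Wd r, Rd v → fl v = 0 → v.length + 3 ≤ w.length → v = []) : False := by
  obtain ⟨u, v, g, X, h1, h2, h3, h4, h5, h6, h7⟩ := rot_first hw hz hk
  obtain ⟨V1, c2, X2, rfl, g2, k1, m2⟩ := split_first (n := 4) h6
  obtain ⟨V2, c3, X3, rfl, g3, k2, m3⟩ := split_first (n := 3) m2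
  obtain ⟨V3, c4, X4, rfl, g4, k3, m4⟩ := split_first (n := 2) m3
  obtain ⟨V4, c5, X5, rfl, g5, k4, m5⟩ := split_first (n := 1) m4
  obtain ⟨V5, c6, V6, rfl, g6, k5, m6⟩ := split_first (n := 0) m5
  have k6 : k ∉ idx V6 := cnt_eq_zero.1 m6
  set L : List (Lt r × Wd r) := [(g, V1), (c2, V2), (c3, V3), (c4, V4), (c5, V5), (c6, V6)]
    with hLdef
  have hcat : catW L = g :: (V1 ++ c2 :: (V2 ++ c3 :: (V3 ++ c4 :: (V4 ++ c5 :: (V5 ++ c6 :: V6))))) := by
    simp [L]
  have hB : Blk k L := by
    intro x hx
    simp only [L, List.mem_cons, List.not_mem_nil, or_false] at hx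
    rcases hx with rfl | rfl | rfl | rfl | rfl | rfl
    · exact ⟨h3, k1⟩
    · exact ⟨g2, k2⟩
    · exact ⟨g3, k3⟩
    · exact ⟨g4, k4⟩
    · exact ⟨g5, k5⟩
    · exact ⟨g6, k6⟩
  rw [← hcat] at h4 h5
  have hlen' : (catW L).length = w.length := by rw [hcat]; simpa using h7
  have H' : ∀ v : Wd r, Rd v → fl v = 0 → v.length + 3 ≤ (catW L).length → v = [] := by
    rw [hlen']; exact H
  have hd := congrFun (fl_zero_disp h5) k
  have sg : ∀ c : Lt r, c.1 = k → step c k = sgn c := by
    intro c hc; rw [← hc]; exact step_self c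
  rw [hcat] at hd
  simp only [disp_cons, disp_append, Pi.add_apply, disp_of_not_mem k1, disp_of_not_mem k2,
    disp_of_not_mem k3, disp_of_not_mem k4, disp_of_not_mem k5, disp_of_not_mem k6,
    Pi.zero_apply, sg _ h3, sg _ g2, sg _ g3, sg _ g4, sg _ g5, sg _ g6] at hd
  have a2 : c2 = g ∨ c2 = bar g := eq_or_eq_bar (by rw [g2, h3])
  have a3 : c3 = g ∨ c3 = bar g := eq_or_eq_bar (by rw [g3, h3])
  have a4 : c4 = g ∨ c4 = bar g := eq_or_eq_bar (by rw [g4, h3])
  have a5 : c5 = g ∨ c5 = bar g := eq_or_eq_bar (by rw [g5, h3])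
  have a6 : c6 = g ∨ c6 = bar g := eq_or_eq_bar (by rw [g6, h3])
  have hs := sgn_eq g
  have F1 : c2 = bar g → av 0 [(c2, V2), (c3, V3), (c4, V4), (c5, V5), (c6, V6)] → False :=
    fun e h => no_alone [] (g, V1) _ (c2, V2) _ hB h4 h5 h rfl e (by simp) H'
  have F2 : c3 = bar c2 → av 0 [(c3, V3), (c4, V4), (c5, V5), (c6, V6), (g, V1)] → False :=
    fun e h => no_alone [(g, V1)] (c2, V2) [(c3, V3), (c4, V4), (c5, V5), (c6, V6)] (c3, V3) _
      hB h4 h5 h rfl e (by simp) H'
  have F3 : c4 = bar c3 → av 0 [(c4, V4), (c5, V5), (c6, V6), (g, V1), (c2, V2)] → False :=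
    fun e h => no_alone [(g, V1), (c2, V2)] (c3, V3) [(c4, V4), (c5, V5), (c6, V6)] (c4, V4) _
      hB h4 h5 h rfl e (by simp) H'
  have F4 : c5 = bar c4 → av 0 [(c5, V5), (c6, V6), (g, V1), (c2, V2), (c3, V3)] → False :=
    fun e h => no_alone [(g, V1), (c2, V2), (c3, V3)] (c4, V4) [(c5, V5), (c6, V6)] (c5, V5) _
      hB h4 h5 h rfl e (by simp) H'
  have F5 : c6 = bar c5 → av 0 [(c6, V6), (g, V1), (c2, V2), (c3, V3), (c4, V4)] → False :=
    fun e h => no_alone [(g, V1), (c2, V2), (c3, V3), (c4, V4)] (c5, V5) [(c6, V6)] (c6, V6) _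
      hB h4 h5 h rfl e (by simp) H'
  have F6 : g = bar c6 → av 0 [(g, V1), (c2, V2), (c3, V3), (c4, V4), (c5, V5)] → False :=
    fun e h => no_alone [(g, V1), (c2, V2), (c3, V3), (c4, V4), (c5, V5)] (c6, V6) [] (g, V1) _
      hB h4 h5 h rfl e (by simp) H'
  have fin : c2 = bar g ∧ c3 = g ∧ c4 = bar g ∧ c5 = g ∧ c6 = bar g := by
    rcases a2 with e2 | e2 <;> rcases a3 with e3 | e3 <;> rcases a4 with e4 | e4 <;>
    rcases a5 with e5 | e5 <;> rcases a6 with e6 | e6 <;>
    first
      | exact ⟨e2, e3, e4, e5, e6⟩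
      | (exfalso
         simp only [e2, e3, e4, e5, e6, sgn_bar] at hd
         rcases hs with hs | hs <;> rw [hs] at hd <;> omega)
      | (exfalso
         apply F1
         · simp [e2]
           done
         · simp only [e2, e3, e4, e5, e6, sgn_bar, av]
           rcases hs with hs | hs <;> (simp [hs]; done))
      | (exfalso
         apply F2
         · simp [e2, e3]
           done
         · simp only [e2, e3, e4, e5, e6, sgn_bar, av]
           rcases hs with hs | hs <;> (simp [hs]; done))
      | (exfalso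
         apply F3
         · simp [e3, e4]
           done
         · simp only [e2, e3, e4, e5, e6, sgn_bar, av]
           rcases hs with hs | hs <;> (simp [hs]; done))
      | (exfalso
         apply F4
         · simp [e4, e5]
           done
         · simp only [e2, e3, e4, e5, e6, sgn_bar, av]
           rcases hs with hs | hs <;> (simp [hs]; done))
      | (exfalso
         apply F5
         · simp [e5, e6]
           done
         · simp only [e2, e3, e4, e5, e6, sgn_bar, av]
           rcases hs with hs | hs <;> (simp [hs]; done))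
      | (exfalso
         apply F6
         · simp [e6]
           done
         · simp only [e2, e3, e4, e5, e6, sgn_bar, av]
           rcases hs with hs | hs <;> (simp [hs]; done))
  clear F1 F2 F3 F4 F5 F6
  obtain ⟨rfl, rfl, rfl, rfl, rfl⟩ := fin
  -- all six blocks are nonempty, hence singletons
  rw [hcat] at h4 h5 hlen'
  clear hcat hLdef hB H' L a2 a3 a4 a5 a6
  have hr := h4.rd
  have n1 : V1 ≠ [] := blk_ne (A := []) hr
  have n2 : V2 ≠ [] := by
    apply blk_ne (A := c5 :: V1) (c := bar c5) (B := V3 ++ bar c5 :: (V4 ++ c5 :: (V5 ++ bar c5 :: V6)))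
    simpa using hr
  have n3 : V3 ≠ [] := by
    apply blk_ne (A := c5 :: (V1 ++ bar c5 :: V2)) (c := c5) (B := V4 ++ c5 :: (V5 ++ bar c5 :: V6))
    simpa using hr
  have n4 : V4 ≠ [] := by
    apply blk_ne (A := c5 :: (V1 ++ bar c5 :: (V2 ++ c5 :: V3))) (c := bar c5)
      (B := V5 ++ bar c5 :: V6)
    simpa using hr
  have n5 : V5 ≠ [] := by
    apply blk_ne (A := c5 :: (V1 ++ bar c5 :: (V2 ++ c5 :: (V3 ++ bar c5 :: V4)))) (c := c5)
      (B := V6)
    simpa using hr
  have n6 : V6 ≠ [] := by
    apply blk_ne (A := c5 :: (V1 ++ bar c5 :: (V2 ++ c5 :: (V3 ++ bar c5 :: (V4 ++ c5 :: V5)))))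
      (c := bar c5) (B := V1 ++ bar c5 :: (V2 ++ c5 :: (V3 ++ bar c5 :: (V4 ++ c5 :: (V5 ++ bar c5 :: V6)))))
    have := h4
    unfold CR at this
    simpa using this
  have l1 := List.length_pos_iff.2 n1
  have l2 := List.length_pos_iff.2 n2
  have l3 := List.length_pos_iff.2 n3
  have l4 := List.length_pos_iff.2 n4
  have l5 := List.length_pos_iff.2 n5
  have l6 := List.length_pos_iff.2 n6
  rw [hlen] at hlen'
  simp only [List.length_cons, List.length_append] at hlen'
  have hgk : step c5 k = sgn c5 := by rw [← h3]; exact step_self c5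
  have hg0 := sgn_ne c5
  have rel : ∀ p a, fl V1 p a + fl V3 (p - (disp V1 + disp V2)) a
      + fl V5 (p - (disp V1 + disp V2 + disp V3 + disp V4)) a = 0 := by
    intro p a
    by_cases ha : a.1 = k
    · rw [fl_eq_zero_of_idx k1 _ ha, fl_eq_zero_of_idx k3 _ ha, fl_eq_zero_of_idx k5 _ ha]; rfl
    by_cases hp : p k = 0
    · have hag : a.1 ≠ c5.1 := by rw [h3]; exact ha
      have hag' : a.1 ≠ (bar c5).1 := hag
      have := congrFun (congrFun h5 (p + step c5)) a
      rw [fl_cons_ne hag, fl_append, fl_cons_ne hag', fl_append, fl_cons_ne hag, fl_append,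
        fl_cons_ne hag', fl_append, fl_cons_ne hag, fl_append, fl_cons_ne hag'] at this
      rw [fl_eq_zero_of_level k2 a (by simp [hp, hgk, hg0, disp_of_not_mem k1]),
        fl_eq_zero_of_level k4 a (by
          simp [hp, hgk, hg0, disp_of_not_mem k1, disp_of_not_mem k2, disp_of_not_mem k3]),
        fl_eq_zero_of_level k6 a (by
          simp [hp, hgk, hg0, disp_of_not_mem k1, disp_of_not_mem k2, disp_of_not_mem k3,
            disp_of_not_mem k4, disp_of_not_mem k5])] at this
      have e1 : p + step c5 - step c5 = p := by abel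
      have e2 : p + step c5 - step c5 - disp V1 - step (bar c5) - disp V2 - step c5
          = p - (disp V1 + disp V2) := by rw [step_bar]; abel
      have e3 : p + step c5 - step c5 - disp V1 - step (bar c5) - disp V2 - step c5 - disp V3
          - step (bar c5) - disp V4 - step c5 = p - (disp V1 + disp V2 + disp V3 + disp V4) := by
        rw [step_bar]; abel
      rw [e3, e2, e1] at this
      simpa [add_assoc] using this
    · rw [fl_eq_zero_of_level k1 a hp,
        fl_eq_zero_of_level k3 a (by simpa [disp_of_not_mem k1, disp_of_not_mem k2] using hp),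
        fl_eq_zero_of_level k5 a (by
          simpa [disp_of_not_mem k1, disp_of_not_mem k2, disp_of_not_mem k3, disp_of_not_mem k4]
            using hp)]; rfl
  obtain ⟨v1, rfl⟩ := List.length_eq_one_iff.1 (show V1.length = 1 by omega)
  obtain ⟨v3, rfl⟩ := List.length_eq_one_iff.1 (show V3.length = 1 by omega)
  obtain ⟨v5, rfl⟩ := List.length_eq_one_iff.1 (show V5.length = 1 by omega)
  exact three_single rel

/-- A reduced word with a single index is closed only if it is empty. -/
lemma one_index {k : Fin r} {w : Wd r} (h : Rd w) (hi : idx w ⊆ {k}) (hd : disp w = 0) :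
    w = [] := by
  cases w with
  | nil => rfl
  | cons a w =>
    exfalso
    have key : ∀ (v : Wd r) (b : Lt r), Rd (b :: v) → idx (b :: v) ⊆ {k} →
        disp (b :: v) k = sgn b * ((b :: v).length : ℤ) := by
      intro v
      induction v with
      | nil =>
        intro b _ h2
        have hb : b.1 = k := by
          have : b.1 ∈ ({k} : Finset (Fin r)) := h2 (by simp [idx])
          simpa using this
        subst hb
        simp
      | cons c v ih =>
        intro b h1 h2
        have hb : b.1 = k := by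
          have : b.1 ∈ ({k} : Finset (Fin r)) := h2 (by simp [idx])
          simpa using this
        have hc : c.1 = k := by
          have : c.1 ∈ ({k} : Finset (Fin r)) := h2 (by simp [idx])
          simpa using this
        have h3 := (rd_cons_cons.1 h1)
        have hbc : c = b := by
          rcases eq_or_eq_bar (a := c) (b := b) (by rw [hb, hc]) with e | e
          · exact e
          · exact absurd e h3.1
        have h4 : idx (c :: v) ⊆ {k} := by
          refine subset_trans ?_ h2
          rw [idx_cons b]; exact Finset.subset_insert _ _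
        rw [disp_cons, Pi.add_apply, ih c h3.2 h4]
        have : step b k = sgn b := by rw [← hb]; exact step_self b
        rw [this, hbc]
        push_cast [List.length_cons]
        ring
    have h5 := key w a h hi
    rw [hd] at h5
    simp only [Pi.zero_apply, List.length_cons] at h5
    rcases sgn_eq a with hs | hs <;> rw [hs] at h5 <;> push_cast at h5 <;> omega

/-- Conjugates of words with vanishing flow. -/
lemma fl_zero_conj {a : Lt r} {m : Wd r} (h : fl (a :: (m ++ [bar a])) = 0) : fl m = 0 := by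
  have h1 : fl ([a] ++ (m ++ [bar a])) = 0 := h
  have h2 := fl_rot h1
  have h3 : FreeGroup.mk (m ++ [bar a] ++ [a]) = FreeGroup.mk m := by
    rw [List.append_assoc, ← FreeGroup.mul_mk]
    have : FreeGroup.mk ([bar a] ++ [a]) = 1 := by
      rw [← FreeGroup.mul_mk]
      have e : FreeGroup.mk [bar a] = (FreeGroup.mk [a])⁻¹ := by
        rw [FreeGroup.inv_mk]; rfl
      rw [e, inv_mul_cancel]
    rw [this, mul_one]
  rw [← fl_eq_of_mk_eq h3, h2]

/-- A nonempty reduced word of vanishing flow whose shorter analogues are empty is cyclically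
reduced. -/
lemma CR_of_min {w : Wd r} (hr : Rd w) (hz : fl w = 0)
    (H : ∀ v : Wd r, Rd v → fl v = 0 → v.length < w.length → v = []) : CR w := by
  rcases List.eq_nil_or_concat w with rfl | ⟨u, b, rfl⟩
  · exact hr
  rw [List.concat_eq_append] at *
  cases u with
  | nil =>
    exfalso
    have := fl_zero_disp hz
    simp at this
    exact step_ne_zero b this
  | cons a m =>
    have hb : a ≠ bar b := by
      rintro rfl
      have h1 : fl (bar b :: (m ++ [bar (bar b)])) = 0 := by simpa using hz
      have h2 := fl_zero_conj h1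
      have h3 : m = [] := H m (rd_append_left (rd_tail (a := bar b) (by simpa using hr))) h2 (by
        simp)
      subst h3
      have : Rd ([] ++ bar b :: bar (bar b) :: []) := by simpa using hr
      exact not_rd this
    unfold CR
    have e : (a :: m ++ [b]) ++ (a :: m ++ [b]) = ((a :: m) ++ [b]) ++ (a :: (m ++ [b])) := by simp
    rw [e, rd_append_iff]
    exact ⟨hr, hr, hb⟩

/-- Nonempty reduced words with vanishing flow have length at least fourteen. -/
theorem short_zero : ∀ (n : ℕ) (w : Wd r), w.length = n → n < 14 → Rd w → fl w = 0 → w = [] := by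
  intro n
  induction n using Nat.strong_induction_on with
  | _ n ih =>
    intro w hl hn hr hz
    by_contra hne
    have H : ∀ v : Wd r, Rd v → fl v = 0 → v.length < w.length → v = [] := fun v h1 h2 h3 =>
      ih v.length (by omega) v rfl (by omega) h1 h2
    have hc := CR_of_min hr hz H
    have H3 : ∀ v : Wd r, Rd v → fl v = 0 → v.length + 3 ≤ w.length → v = [] :=
      fun v h1 h2 h3 => H v h1 h2 (by omega)
    have hd := fl_zero_disp hz
    have hev := even_of_closed hd
    have h6 : ∀ k ∈ idx w, 6 ≤ cnt k w := by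
      intro k hk
      have e1 := cnt_even hd k
      have e2 := cnt_pos.2 hk
      by_contra h7
      have h8 : cnt k w = 2 ∨ cnt k w = 4 := by omega
      rcases h8 with h8 | h8
      · exact two_absurd hc hz h8 H3
      · obtain ⟨u, v, h1, g, V1, V2, V3, _, _, _, _, h2, d1, d3, n1, n2, n3, _⟩ :=
          four_struct hc hz h8 H3
        have hrot : Rd (v ++ u) := by rw [h1] at hc; exact hc.rot.rd
        rw [h2] at hrot
        have r1 : Rd V1 := rd_append_left (rd_tail hrot)
        have r3 : Rd V3 := by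
          have e : g :: (V1 ++ bar g :: (V2 ++ g :: (V3 ++ bar g :: rv V2)))
            = (g :: (V1 ++ bar g :: (V2 ++ [g]))) ++ (V3 ++ bar g :: rv V2) := by simp
          rw [e] at hrot
          exact rd_append_left (rd_append_right hrot)
        have l1 := four_le r1 d1 n1
        have l3 := four_le r3 d3 n3
        have l2 := List.length_pos_iff.2 n2
        have hlen : (v ++ u).length = w.length := by rw [h1]; simp [add_comm]
        rw [h2] at hlen
        simp at hlen
        omega
    have hsum := sum_cnt w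
    have hcard : 6 * (idx w).card ≤ w.length := by
      rw [← hsum, mul_comm, ← smul_eq_mul]
      exact Finset.card_nsmul_le_sum _ _ _ h6
    have hc2 : (idx w).card ≤ 2 := by omega
    interval_cases hcc : (idx w).card
    · rw [Finset.card_eq_zero] at hcc
      rw [hcc] at hsum
      simp at hsum
      exact hne (List.eq_nil_of_length_eq_zero hsum.symm)
    · obtain ⟨k, hk⟩ := Finset.card_eq_one.1 hcc
      exact hne (one_index hr hk.le hd)
    · obtain ⟨k, l, hkl, hk⟩ := Finset.card_eq_two.1 hcc
      have hw12 : w.length = 12 := by omega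
      rw [hk, Finset.sum_pair hkl] at hsum
      have a1 := h6 k (by rw [hk]; simp)
      have a2 := h6 l (by rw [hk]; simp)
      exact six_absurd hc hz (show cnt k w = 6 by omega) hw12 H3

/-- Nonempty reduced words with vanishing flow have length at least fourteen. -/
theorem zero_short {w : Wd r} (hr : Rd w) (hz : fl w = 0) (hl : w.length < 14) : w = [] :=
  short_zero _ w rfl hl hr hz

end Pool.Agent.Helper62.FM
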