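import Pool.Agent.Helper62.FM.ForbFacts

/-!
Reduced words without forbidden factors: upper recursion.
-/

namespace Pool.Agent.Helper62.FM

open Finset

variable {r : ℕ}

/-- Reduced words without forbidden factors. -/
def LL (w : Wd r) : Prop := Rd w ∧ AvF w

lemma LL.of_factor {u w : Wd r} (h : LL w) (hu : u <:+: w) : LL u :=
  ⟨rd_factor h.1 hu, h.2.of_factor hu⟩

lemma eq_nil_or_snoc (w : Wd r) : w = [] ∨ ∃ w' b, w = w' ++ [b] := by
  rcases List.eq_nil_or_concat w with h | ⟨w', b, h⟩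
  · exact Or.inl h
  · exact Or.inr ⟨w', b, by rw [h, List.concat_eq_append]⟩

lemma cls_LL : Cls (fun w : Wd r => LL w) :=
  ⟨fun _ _ h => h.of_factor List.infix_append_left, fun _ h => h.1⟩

/-- The words `s ++ f` responsible for the failure of a forbidden suffix to be minimal. -/
lemma cross {v f : Wd r} (hv : LL v) (hf : Forb f) (h : ¬ (Rd (v ++ f) ∧ AvF (v ++ f.dropLast))) :
    ∃ l, 1 ≤ l ∧ l ≤ 7 ∧ l ≤ v.length ∧ 5 ≤ rep (v.drop (v.length - l) ++ f) := by
  by_cases h1 : Rd (v ++ f)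
  · have h2 : ¬ AvF (v ++ f.dropLast) := fun e => h ⟨h1, e⟩
    unfold AvF at h2
    push Not at h2
    obtain ⟨g, hg, hG⟩ := h2
    have hfe : f.dropLast ++ [f.getLast hf.ne_nil] = f := List.dropLast_append_getLast hf.ne_nil
    have hfr : rep f.dropLast = 3 := by
      have := hf
      rw [← hfe] at this
      exact this.rep_init
    rw [List.infix_append_iff_ne_nil] at hg
    rcases hg with hg | hg | ⟨g1, g2, n1, n2, rfl, hg1, hg2⟩
    · exact absurd hG (hv.2 g hg)
    · have := rep_le_of_factor hg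
      rw [hG.rep] at this
      omega
    · obtain ⟨b, g1', rfl⟩ := List.exists_cons_of_ne_nil n1
      have hlen : (b :: g1').length ≤ 7 := by
        have := List.length_pos_iff.2 n2
        rcases hG.length with e | e <;> (rw [List.length_append] at e; omega)
      refine ⟨(b :: g1').length, by simp, hlen, hg1.length_le, ?_⟩
      have e : v.drop (v.length - (b :: g1').length) = b :: g1' := by
        obtain ⟨t, rfl⟩ := hg1
        simp
      rw [e, List.cons_append, rep_cons, if_pos]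
      · have := rep_append_right g1' f
        rw [hf.rep] at this
        omega
      · rw [List.cons_append] at hG
        have h3 := hG.head
        rw [idx_append, Finset.mem_union] at h3 ⊢
        rcases h3 with h3 | h3
        · exact Or.inl h3
        · right
          obtain ⟨t, ht⟩ := hg2
          rw [← hfe, ← ht, List.append_assoc, idx_append]
          exact Finset.mem_union_left _ h3
  · -- cancellation at the junction
    obtain ⟨c, f', rfl⟩ := List.exists_cons_of_ne_nil hf.ne_nil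
    rcases eq_nil_or_snoc v with rfl | ⟨v', b, rfl⟩
    · exact absurd hf.rd h1
    · refine ⟨1, le_refl _, by norm_num, by simp, ?_⟩
      have e : (v' ++ [b]).drop ((v' ++ [b]).length - 1) = [b] := by simp
      have hc : c = bar b := by
        by_contra hc
        exact h1 (rd_append_iff.2 ⟨hv.1, hf.rd, hc⟩)
      rw [e, List.singleton_append, rep_cons, hf.rep, if_pos]
      rw [idx_cons, hc]
      exact Finset.mem_insert_self _ _

lemma ext_or {m k : ℕ} {u : Wd r} (hu : u.length = m + k) (h1 : LL (u.take m))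
    (h2 : Forb (u.drop m)) :
    Ext LL u ∨ ∃ l ∈ Finset.Icc 1 7, LL (u.take (m - l)) ∧ 5 ≤ rep (u.drop (m - l)) := by
  have hv : (u.take m).length = m := by rw [List.length_take]; omega
  by_cases h : Rd (u.take m ++ u.drop m) ∧ AvF (u.take m ++ (u.drop m).dropLast)
  · left
    rw [List.take_append_drop] at h
    have e : u.dropLast = u.take m ++ (u.drop m).dropLast := by
      conv_lhs => rw [← List.take_append_drop m u]
      rw [List.dropLast_append_of_ne_nil h2.ne_nil]
    refine ⟨h.1, ⟨rd_factor h.1 (List.dropLast_prefix u).isInfix, by rw [e]; exact h.2⟩, ?_⟩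
    intro hL
    exact hL.2 _ (List.drop_suffix m u).isInfix h2
  · right
    obtain ⟨l, l1, l2, l3, l4⟩ := cross h1 h2 h
    refine ⟨l, Finset.mem_Icc.2 ⟨l1, l2⟩, ?_, ?_⟩
    · apply h1.of_factor
      have : u.take (m - l) = (u.take m).take (m - l) := by
        rw [List.take_take]; congr 1; omega
      rw [this]
      exact (List.take_prefix _ _).isInfix
    · rw [hv] at l4
      have : (u.take m).drop (m - l) ++ u.drop m = u.drop (m - l) := by
        conv_rhs => rw [← List.take_append_drop m u]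
        rw [List.drop_append_of_le_length (by rw [hv]; omega)]
      rw [this] at l4
      exact l4

/-- Appending a fresh letter. -/
lemma LL.snoc {w : Wd r} (h : LL w) {a : Lt r} (ha : a.1 ∉ idx (w.drop (w.length - 7))) :
    LL (w ++ [a]) := by
  constructor
  · rcases eq_nil_or_snoc w with rfl | ⟨w', b, rfl⟩
    · exact FreeGroup.IsReduced.singleton
    · refine rd_append_iff.2 ⟨h.1, FreeGroup.IsReduced.singleton, ?_⟩
      rintro rfl
      apply ha
      have : b :: ([] : Wd r) <:+: (w' ++ [b]).drop ((w' ++ [b]).length - 7) := by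
        have e : (w' ++ [b]).drop ((w' ++ [b]).length - 7) = w'.drop (w'.length - 6) ++ [b] := by
          rw [List.length_append, List.length_singleton,
            List.drop_append_of_le_length (by omega)]
          congr 2
        rw [e]
        exact List.infix_append_right
      obtain ⟨s, t, e⟩ := this
      rw [← e]
      simp [idx, bar]
  · intro f hf hF
    rw [List.infix_concat_iff] at hf
    rcases hf with hf | hf
    · rw [List.suffix_concat_iff] at hf
      rcases hf with rfl | ⟨f0, rfl, hf0⟩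
      · exact hF.ne_nil rfl
      · apply ha
        have h1 := hF.last
        have h2 : f0.length ≤ 7 := by
          rcases hF.length with e | e <;> (rw [List.length_append, List.length_singleton] at e; omega)
        obtain ⟨t, rfl⟩ := hf0
        have e : (t ++ f0).drop ((t ++ f0).length - 7) = t.drop ((t ++ f0).length - 7) ++ f0 := by
          rw [List.drop_append_of_le_length (by rw [List.length_append]; omega)]
        rw [e, idx_append]
        exact Finset.mem_union_right _ h1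
    · exact h.2 f hf hF

lemma grow (hr : 14 ≤ r) (n : ℕ) : r * num r n LL ≤ num r (n + 1) LL := by
  classical
  rw [num_def', num_def', sum_W_succ, Finset.mul_sum]
  apply Finset.sum_le_sum
  intro w _
  by_cases hw : LL w
  · rw [if_pos hw, mul_one]
    have h1 : ∀ a : Lt r, (if a.1 ∉ idx (w.drop (w.length - 7)) then (1:ℝ) else 0)
        ≤ if LL (w ++ [a]) then 1 else 0 := by
      intro a
      by_cases ha : a.1 ∉ idx (w.drop (w.length - 7))
      · rw [if_pos ha, if_pos (hw.snoc ha)]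
      · rw [if_neg ha]; split_ifs <;> norm_num
    refine le_trans ?_ (Finset.sum_le_sum fun a _ => h1 a)
    rw [← Finset.sum_filter, Finset.sum_const, card_avoid, nsmul_eq_mul, mul_one]
    have h2 : (idx (w.drop (w.length - 7))).card ≤ 7 := by
      refine (card_idx_le _).trans ?_
      rw [List.length_drop]; omega
    exact_mod_cast (by omega : r ≤ 2 * (r - (idx (w.drop (w.length - 7))).card))
  · rw [if_neg hw, mul_zero]
    exact Finset.sum_nonneg fun a _ => by split_ifs <;> norm_num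

lemma grow_pow (hr : 14 ≤ r) (n l : ℕ) : r ^ l * num r n LL ≤ num r (n + l) LL := by
  induction l with
  | zero => simp
  | succ l ih =>
    calc (r : ℝ) ^ (l + 1) * num r n LL = r * (r ^ l * num r n LL) := by ring
      _ ≤ r * num r (n + l) LL := mul_le_mul_of_nonneg_left ih (by positivity)
      _ ≤ _ := grow hr (n + l)

lemma num_split (m l : ℕ) (C P : Wd r → Prop) :
    num r (m + l) (fun u => C (u.take m) ∧ P (u.drop m)) = num r m C * num r l P := by
  rw [← cs_one, ← cs_one, ← cs_one, cs_split]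

lemma num_add_le (m l : ℕ) : num r (m + l) LL ≤ num r m LL * (2 * r) ^ l := by
  calc num r (m + l) LL
      ≤ num r (m + l) (fun u => LL (u.take m) ∧ (fun _ => True) (u.drop m)) := by
        apply num_mono
        intro w _ h
        exact ⟨h.of_factor (List.take_prefix _ _).isInfix, trivial⟩
    _ = num r m LL * num r l (fun _ => True) := num_split m l LL (fun _ => True)
    _ ≤ _ := mul_le_mul_of_nonneg_left (num_le _ _) (num_nonneg _ _)

lemma num_split' {m l n : ℕ} (C P : Wd r → Prop) [DecidablePred C] [DecidablePred P]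
    (h : m + l = n) :
    num r m C * num r l P
      = ∑ u ∈ W r n, if C (u.take m) ∧ P (u.drop m) then (1:ℝ) else 0 := by
  subst h
  rw [← num_split, num_def']

lemma forb_count (p : ℕ) :
    num r (p + 8) LL * num r 7 Forb + num r (p + 7) LL * num r 8 Forb
      ≤ num r (p + 15) (Ext LL)
        + (∑ l ∈ Icc 1 7, num r (p + 8 - l) LL * num r (7 + l) (fun u => 5 ≤ rep u)
          + ∑ l ∈ Icc 1 7, num r (p + 7 - l) LL * num r (8 + l) (fun u => 5 ≤ rep u)) := by
  classical
  have s1 : ∀ l ∈ Icc 1 7, num r (p + 8 - l) LL * num r (7 + l) (fun u => 5 ≤ rep u)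
      = ∑ u ∈ W r (p + 15), if LL (u.take (p + 8 - l)) ∧ 5 ≤ rep (u.drop (p + 8 - l))
        then (1:ℝ) else 0 := by
    intro l hl
    rw [Finset.mem_Icc] at hl
    exact num_split' LL (fun u => 5 ≤ rep u) (by omega)
  have s2 : ∀ l ∈ Icc 1 7, num r (p + 7 - l) LL * num r (8 + l) (fun u => 5 ≤ rep u)
      = ∑ u ∈ W r (p + 15), if LL (u.take (p + 7 - l)) ∧ 5 ≤ rep (u.drop (p + 7 - l))
        then (1:ℝ) else 0 := by
    intro l hl
    rw [Finset.mem_Icc] at hl
    exact num_split' LL (fun u => 5 ≤ rep u) (by omega)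
  rw [Finset.sum_congr rfl s1, Finset.sum_congr rfl s2, Finset.sum_comm,
    Finset.sum_comm (s := Icc 1 7) (t := W r (p + 15)),
    num_split' LL Forb (show p + 8 + 7 = p + 15 by omega),
    num_split' LL Forb (show p + 7 + 8 = p + 15 by omega), num_def', ← Finset.sum_add_distrib,
    ← Finset.sum_add_distrib, ← Finset.sum_add_distrib]
  apply Finset.sum_le_sum
  intro u hu
  rw [mem_W] at hu
  have n1 : 0 ≤ ∑ l ∈ Icc 1 7, (if LL (u.take (p + 8 - l)) ∧ 5 ≤ rep (u.drop (p + 8 - l))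
        then (1:ℝ) else 0) := Finset.sum_nonneg fun l _ => by split_ifs <;> norm_num
  have n2 : 0 ≤ ∑ l ∈ Icc 1 7, (if LL (u.take (p + 7 - l)) ∧ 5 ≤ rep (u.drop (p + 7 - l))
        then (1:ℝ) else 0) := Finset.sum_nonneg fun l _ => by split_ifs <;> norm_num
  have n3 : (0:ℝ) ≤ if Ext LL u then 1 else 0 := by split_ifs <;> norm_num
  have ex : ¬ (Forb (u.drop (p + 8)) ∧ Forb (u.drop (p + 7))) := by
    rintro ⟨h1, h2⟩
    have e : u.drop (p + 7) = u[p + 7]'(by omega) :: u.drop (p + 8) :=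
      List.drop_eq_getElem_cons (by omega)
    rw [e] at h2
    have := h2.rep_tail
    rw [h1.rep] at this
    omega
  by_cases c1 : LL (u.take (p + 8)) ∧ Forb (u.drop (p + 8))
  · have c2 : ¬ (LL (u.take (p + 7)) ∧ Forb (u.drop (p + 7))) := fun h => ex ⟨c1.2, h.2⟩
    rw [if_pos c1, if_neg c2, add_zero]
    rcases ext_or (m := p + 8) (k := 7) (by omega) c1.1 c1.2 with h | ⟨l, hl, h⟩
    · rw [if_pos h]; linarith
    · have : (1:ℝ) ≤ ∑ l ∈ Icc 1 7, (if LL (u.take (p + 8 - l)) ∧ 5 ≤ rep (u.drop (p + 8 - l))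
          then (1:ℝ) else 0) := by
        calc (1:ℝ) = if LL (u.take (p + 8 - l)) ∧ 5 ≤ rep (u.drop (p + 8 - l)) then (1:ℝ) else 0 := by
              rw [if_pos h]
          _ ≤ _ := Finset.single_le_sum
              (f := fun l => if LL (u.take (p + 8 - l)) ∧ 5 ≤ rep (u.drop (p + 8 - l))
                then (1:ℝ) else 0) (fun i _ => by split_ifs <;> norm_num) hl
      linarith
  · rw [if_neg c1, zero_add]
    by_cases c2 : LL (u.take (p + 7)) ∧ Forb (u.drop (p + 7))
    · rw [if_pos c2]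
      rcases ext_or (m := p + 7) (k := 8) (by omega) c2.1 c2.2 with h | ⟨l, hl, h⟩
      · rw [if_pos h]; linarith
      · have : (1:ℝ) ≤ ∑ l ∈ Icc 1 7, (if LL (u.take (p + 7 - l)) ∧ 5 ≤ rep (u.drop (p + 7 - l))
            then (1:ℝ) else 0) := by
          calc (1:ℝ) = if LL (u.take (p + 7 - l)) ∧ 5 ≤ rep (u.drop (p + 7 - l)) then (1:ℝ)
                else 0 := by rw [if_pos h]
            _ ≤ _ := Finset.single_le_sum
                (f := fun l => if LL (u.take (p + 7 - l)) ∧ 5 ≤ rep (u.drop (p + 7 - l))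
                  then (1:ℝ) else 0) (fun i _ => by split_ifs <;> norm_num) hl
        linarith
    · rw [if_neg c2]; linarith

/-- Bound for words with five repeats. -/
lemma num_rep5 (hr : 1 ≤ r) {m : ℕ} (hm : m ≤ 120) :
    num r m (fun u => 5 ≤ rep u) * (2 * r) ^ 5 ≤ 241 ^ 120 * (2 * r) ^ m := by
  have h := num_rep (r := r) m 5
  refine h.trans ?_
  apply mul_le_mul_of_nonneg_right _ (by positivity)
  have hm' : (m : ℝ) ≤ 120 := by exact_mod_cast hm
  calc (2 * (m : ℝ) + 1) ^ m ≤ 241 ^ m := pow_le_pow_left₀ (by positivity) (by linarith) _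
    _ ≤ 241 ^ 120 := pow_le_pow_right₀ (by norm_num) hm

lemma forb_count7 (hr : 14 ≤ r) (p : ℕ) {l : ℕ} (hl : l ∈ Icc 1 7) :
    num r (p + 8 - l) LL * num r (7 + l) (fun u => 5 ≤ rep u)
      ≤ 241 ^ 120 * 2 ^ 9 * r ^ 2 * num r (p + 8) LL := by
  rw [Finset.mem_Icc] at hl
  have hr' : (14 : ℝ) ≤ r := by exact_mod_cast hr
  have h1 := num_rep5 (r := r) (by omega) (show 7 + l ≤ 120 by omega)
  have h2 := grow_pow hr (p + 8 - l) l
  rw [show p + 8 - l + l = p + 8 by omega] at h2
  have h3 : num r (7 + l) (fun u => 5 ≤ rep u) ≤ 241 ^ 120 * 2 ^ 9 * r ^ 2 * r ^ l := by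
    have e : (241 : ℝ) ^ 120 * (2 * r) ^ (7 + l) = (241 ^ 120 * (2 * r) ^ (2 + l)) * (2 * r) ^ 5 := by
      ring
    rw [e] at h1
    have h4 := le_of_mul_le_mul_right h1 (by positivity)
    refine h4.trans ?_
    have e2 : (2 * (r:ℝ)) ^ (2 + l) = 2 ^ (2 + l) * (r ^ 2 * r ^ l) := by rw [mul_pow]; ring
    rw [e2]
    have h5 : (2:ℝ) ^ (2 + l) ≤ 2 ^ 9 := pow_le_pow_right₀ (by norm_num) (by omega)
    calc (241:ℝ) ^ 120 * (2 ^ (2 + l) * (r ^ 2 * r ^ l))
        ≤ 241 ^ 120 * (2 ^ 9 * (r ^ 2 * r ^ l)) := by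
          apply mul_le_mul_of_nonneg_left _ (by positivity)
          exact mul_le_mul_of_nonneg_right h5 (by positivity)
      _ = _ := by ring
  calc num r (p + 8 - l) LL * num r (7 + l) (fun u => 5 ≤ rep u)
      ≤ num r (p + 8 - l) LL * (241 ^ 120 * 2 ^ 9 * r ^ 2 * r ^ l) :=
        mul_le_mul_of_nonneg_left h3 (num_nonneg _ _)
    _ = 241 ^ 120 * 2 ^ 9 * r ^ 2 * (r ^ l * num r (p + 8 - l) LL) := by ring
    _ ≤ _ := mul_le_mul_of_nonneg_left h2 (by positivity)

lemma forb_count8 (hr : 14 ≤ r) (p : ℕ) {l : ℕ} (hl : l ∈ Icc 1 7) :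
    num r (p + 7 - l) LL * num r (8 + l) (fun u => 5 ≤ rep u)
      ≤ 241 ^ 120 * 2 ^ 10 * r ^ 3 * num r (p + 7) LL := by
  rw [Finset.mem_Icc] at hl
  have hr' : (14 : ℝ) ≤ r := by exact_mod_cast hr
  have h1 := num_rep5 (r := r) (by omega) (show 8 + l ≤ 120 by omega)
  have h2 := grow_pow hr (p + 7 - l) l
  rw [show p + 7 - l + l = p + 7 by omega] at h2
  have h3 : num r (8 + l) (fun u => 5 ≤ rep u) ≤ 241 ^ 120 * 2 ^ 10 * r ^ 3 * r ^ l := by
    have e : (241 : ℝ) ^ 120 * (2 * r) ^ (8 + l) = (241 ^ 120 * (2 * r) ^ (3 + l)) * (2 * r) ^ 5 := by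
      ring
    rw [e] at h1
    have h4 := le_of_mul_le_mul_right h1 (by positivity)
    refine h4.trans ?_
    have e2 : (2 * (r:ℝ)) ^ (3 + l) = 2 ^ (3 + l) * (r ^ 3 * r ^ l) := by rw [mul_pow]; ring
    rw [e2]
    have h5 : (2:ℝ) ^ (3 + l) ≤ 2 ^ 10 := pow_le_pow_right₀ (by norm_num) (by omega)
    calc (241:ℝ) ^ 120 * (2 ^ (3 + l) * (r ^ 3 * r ^ l))
        ≤ 241 ^ 120 * (2 ^ 10 * (r ^ 3 * r ^ l)) := by
          apply mul_le_mul_of_nonneg_left _ (by positivity)
          exact mul_le_mul_of_nonneg_right h5 (by positivity)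
      _ = _ := by ring
  calc num r (p + 7 - l) LL * num r (8 + l) (fun u => 5 ≤ rep u)
      ≤ num r (p + 7 - l) LL * (241 ^ 120 * 2 ^ 10 * r ^ 3 * r ^ l) :=
        mul_le_mul_of_nonneg_left h3 (num_nonneg _ _)
    _ = 241 ^ 120 * 2 ^ 10 * r ^ 3 * (r ^ l * num r (p + 7 - l) LL) := by ring
    _ ≤ _ := mul_le_mul_of_nonneg_left h2 (by positivity)

/-- The constant in the upper bound. -/
noncomputable def KU : ℝ := (84 + 7 * (241 ^ 120 * 2 ^ 9)) / 64 + (192 + 7 * (241 ^ 120 * 2 ^ 10)) / 128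

lemma KU_pos : 0 < KU := by unfold KU; positivity

lemma upper_step (hr : 14 ≤ r) (hr2 : 84 + 7 * (241 ^ 120 * 2 ^ 9) ≤ 28 * (r:ℝ))
    (hr3 : 192 + 7 * (241 ^ 120 * 2 ^ 10) ≤ 32 * (r:ℝ)) (n : ℕ) (hn : 14 ≤ n) :
    num r (n + 1) LL ≤ (2 * r - 1 - (11 / 16) / r ^ 3 + KU / r ^ 4) * num r n LL := by
  obtain ⟨p, rfl⟩ : ∃ p, n = p + 14 := ⟨n - 14, by omega⟩
  have hr' : (14 : ℝ) ≤ r := by exact_mod_cast hr
  have hrp : (0 : ℝ) < r := by linarith
  have h0 := rec_unit (cls_LL (r := r)) (p + 13)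
  have h1 := forb_count (r := r) p
  have h2 : ∑ l ∈ Icc 1 7, num r (p + 8 - l) LL * num r (7 + l) (fun u => 5 ≤ rep u)
      ≤ 7 * (241 ^ 120 * 2 ^ 9) * r ^ 2 * num r (p + 8) LL := by
    calc _ ≤ ∑ l ∈ Icc 1 7, 241 ^ 120 * 2 ^ 9 * r ^ 2 * num r (p + 8) LL :=
          Finset.sum_le_sum fun l hl => forb_count7 hr p hl
      _ = _ := by rw [Finset.sum_const, Nat.card_Icc, nsmul_eq_mul]; push_cast; ring
  have h3 : ∑ l ∈ Icc 1 7, num r (p + 7 - l) LL * num r (8 + l) (fun u => 5 ≤ rep u)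
      ≤ 7 * (241 ^ 120 * 2 ^ 10) * r ^ 3 * num r (p + 7) LL := by
    calc _ ≤ ∑ l ∈ Icc 1 7, 241 ^ 120 * 2 ^ 10 * r ^ 3 * num r (p + 7) LL :=
          Finset.sum_le_sum fun l hl => forb_count8 hr p hl
      _ = _ := by rw [Finset.sum_const, Nat.card_Icc, nsmul_eq_mul]; push_cast; ring
  rw [num_forb7 (by omega), num_forb8 (by omega)] at h1
  obtain ⟨A, hA⟩ : ∃ A : ℝ, A = 7 * (241 ^ 120 * 2 ^ 9) := ⟨_, rfl⟩
  obtain ⟨B, hB⟩ : ∃ B : ℝ, B = 7 * (241 ^ 120 * 2 ^ 10) := ⟨_, rfl⟩
  have hK : KU = (84 + A) / 64 + (192 + B) / 128 := by unfold KU; rw [hA, hB]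
  rw [← hA] at h2 hr2
  rw [← hB] at h3 hr3
  rw [hK]
  have A0 : 0 ≤ A := by rw [hA]; positivity
  have B0 : 0 ≤ B := by rw [hB]; positivity
  clear hA hB hK
  have g1 := num_add_le (r := r) (p + 8) 6
  have g2 := num_add_le (r := r) (p + 7) 7
  have e1 : p + 8 + 6 = p + 14 := by omega
  have e2 : p + 7 + 7 = p + 14 := by omega
  have e3 : p + 13 + 2 = p + 15 := by omega
  have e4 : p + 13 + 1 = p + 14 := by omega
  have e5 : p + 14 + 1 = p + 15 := by omega
  rw [e1] at g1
  rw [e2] at g2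
  rw [e3, e4] at h0
  rw [e5]
  obtain ⟨X, hX⟩ : ∃ X, X = num r (p + 14) LL := ⟨_, rfl⟩
  obtain ⟨Y, hY⟩ : ∃ Y, Y = num r (p + 8) LL := ⟨_, rfl⟩
  obtain ⟨Z, hZ⟩ : ∃ Z, Z = num r (p + 7) LL := ⟨_, rfl⟩
  rw [← hX] at g1 g2 h0 ⊢
  rw [← hY] at g1 h1 h2
  rw [← hZ] at g2 h1 h3
  have X0 : 0 ≤ X := by rw [hX]; exact num_nonneg _ _
  have Y0 : 0 ≤ Y := by rw [hY]; exact num_nonneg _ _
  have Z0 : 0 ≤ Z := by rw [hZ]; exact num_nonneg _ _
  -- the two contributions
  have k1 : X * ((28 * r - (84 + A)) / (64 * r ^ 4)) ≤ (28 * r * (r - 1) * (r - 2) - A * r ^ 2) * Y := by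
    have q1 : (28 * r ^ 3 - (84 + A) * r ^ 2) * Y ≤ (28 * r * (r - 1) * (r - 2) - A * r ^ 2) * Y := by
      apply mul_le_mul_of_nonneg_right _ Y0
      nlinarith
    refine le_trans ?_ q1
    have q2 : X * ((28 * r - (84 + A)) / (64 * r ^ 4))
        ≤ Y * (2 * r) ^ 6 * ((28 * r - (84 + A)) / (64 * r ^ 4)) := by
      apply mul_le_mul_of_nonneg_right g1
      apply div_nonneg _ (by positivity)
      linarith
    refine q2.trans (le_of_eq ?_)
    field_simp
    ring
  have k2 : X * ((32 * r - (192 + B)) / (128 * r ^ 4))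
      ≤ (32 * r * (r - 1) * (r - 2) * (r - 3) - B * r ^ 3) * Z := by
    have q1 : (32 * r ^ 4 - (192 + B) * r ^ 3) * Z
        ≤ (32 * r * (r - 1) * (r - 2) * (r - 3) - B * r ^ 3) * Z := by
      apply mul_le_mul_of_nonneg_right _ Z0
      have : 32 * (r:ℝ) * (r - 1) * (r - 2) * (r - 3) = 32 * r ^ 4 - 192 * r ^ 3 + 32 * r * (11 * r - 6) := by
        ring
      rw [this]
      have : 0 ≤ 32 * (r:ℝ) * (11 * r - 6) := by
        apply mul_nonneg <;> linarith
      linarith
    refine le_trans ?_ q1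
    have q2 : X * ((32 * r - (192 + B)) / (128 * r ^ 4))
        ≤ Z * (2 * r) ^ 7 * ((32 * r - (192 + B)) / (128 * r ^ 4)) := by
      apply mul_le_mul_of_nonneg_right g2
      apply div_nonneg _ (by positivity)
      linarith
    refine q2.trans (le_of_eq ?_)
    field_simp
    ring
  have e6 : (28 * r - (84 + A)) / (64 * (r:ℝ) ^ 4) + (32 * r - (192 + B)) / (128 * r ^ 4)
      = (11 / 16) / r ^ 3 - ((84 + A) / 64 + (192 + B) / 128) / r ^ 4 := by
    field_simp
    ring
  calc num r (p + 15) LL = (2 * r - 1) * X - num r (p + 15) (Ext LL) := by linarith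
    _ ≤ (2 * r - 1) * X - X * ((28 * r - (84 + A)) / (64 * (r:ℝ) ^ 4)
        + (32 * r - (192 + B)) / (128 * r ^ 4)) := by
        rw [mul_add]
        nlinarith
    _ = _ := by rw [e6]; ring

/-- The upper growth bound. -/
noncomputable def al (r : ℕ) : ℝ := 2 * r - 1 - (11 / 16) / r ^ 3 + KU / r ^ 4

lemma al_ge (hr : 14 ≤ r) : 2 * (r:ℝ) - 2 ≤ al r := by
  have hr' : (14 : ℝ) ≤ r := by exact_mod_cast hr
  unfold al
  have h1 : (11 / 16 : ℝ) / r ^ 3 ≤ 1 := by
    rw [div_le_one (by positivity)]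
    calc (11 / 16 : ℝ) ≤ 1 := by norm_num
      _ ≤ r ^ 3 := one_le_pow₀ (by linarith)
  have h2 : 0 ≤ KU / (r:ℝ) ^ 4 := div_nonneg KU_pos.le (by positivity)
  linarith

lemma upper_bound (hr : 14 ≤ r) (hr2 : 84 + 7 * (241 ^ 120 * 2 ^ 9) ≤ 28 * (r:ℝ))
    (hr3 : 192 + 7 * (241 ^ 120 * 2 ^ 10) ≤ 32 * (r:ℝ)) (n : ℕ) :
    num r n LL ≤ (2 * r) ^ 14 * al r ^ n := by
  have hr' : (14 : ℝ) ≤ r := by exact_mod_cast hr
  have h1 : 1 ≤ al r := by linarith [al_ge hr]
  have small : ∀ n ≤ 14, num r n LL ≤ (2 * r) ^ 14 * al r ^ n := by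
    intro n hn
    calc num r n LL ≤ (2 * r) ^ n := num_le _ _
      _ ≤ (2 * r) ^ 14 := pow_le_pow_right₀ (by linarith) hn
      _ = (2 * r) ^ 14 * 1 := by ring
      _ ≤ (2 * r) ^ 14 * al r ^ n :=
        mul_le_mul_of_nonneg_left (one_le_pow₀ h1) (by positivity)
  induction n with
  | zero => exact small 0 (by norm_num)
  | succ n ih =>
    by_cases hn : n + 1 ≤ 14
    · exact small _ hn
    · have h2 := upper_step hr hr2 hr3 n (by omega)
      change _ ≤ al r * _ at h2
      calc num r (n + 1) LL ≤ al r * num r n LL := h2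
        _ ≤ al r * ((2 * r) ^ 14 * al r ^ n) := mul_le_mul_of_nonneg_left ih (by linarith)
        _ = _ := by ring

end Pool.Agent.Helper62.FM
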