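import Pool.Agent.Helper62.FM.Count

/-!
Multiplicative weights on words and weighted sums over classes of words.
-/

namespace Pool.Agent.Helper62.FM

open Finset

variable {r : ℕ}

/-- Weight of a letter. -/
noncomputable def lw (t : ℝ) (a : Lt r) : ℝ := if a.2 then t else t⁻¹

/-- Weight of a word. -/
noncomputable def wt (t : ℝ) (w : Wd r) : ℝ := (w.map (lw t)).prod

@[simp] lemma wt_nil (t : ℝ) : wt t ([] : Wd r) = 1 := by simp [wt]

lemma wt_cons (t : ℝ) (a : Lt r) (w : Wd r) : wt t (a :: w) = lw t a * wt t w := by simp [wt]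

lemma wt_append (t : ℝ) (u v : Wd r) : wt t (u ++ v) = wt t u * wt t v := by simp [wt]

lemma wt_single (t : ℝ) (a : Lt r) : wt t [a] = lw t a := by simp [wt]

lemma lw_pos {t : ℝ} (ht : 0 < t) (a : Lt r) : 0 < lw t a := by
  unfold lw; split_ifs <;> positivity

lemma wt_pos {t : ℝ} (ht : 0 < t) (w : Wd r) : 0 < wt t w := by
  induction w with
  | nil => simp
  | cons a w ih => rw [wt_cons]; exact mul_pos (lw_pos ht a) ih

lemma lw_le {t : ℝ} (ht : 1 ≤ t) (a : Lt r) : lw t a ≤ t := by
  unfold lw; split_ifs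
  · exact le_refl _
  · exact (inv_le_one_of_one_le₀ ht).trans ht

lemma wt_le {t : ℝ} (ht : 1 ≤ t) (w : Wd r) : wt t w ≤ t ^ w.length := by
  induction w with
  | nil => simp
  | cons a w ih =>
    rw [wt_cons, List.length_cons, pow_succ, mul_comm]
    exact mul_le_mul ih (lw_le ht a) (lw_pos (by linarith) a).le (by positivity)

lemma lw_one (a : Lt r) : lw 1 a = 1 := by unfold lw; split_ifs <;> simp

lemma wt_one (w : Wd r) : wt 1 w = 1 := by
  induction w with
  | nil => simp
  | cons a w ih => rw [wt_cons, lw_one, ih, one_mul]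

lemma lw_pow (t : ℝ) (N : ℕ) (a : Lt r) : lw (t ^ N) a = lw t a ^ N := by
  unfold lw; split_ifs <;> simp

lemma wt_pow (t : ℝ) (N : ℕ) (w : Wd r) : wt (t ^ N) w = wt t w ^ N := by
  induction w with
  | nil => simp
  | cons a w ih => rw [wt_cons, wt_cons, lw_pow, ih, mul_pow]

lemma lw_bar (t : ℝ) (a : Lt r) : lw t (bar a) = (lw t a)⁻¹ := by
  unfold lw bar
  rcases a with ⟨i, b⟩
  cases b <;> simp

lemma lw_mul_bar {t : ℝ} (ht : 0 < t) (a : Lt r) : lw t a * lw t (bar a) = 1 := by
  rw [lw_bar]; exact mul_inv_cancel₀ (lw_pos ht a).ne'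

lemma sum_step (a : Lt r) : ∑ k, step a k = sgn a := by
  simp [step_apply]

lemma lw_eq_zpow (t : ℝ) (a : Lt r) : lw t a = t ^ (sgn a) := by
  unfold lw sgn
  split_ifs <;> simp

lemma wt_eq_zpow {t : ℝ} (ht : 0 < t) (w : Wd r) : wt t w = t ^ (∑ k, disp w k) := by
  induction w with
  | nil => simp
  | cons a w ih =>
    have : ∑ k, disp (a :: w) k = sgn a + ∑ k, disp w k := by
      rw [← sum_step, ← Finset.sum_add_distrib]
      rfl
    rw [wt_cons, this, zpow_add₀ ht.ne', ih, lw_eq_zpow]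

lemma wt_le_of_nrm {t : ℝ} (ht : 1 ≤ t) {w : Wd r} {m : ℕ} (h : nrm (disp w) ≤ m) :
    wt t w ≤ t ^ m := by
  rw [wt_eq_zpow (by linarith)]
  have h1 : ∑ k, disp w k ≤ (m : ℤ) := by
    have h2 : ∑ k, disp w k ≤ (nrm (disp w) : ℤ) := by
      unfold nrm
      push_cast
      exact Finset.sum_le_sum fun k _ => le_abs_self _
    have : (nrm (disp w) : ℤ) ≤ m := by exact_mod_cast h
    linarith
  calc t ^ (∑ k, disp w k) ≤ t ^ (m : ℤ) := zpow_le_zpow_right₀ ht h1
    _ = t ^ m := zpow_natCast _ _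

lemma sum_lw (t : ℝ) : ∑ a : Lt r, lw t a = r * (t + t⁻¹) := by
  rw [Fintype.sum_prod_type]
  simp [lw, mul_add]

/-- Weighted number of the words of length `n` in a class. -/
noncomputable def cs (t : ℝ) (n : ℕ) (C : Wd r → Prop) : ℝ := by
  classical exact ∑ w ∈ W r n, if C w then wt t w else 0

lemma cs_def (t : ℝ) (n : ℕ) (C : Wd r → Prop) [DecidablePred C] :
    cs t n C = ∑ w ∈ W r n, if C w then wt t w else 0 := by
  unfold cs
  apply Finset.sum_congr rfl
  intro w _
  congr

lemma cs_nonneg {t : ℝ} (ht : 0 < t) (n : ℕ) (C : Wd r → Prop) : 0 ≤ cs t n C := by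
  classical
  rw [cs_def]
  exact Finset.sum_nonneg fun w _ => by
    split_ifs
    · exact (wt_pos ht w).le
    · exact le_refl _

lemma cs_mono {t : ℝ} (ht : 0 < t) {n : ℕ} {C D : Wd r → Prop}
    (h : ∀ w, w.length = n → C w → D w) : cs t n C ≤ cs t n D := by
  classical
  rw [cs_def, cs_def]
  apply Finset.sum_le_sum
  intro w hw
  rw [mem_W] at hw
  by_cases c : C w
  · rw [if_pos c, if_pos (h w hw c)]
  · rw [if_neg c]; split_ifs
    · exact (wt_pos ht w).le
    · exact le_refl _

lemma cs_one (n : ℕ) (C : Wd r → Prop) : cs 1 n C = num r n C := by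
  classical
  rw [cs_def, num_def']
  simp only [wt_one]

lemma cs_le_num {t : ℝ} (ht : 1 ≤ t) (n : ℕ) (C : Wd r → Prop) :
    cs t n C ≤ t ^ n * num r n C := by
  classical
  rw [cs_def, num_def', Finset.mul_sum]
  apply Finset.sum_le_sum
  intro w hw
  rw [mem_W] at hw
  split_ifs
  · rw [mul_one, ← hw]; exact wt_le ht w
  · simp

lemma cs_le_num' {t : ℝ} (ht : 1 ≤ t) (n m : ℕ) (C : Wd r → Prop)
    (h : ∀ w, w.length = n → C w → nrm (disp w) ≤ m) :
    cs t n C ≤ t ^ m * num r n C := by
  classical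
  rw [cs_def, num_def', Finset.mul_sum]
  apply Finset.sum_le_sum
  intro w hw
  rw [mem_W] at hw
  split_ifs with hc
  · rw [mul_one]; exact wt_le_of_nrm ht (h w hw hc)
  · simp

lemma cs_zero {t : ℝ} {C : Wd r → Prop} (h : C []) : cs t 0 C = 1 := by
  classical
  rw [cs_def, W_zero, Finset.sum_singleton, if_pos h, wt_nil]

/-- A class of reduced words closed under deletion of the last letter. -/
structure Cls (C : Wd r → Prop) : Prop where
  pre : ∀ w a, C (w ++ [a]) → C w
  rd : ∀ w, C w → Rd w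

lemma Cls.initial {C : Wd r → Prop} (hC : Cls C) (w v : Wd r) (h : C (w ++ v)) : C w := by
  induction v using List.reverseRecOn with
  | nil => simpa using h
  | append_singleton v a ih =>
    rw [← List.append_assoc] at h
    exact ih (hC.pre _ _ h)

/-- The minimal extensions leaving a class. -/
def Ext (C : Wd r → Prop) (u : Wd r) : Prop := Rd u ∧ C u.dropLast ∧ ¬ C u

open Classical in
lemma rec_aux (t : ℝ) {C : Wd r → Prop} (hC : Cls C) (n : ℕ) :
    cs t (n + 1) C + cs t (n + 1) (Ext C)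
      = ∑ w ∈ W r n, if C w then wt t w * ∑ a, (if Rd (w ++ [a]) then lw t a else 0) else 0 := by
  rw [cs_def, cs_def, ← Finset.sum_add_distrib, sum_W_succ]
  apply Finset.sum_congr rfl
  intro w _
  by_cases hw : C w
  · rw [if_pos hw, Finset.mul_sum]
    apply Finset.sum_congr rfl
    intro a _
    by_cases h1 : C (w ++ [a])
    · have h2 : ¬ Ext C (w ++ [a]) := fun h => h.2.2 h1
      rw [if_pos h1, if_neg h2, if_pos (hC.rd _ h1), wt_append, wt_single, add_zero]
    · by_cases h3 : Rd (w ++ [a])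
      · have h2 : Ext C (w ++ [a]) := ⟨h3, by simpa using hw, h1⟩
        rw [if_neg h1, if_pos h2, if_pos h3, wt_append, wt_single, zero_add]
      · have h2 : ¬ Ext C (w ++ [a]) := fun h => h3 h.1
        rw [if_neg h1, if_neg h2, if_neg h3]; simp
  · rw [if_neg hw]
    apply Finset.sum_eq_zero
    intro a _
    have h1 : ¬ C (w ++ [a]) := fun h => hw (hC.pre _ _ h)
    have h2 : ¬ Ext C (w ++ [a]) := fun h => hw (by simpa using h.2.1)
    rw [if_neg h1, if_neg h2, add_zero]

open Classical in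
lemma sum_ext (t : ℝ) {v : Wd r} {b : Lt r} (h : Rd (v ++ [b])) :
    ∑ a, (if Rd ((v ++ [b]) ++ [a]) then lw t a else 0) = r * (t + t⁻¹) - lw t (bar b) := by
  have h1 : ∀ a : Lt r, (if Rd ((v ++ [b]) ++ [a]) then lw t a else 0)
      = lw t a - if a = bar b then lw t a else 0 := by
    intro a
    by_cases e : a = bar b
    · have : ¬ Rd ((v ++ [b]) ++ [a]) := by
        intro hh
        rw [List.append_assoc, e] at hh
        exact not_rd hh
      rw [if_neg this, if_pos e]; ring
    · have : Rd ((v ++ [b]) ++ [a]) := rd_append_iff.2 ⟨h, FreeGroup.IsReduced.singleton, e⟩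
      rw [if_pos this, if_neg e, sub_zero]
  rw [Finset.sum_congr rfl fun a _ => h1 a, Finset.sum_sub_distrib, sum_lw]
  simp

/-- The correction term of the recursion. -/
noncomputable def dsum (t : ℝ) (n : ℕ) (C : Wd r → Prop) : ℝ := by
  classical exact ∑ v ∈ W r n, ∑ b : Lt r, if C (v ++ [b]) then wt t v else 0

lemma dsum_def (t : ℝ) (n : ℕ) (C : Wd r → Prop) [DecidablePred C] :
    dsum t n C = ∑ v ∈ W r n, ∑ b : Lt r, if C (v ++ [b]) then wt t v else 0 := by
  unfold dsum
  apply Finset.sum_congr rfl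
  intro w _
  apply Finset.sum_congr rfl
  intro w _
  congr

/-- The exact recursion. -/
lemma rec_main {t : ℝ} (ht : 0 < t) {C : Wd r → Prop} (hC : Cls C) (n : ℕ) :
    cs t (n + 2) C + cs t (n + 2) (Ext C)
      = r * (t + t⁻¹) * cs t (n + 1) C - dsum t n C := by
  classical
  rw [rec_aux t hC (n + 1), dsum_def, cs_def, sum_W_succ, sum_W_succ, Finset.mul_sum,
    ← Finset.sum_sub_distrib]
  apply Finset.sum_congr rfl
  intro v _
  rw [Finset.mul_sum, ← Finset.sum_sub_distrib]
  apply Finset.sum_congr rfl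
  intro b _
  by_cases h : C (v ++ [b])
  · rw [if_pos h, if_pos h, if_pos h, sum_ext t (hC.rd _ h), wt_append, wt_single]
    have := lw_mul_bar ht b
    linear_combination (- wt t v) * this
  · rw [if_neg h, if_neg h, if_neg h]; ring

open Classical in
/-- A nonempty reduced word has `2 r - 1` reduced extensions. -/
lemma card_ext {v : Wd r} {c : Lt r} (h : Rd (v ++ [c])) :
    ∑ b : Lt r, (if Rd ((v ++ [c]) ++ [b]) then (1 : ℝ) else 0) = 2 * r - 1 := by
  have := sum_ext (1 : ℝ) h
  simp only [lw_one] at this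
  rw [this]; ring

lemma dsum_rd {t : ℝ} (n : ℕ) :
    dsum t (n + 1) (fun w : Wd r => Rd w) = (2 * r - 1) * cs t (n + 1) (fun w : Wd r => Rd w) := by
  classical
  rw [dsum_def, cs_def, sum_W_succ, sum_W_succ, Finset.mul_sum]
  apply Finset.sum_congr rfl
  intro v _
  rw [Finset.mul_sum]
  apply Finset.sum_congr rfl
  intro c _
  by_cases h : Rd (v ++ [c])
  · rw [if_pos h]
    have h1 := card_ext h
    calc ∑ b : Lt r, (if Rd ((v ++ [c]) ++ [b]) then wt t (v ++ [c]) else 0)
        = ∑ b : Lt r, wt t (v ++ [c]) * (if Rd ((v ++ [c]) ++ [b]) then (1:ℝ) else 0) := by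
          apply Finset.sum_congr rfl
          intro b _
          split_ifs <;> simp
      _ = (2 * r - 1) * wt t (v ++ [c]) := by rw [← Finset.mul_sum, h1]; ring
  · rw [if_neg h, mul_zero]
    apply Finset.sum_eq_zero
    intro b _
    rw [if_neg fun hh => h (rd_append_left hh)]

lemma dsum_le {t : ℝ} (ht : 0 < t) {C : Wd r → Prop} (hC : Cls C) (n : ℕ) :
    dsum t (n + 1) C ≤ (2 * r - 1) * cs t (n + 1) C := by
  classical
  rw [dsum_def, cs_def, sum_W_succ, sum_W_succ, Finset.mul_sum]
  apply Finset.sum_le_sum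
  intro v _
  rw [Finset.mul_sum]
  apply Finset.sum_le_sum
  intro c _
  by_cases h : C (v ++ [c])
  · rw [if_pos h]
    have h1 := card_ext (hC.rd _ h)
    calc ∑ b : Lt r, (if C ((v ++ [c]) ++ [b]) then wt t (v ++ [c]) else 0)
        ≤ ∑ b : Lt r, wt t (v ++ [c]) * (if Rd ((v ++ [c]) ++ [b]) then (1:ℝ) else 0) := by
          apply Finset.sum_le_sum
          intro b _
          by_cases hb : C ((v ++ [c]) ++ [b])
          · rw [if_pos hb, if_pos (hC.rd _ hb), mul_one]
          · rw [if_neg hb]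
            have := (wt_pos ht (v ++ [c])).le
            split_ifs <;> simp [this]
      _ = (2 * r - 1) * wt t (v ++ [c]) := by rw [← Finset.mul_sum, h1]; ring
  · rw [if_neg h, mul_zero]
    apply le_of_eq
    apply Finset.sum_eq_zero
    intro b _
    rw [if_neg fun hh => h (hC.pre _ _ hh)]

lemma dsum_zero {t : ℝ} {C : Wd r → Prop} : dsum t 0 C ≤ 2 * r := by
  classical
  rw [dsum_def, W_zero, Finset.sum_singleton]
  calc ∑ b : Lt r, (if C ([] ++ [b]) then wt t ([] : Wd r) else 0) ≤ ∑ _b : Lt r, (1 : ℝ) := by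
        apply Finset.sum_le_sum
        intro b _
        rw [wt_nil]
        split_ifs <;> norm_num
    _ = 2 * r := by
        rw [Finset.sum_const, Finset.card_univ, card_letters, nsmul_eq_mul]
        push_cast; ring

/-- The recursion for unit weights. -/
lemma rec_unit {C : Wd r → Prop} (hC : Cls C) (n : ℕ) :
    num r (n + 2) C + num r (n + 2) (Ext C) = (2 * r - 1) * num r (n + 1) C := by
  classical
  rw [← cs_one, ← cs_one, ← cs_one, rec_aux 1 hC (n + 1), cs_def, sum_W_succ, sum_W_succ,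
    Finset.mul_sum]
  apply Finset.sum_congr rfl
  intro v _
  rw [Finset.mul_sum]
  apply Finset.sum_congr rfl
  intro c _
  by_cases h : C (v ++ [c])
  · rw [if_pos h, if_pos h, wt_one, sum_ext 1 (hC.rd _ h), lw_one]
    ring
  · rw [if_neg h, if_neg h, mul_zero]

lemma cs_one_letter {t : ℝ} {C : Wd r → Prop} (h : ∀ a : Lt r, C [a]) :
    cs t 1 C = r * (t + t⁻¹) := by
  classical
  rw [cs_def, sum_W_one, ← sum_lw]
  apply Finset.sum_congr rfl
  intro a _
  rw [if_pos (h a), wt_single]

/-- Weighted sums over words with a prescribed initial class and suffix pattern. -/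
lemma cs_split {t : ℝ} (m l : ℕ) (C P : Wd r → Prop) :
    cs t (m + l) (fun u => C (u.take m) ∧ P (u.drop m)) = cs t m C * cs t l P := by
  classical
  rw [cs_def, cs_def, cs_def, sum_W_add, Finset.sum_mul]
  apply Finset.sum_congr rfl
  intro v hv
  rw [Finset.mul_sum]
  apply Finset.sum_congr rfl
  intro u hu
  rw [mem_W] at hv
  have e1 : (v ++ u).take m = v := by simp [← hv]
  have e2 : (v ++ u).drop m = u := by simp [← hv]
  rw [e1, e2, wt_append]
  by_cases h1 : C v <;> by_cases h2 : P u <;> simp [h1, h2]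

/-- Union bound over suffix patterns. -/
lemma cs_ext_le {t : ℝ} (ht : 0 < t) {C : Wd r → Prop} (P : Wd r → Prop) (n : ℕ)
    (h : ∀ u : Wd r, u.length = n + 1 → Ext C u → ∃ m ≤ n, C (u.take m) ∧ P (u.drop m)) :
    cs t (n + 1) (Ext C) ≤ ∑ m ∈ range (n + 1), cs t m C * cs t (n + 1 - m) P := by
  classical
  have e : ∀ m ∈ range (n + 1), cs t m C * cs t (n + 1 - m) P
      = ∑ u ∈ W r (n + 1), if C (u.take m) ∧ P (u.drop m) then wt t u else 0 := by
    intro m hm
    have hm' := Finset.mem_range.1 hm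
    rw [← cs_split, show m + (n + 1 - m) = n + 1 by omega, cs_def]
  rw [Finset.sum_congr rfl e, Finset.sum_comm, cs_def]
  apply Finset.sum_le_sum
  intro u hu
  rw [mem_W] at hu
  have pos := (wt_pos ht u).le
  by_cases hx : Ext C u
  · rw [if_pos hx]
    obtain ⟨m, hm, h1⟩ := h u hu hx
    calc wt t u = if C (u.take m) ∧ P (u.drop m) then wt t u else 0 := by rw [if_pos h1]
      _ ≤ _ := Finset.single_le_sum (f := fun m => if C (u.take m) ∧ P (u.drop m) then wt t u else 0)
          (fun i _ => by split_ifs <;> simp [pos]) (Finset.mem_range.2 (by omega))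
  · rw [if_neg hx]
    exact Finset.sum_nonneg fun i _ => by split_ifs <;> simp [pos]

end Pool.Agent.Helper62.FM
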